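import Mathlib
import Pool.Agent.Lib.MP_89bcae_ag.Zp.Defs

/-!
# The cyclic coverings `y ^ ℓ = f(t, x)`, for an arbitrary polynomial `f` without multiple factors
-/

open Polynomial

open scoped Classical

namespace Pool.Agent.Lib.MP_89bcae_ag.Ze

open Pool.Agent.Lib.MP_89bcae_ag.Zs (ext)
open Pool.Agent.Lib.MP_89bcae_ag.Zp (IsSmoothAt)

/-- The polynomial `f`, in `x` with coefficients in `k[t]`, with its coefficients in the field `L = F(t)` of the fractions of `F[t]`. -/
noncomputable def poly {k : Type} (F L : Type) [Field k] [Field F] [Algebra k F] [Field L] [Algebra F[X] L]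
    (f : k[X][X]) : L[X] :=
  (ext F f).map (algebraMap F[X] L)

/-- The polynomial `f` is monic of degree prime to `ℓ` in `x`, and has no multiple roots in an algebraic closure of `F(t)`. -/
structure IsBranch (ℓ : ℕ) {k : Type} (F L : Type) [Field k] [Field F] [Algebra k F] [Field L] [Algebra F[X] L]
    (f : k[X][X]) : Prop where
  monic : f.Monic
  coprime : f.natDegree.Coprime ℓ
  separable : (poly F L f).Separable

section

variable (ℓ : ℕ) (F : Type) {L : Type} [Field F] [Field L] [Algebra F[X] L] (p : L[X])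

/-- The functions `τ`, `ξ = (x - ρ) / w` and the polynomial `φ(τ, X)` form a chart for the polynomial `p(x)` with coefficients in
`L = F(t)`: the function `τ` is `t - s`, with `s` in `F`, or `1 / t`, the functions `ρ`, `w`, `z` are in `F(t)`, with `w` and
`z` nonzero, and `p(ρ + w X) = z ^ ℓ φ(τ, X)`; moreover `φ(0, X)` is nonzero. So the surface with the equation
`y ^ ℓ = p(x)` has also, in the coordinates `τ`, `ξ` of another plane, the equation `y ^ ℓ = φ(τ, ξ)`, and the line `τ = 0` is not
in the branch curve. -/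
def IsChart (φ : F[X][X]) (τ ρ w : L) : Prop :=
  ((∃ s : F, τ = algebraMap F[X] L (X - C s)) ∨ τ = (algebraMap F[X] L X)⁻¹) ∧ φ.map (evalRingHom 0) ≠ 0 ∧
    w ≠ 0 ∧ ∃ z : L, z ≠ 0 ∧
      p.comp (C ρ + C w * X) = C (z ^ ℓ) * φ.map (eval₂RingHom ((algebraMap F[X] L).comp C) τ)

/-- The algebra `L[x] / (p)` is the product of the function fields of the components of the curve `p = 0`. The valuation ring
`O` of the field `M`, the function field of the component given by the homomorphism `π`, contains the constants and is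
centred at the smooth point `(0, r)` of the curve `φ(τ, (x - ρ) / w) = 0`. -/
def IsCentre {M : Type} [Field M] (π : AdjoinRoot p →+* M) (O : ValuationSubring M) (φ : F[X][X]) (τ ρ w : L) (r : F) :
    Prop :=
  (∀ c : F, π (algebraMap L (AdjoinRoot p) (algebraMap F[X] L (C c))) ∈ O) ∧
    O.valuation (π (algebraMap L (AdjoinRoot p) τ)) < 1 ∧
    O.valuation (π (AdjoinRoot.root p - algebraMap L (AdjoinRoot p) ρ) /
      π (algebraMap L (AdjoinRoot p) w) - π (algebraMap L (AdjoinRoot p) (algebraMap F[X] L (C r)))) < 1 ∧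
    IsSmoothAt φ 0 r

/-- The group of the invertible elements `u` of the algebra `L[x] / (p)` whose norm to `L` is an `ℓ`-th power, and such
that for all charts there is an integer `c`, equal to `0` if the degree in `X` of `φ(0, X)` is that of `p`, such that the value of
`u τ ^ (- c)` is divisible by `ℓ` for all the valuation rings of the function fields of the components which are centred at a
smooth point `(0, r)` of the curve `φ(τ, ξ) = 0`. -/
noncomputable def unramified : Subgroup (AdjoinRoot p)ˣ where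
  carrier := {u | (∃ v : L, Algebra.norm L (u : AdjoinRoot p) = v ^ ℓ) ∧
    ∀ (φ : F[X][X]) (τ ρ w : L), IsChart ℓ F p φ τ ρ w →
      ∃ c : ℤ, ((φ.map (evalRingHom 0)).natDegree = p.natDegree → c = 0) ∧
        ∀ (M : Type) [Field M] (π : AdjoinRoot p →+* M), Function.Surjective π →
          ∀ (O : ValuationSubring M) (r : F), IsCentre F p π O φ τ ρ w r →
            ∃ v : Mˣ, O.valuation (π u) = O.valuation (π (algebraMap L (AdjoinRoot p) τ) ^ c * (v : M) ^ ℓ)}
  one_mem' := by
    refine ⟨⟨1, by simp⟩, fun φ τ ρ w _ => ⟨0, fun _ => rfl, fun M _ π _ O r _ => ⟨1, by simp⟩⟩⟩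
  mul_mem' := by
    rintro a b ⟨⟨v₁, h₁⟩, ha⟩ ⟨⟨v₂, h₂⟩, hb⟩
    refine ⟨⟨v₁ * v₂, by rw [Units.val_mul, map_mul, h₁, h₂, mul_pow]⟩, fun φ τ ρ w h => ?_⟩
    obtain ⟨c, hc, hc'⟩ := ha φ τ ρ w h
    obtain ⟨d, hd, hd'⟩ := hb φ τ ρ w h
    refine ⟨c + d, fun h => by rw [hc h, hd h, add_zero], fun M _ π hπ O r hr => ?_⟩
    obtain ⟨v, hv⟩ := hc' M π hπ O r hr
    obtain ⟨v', hv'⟩ := hd' M π hπ O r hr
    have h0 : ∀ (g : (AdjoinRoot p)ˣ) (y : Mˣ) (n : ℤ),
        O.valuation (π g) = O.valuation (π (algebraMap L (AdjoinRoot p) τ) ^ n * (y : M) ^ ℓ) →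
        π (algebraMap L (AdjoinRoot p) τ) = 0 → n = 0 := by
      intro g y n hg hτ
      by_contra hn
      rw [hτ, zero_zpow n hn, zero_mul, map_zero, map_eq_zero] at hg
      exact (g.isUnit.map π).ne_zero hg
    have hτ : π (algebraMap L (AdjoinRoot p) τ) ^ (c + d) =
        π (algebraMap L (AdjoinRoot p) τ) ^ c * π (algebraMap L (AdjoinRoot p) τ) ^ d := by
      by_cases hτ : π (algebraMap L (AdjoinRoot p) τ) = 0
      · rw [h0 a v c hv hτ, h0 b v' d hv' hτ, add_zero, zpow_zero, one_mul]
      · exact zpow_add₀ hτ c d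
    refine ⟨v * v', ?_⟩
    rw [Units.val_mul, Units.val_mul, map_mul, map_mul, hv, hv', ← map_mul, hτ, mul_pow]
    congr 1
    ring
  inv_mem' := by
    rintro a ⟨⟨v₁, h₁⟩, ha⟩
    refine ⟨⟨v₁⁻¹, ?_⟩, fun φ τ ρ w h => ?_⟩
    · have h2 : Algebra.norm L ((a⁻¹ : (AdjoinRoot p)ˣ) : AdjoinRoot p) * Algebra.norm L (a : AdjoinRoot p) = 1 := by
        rw [← map_mul, Units.inv_mul, map_one]
      rw [h₁] at h2
      rw [inv_pow]
      exact eq_inv_of_mul_eq_one_left h2
    · obtain ⟨c, hc, hc'⟩ := ha φ τ ρ w h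
      refine ⟨-c, fun h => by rw [hc h, neg_zero], fun M _ π hπ O r hr => ?_⟩
      obtain ⟨v, hv⟩ := hc' M π hπ O r hr
      refine ⟨v⁻¹, ?_⟩
      have h3 : π ((a⁻¹ : (AdjoinRoot p)ˣ) : AdjoinRoot p) = (π a)⁻¹ :=
        eq_inv_of_mul_eq_one_left (by rw [← map_mul, Units.inv_mul, map_one])
      rw [h3, map_inv₀, hv, Units.val_inv_eq_inv_val, ← map_inv₀, mul_inv, inv_pow, zpow_neg]

end

section

variable (ℓ : ℕ) {L : Type} [Field L] (p : L[X])

/-- The group generated by the `ℓ`-th powers and by the elements `h(x)`, for the monic polynomials `h` over `L` prime to `p` which divide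
the polynomial `b ^ ℓ - p`, for some polynomial `b` over `L`. For such `h` and `b` the equations `h(x) = 0`, `y = b(x)`
define a divisor on the affine curve `y ^ ℓ = p(x)` over `L`; the classes of these divisors generate the group of the
classes of divisors, and `points` is the image of this group under the descent map, which sends the class of a divisor to the value at
`x` of its norm. -/
noncomputable def points : Subgroup (AdjoinRoot p)ˣ :=
  Subgroup.closure ({u | ∃ v : (AdjoinRoot p)ˣ, u = v ^ ℓ} ∪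
    {u | ∃ h b : L[X], h.Monic ∧ h ∣ b ^ ℓ - p ∧ (u : AdjoinRoot p) = AdjoinRoot.mk p h})

end

section

variable (ℓ : ℕ) (k F : Type) {L : Type} [Field k] [Field F] [Algebra k F] [Field L] [Algebra F[X] L] (p : L[X])

/-- The Galois group of `F` over the field generated by `k` and the `ℓ`-th roots of unity, which acts on the algebra `L[x] / (p)`
through the coefficients: the group of the automorphisms which fix the elements of `k`, the `ℓ`-th roots of unity, `t` and
`x`, and which map `F` to `F`. -/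
noncomputable def galois : Subgroup (AdjoinRoot p ≃+* AdjoinRoot p) where
  carrier := {γ | (∀ c : k, γ (algebraMap L _ (algebraMap F[X] L (C (algebraMap k F c)))) =
      algebraMap L _ (algebraMap F[X] L (C (algebraMap k F c)))) ∧
    (∀ c : F, c ^ ℓ = 1 → γ (algebraMap L _ (algebraMap F[X] L (C c))) = algebraMap L _ (algebraMap F[X] L (C c))) ∧
    γ (algebraMap L _ (algebraMap F[X] L X)) = algebraMap L _ (algebraMap F[X] L X) ∧
    γ (AdjoinRoot.root p) = AdjoinRoot.root p ∧
    (∀ c : F, ∃ d : F, γ (algebraMap L _ (algebraMap F[X] L (C c))) = algebraMap L _ (algebraMap F[X] L (C d))) ∧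
    ∀ c : F, ∃ d : F, γ (algebraMap L _ (algebraMap F[X] L (C d))) = algebraMap L _ (algebraMap F[X] L (C c))}
  one_mem' := ⟨fun _ => rfl, fun _ _ => rfl, rfl, rfl, fun c => ⟨c, rfl⟩, fun c => ⟨c, rfl⟩⟩
  mul_mem' := by
    rintro a b ⟨h1, h2, h3, h4, h5, h6⟩ ⟨h1', h2', h3', h4', h5', h6'⟩
    refine ⟨fun c => ?_, fun c hc => ?_, ?_, ?_, fun c => ?_, fun c => ?_⟩
    · rw [RingAut.mul_apply, h1', h1]
    · rw [RingAut.mul_apply, h2' c hc, h2 c hc]
    · rw [RingAut.mul_apply, h3', h3]
    · rw [RingAut.mul_apply, h4', h4]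
    · obtain ⟨d, hd⟩ := h5' c
      obtain ⟨d', hd'⟩ := h5 d
      exact ⟨d', by rw [RingAut.mul_apply, hd, hd']⟩
    · obtain ⟨d, hd⟩ := h6 c
      obtain ⟨d', hd'⟩ := h6' d
      exact ⟨d', by rw [RingAut.mul_apply, hd', hd]⟩
  inv_mem' := by
    rintro a ⟨h1, h2, h3, h4, h5, h6⟩
    refine ⟨fun c => ?_, fun c hc => ?_, ?_, ?_, fun c => ?_, fun c => ?_⟩
    · exact a.injective ((a.apply_symm_apply _).trans (h1 c).symm)
    · exact a.injective ((a.apply_symm_apply _).trans (h2 c hc).symm)
    · exact a.injective ((a.apply_symm_apply _).trans h3.symm)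
    · exact a.injective ((a.apply_symm_apply _).trans h4.symm)
    · obtain ⟨d, hd⟩ := h6 c
      exact ⟨d, a.injective ((a.apply_symm_apply _).trans hd.symm)⟩
    · obtain ⟨d, hd⟩ := h5 c
      exact ⟨d, a.injective ((a.apply_symm_apply _).trans hd.symm)⟩

end

end Pool.Agent.Lib.MP_89bcae_ag.Ze
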