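import Mathlib

/-!
# The criteria for a group `N / V` of classes of units of a ring
-/

open scoped Classical

namespace Pool.Agent.Lib.MP_89bcae_ag.Ze

section

variable {R : Type} [CommRing R]

/-- The group of the `ℓ`-th powers. -/
def powers (ℓ : ℕ) (R : Type) [CommRing R] : Subgroup Rˣ := (powMonoidHom ℓ : Rˣ →* Rˣ).range

variable (ℓ : ℕ) (G : Subgroup (R ≃+* R)) (V N : Subgroup Rˣ)

/-- The criterion of Minkowski and Schur for the group `N / V`, of order `ℓ ^ r`: the order of the image of `G` in the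
group of its automorphisms is divisible by a higher power of `ℓ` than `ℓ ^ r r!`. -/
def IsLarge (r : ℕ) : Prop :=
  r + padicValNat ℓ r.factorial <
    padicValNat ℓ (Nat.card (Set.range fun (γ : G) (u : N) =>
      ((Units.map ((γ : R ≃+* R) : R →* R) u : Rˣ) : Rˣ ⧸ V)))

/-- The criterion of Jordan for the group `N / V`, of order `ℓ ^ r`: we have `ℓ > (13 r) ^ r`, and two elements of `G`,
which act on this group through automorphisms the orders of which are powers of `ℓ`, do not commute on it. -/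
def IsTwisted (r : ℕ) : Prop :=
  (13 * r) ^ r < ℓ ∧ ∃ γ ∈ G, ∃ γ' ∈ G, ∃ m : ℕ,
    (∀ u ∈ N, Units.map ((γ ^ ℓ ^ m : R ≃+* R) : R →* R) u / u ∈ V) ∧
    (∀ u ∈ N, Units.map ((γ' ^ ℓ ^ m : R ≃+* R) : R →* R) u / u ∈ V) ∧
      ∃ u ∈ N, Units.map ((γ * γ' : R ≃+* R) : R →* R) u / Units.map ((γ' * γ : R ≃+* R) : R →* R) u ∉ V

/-- The group `N / V` lifts: it is the quotient by `1 - σ` of the module `ℤ_ℓ ^ n`, where `1 + σ + ... + σ ^ (ℓ - 1) = 0` (so that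
this is a module over the ring generated over `ℤ_ℓ` by the `ℓ`-th roots of unity), and there is a finite group `Γ` of automorphisms of
this module, which commute with `σ`, such that the elements of `G` act on `N / V` as elements of `Γ`. -/
structure IsLift [Fact ℓ.Prime] {n : ℕ} (σ : Module.End ℤ_[ℓ] (Fin n → ℤ_[ℓ]))
    (Γ : Subgroup ((Fin n → ℤ_[ℓ]) ≃ₗ[ℤ_[ℓ]] (Fin n → ℤ_[ℓ]))) (π : (Fin n → ℤ_[ℓ]) → Rˣ) : Prop where
  finite : Finite Γ
  comm : ∀ g ∈ Γ, ∀ v, g (σ v) = σ (g v)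
  cyclotomic : ∑ i ∈ Finset.range ℓ, σ ^ i = 0
  add : ∀ v w, π (v + w) / (π v * π w) ∈ V
  range : ∀ u, u ∈ N ↔ ∃ v, u / π v ∈ V
  kernel : ∀ v, π v ∈ V ↔ ∃ w, v = w - σ w
  lift : ∀ γ ∈ G, ∃ g ∈ Γ, ∀ v, Units.map (γ : R →* R) (π v) / π (g v) ∈ V

/-- Each subgroup `N` with `V < N ≤ U`, stable under `G` and such that `N / V` is finite of order a power of `ℓ`, satisfies one of
the criteria above or does not lift. -/
def IsRigid [Fact ℓ.Prime] (U V : Subgroup Rˣ) : Prop :=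
  ∀ N : Subgroup Rˣ, V < N → N ≤ U → (∀ γ ∈ G, ∀ u ∈ N, Units.map (γ : R →* R) u ∈ N) →
    ∀ r : ℕ, V.relIndex N = ℓ ^ r →
      IsLarge ℓ G V N r ∨ IsTwisted ℓ G V N r ∨
        ¬ ∃ (n : ℕ) (σ : Module.End ℤ_[ℓ] (Fin n → ℤ_[ℓ]))
          (Γ : Subgroup ((Fin n → ℤ_[ℓ]) ≃ₗ[ℤ_[ℓ]] (Fin n → ℤ_[ℓ]))) (π : (Fin n → ℤ_[ℓ]) → Rˣ),
          IsLift ℓ G V N σ Γ π

end

end Pool.Agent.Lib.MP_89bcae_ag.Ze
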