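import Mathlib
import Pool.Agent.Lib.MP_89bcae_ag.Zc.Asm
import Pool.Agent.Lib.MP_89bcae_ag.Z.WBase
import Pool.Agent.Lib.MP_89bcae_ag.Ze.Defs

/-!
# The generic fibre, for reducible curves
-/

attribute [local instance 100000] Pool.Agent.Lib.MP_89bcae_ag.Brt.tffFields
attribute [local instance 100000] Pool.Agent.Lib.MP_89bcae_ag.Wt.ifrNF Pool.Agent.Lib.MP_89bcae_ag.Wt.iddNF

open Polynomial IsDedekindDomain

open scoped Classical

namespace Pool.Agent.Lib.MP_89bcae_ag.Ze

open Pool.Agent.Lib.MP_89bcae_ag.Wt Pool.Agent.Lib.MP_89bcae_ag.Wt.Lns Pool.Agent.Lib.MP_89bcae_ag.Bra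
  Pool.Agent.Lib.MP_89bcae_ag.Brt

open Pool.Agent.Lib.MP_89bcae_ag.Zc (map_base_eq)

section

variable {k F L Ω : Type} [Field k] [Field F] [Algebra k F] [Field L]
    [Algebra F[X] L] [Field Ω] [Algebra L Ω] [IsAlgClosure L Ω] {ℓ : ℕ} {f : k[X][X]} {ζ : k}

/-- The polynomial of the curve over `L`. -/
theorem curveL_eq_poly (F L : Type) [Field F] [Algebra k F] [Field L] [Algebra F[X] L] (f : k[X][X]) :
    curveL k F L f = poly F L f := map_base_eq F L f

/-- The generic fibre. -/
theorem good_of (hℓ : ℓ.Prime) (hk : (ℓ : k) ≠ 0) (hB : IsBranch ℓ F L f) :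
    (f.map (base k F L L)).Separable ∧ IsGood ℓ ((f.map (base k F L L)).map (algebraMap L Ω)) := by
  have hΩ : IsAlgClosed Ω := IsAlgClosure.isAlgClosed L
  have hsep : (f.map (base k F L L)).Separable := by
    rw [map_base_eq]
    exact hB.separable
  refine ⟨hsep, ⟨hΩ, hℓ.one_lt, ?_, ?_, ?_⟩⟩
  · intro h
    apply hk
    have h1 : ((algebraMap L Ω).comp ((algebraMap F[X] L).comp ((C : F →+* F[X]).comp (algebraMap k F)))) (ℓ : k) = 0 := by
      rw [map_natCast]
      exact h
    exact (_root_.map_eq_zero _).1 h1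
  · intro θ hθ
    have hsep' : ((f.map (base k F L L)).map (algebraMap L Ω)).Separable := hsep.map
    have h1 := Polynomial.rootMultiplicity_le_one_of_separable hsep' θ
    have h2 : 0 < ((f.map (base k F L L)).map (algebraMap L Ω)).rootMultiplicity θ :=
      (Polynomial.rootMultiplicity_pos hsep'.ne_zero).mpr hθ
    rw [show ((f.map (base k F L L)).map (algebraMap L Ω)).rootMultiplicity θ = 1 by omega]
    exact Nat.coprime_one_left ℓ
  · rw [natDegree_map, hB.monic.natDegree_map]
    exact hB.coprime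

/-- The hypotheses on the generic fibre. -/
theorem lhyp_of (hℓ : ℓ.Prime) (hk : (ℓ : k) ≠ 0) (hζ : IsPrimitiveRoot ζ ℓ) (hB : IsBranch ℓ F L f) :
    LHyp ℓ k F L f ζ := by
  refine ⟨hℓ, hk, hζ, ?_⟩
  intro A _ _ _
  have hsep : (f.map (base k F L L)).Separable := by
    rw [map_base_eq]
    exact hB.separable
  refine ⟨inferInstance, hℓ.one_lt, ?_, ?_, ?_⟩
  · intro h
    apply hk
    have h1 : ((algebraMap L A).comp ((algebraMap F[X] L).comp ((C : F →+* F[X]).comp (algebraMap k F)))) (ℓ : k) = 0 := by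
      rw [map_natCast]
      exact h
    exact (_root_.map_eq_zero _).1 h1
  · intro θ hθ
    have hsep' : ((f.map (base k F L L)).map (algebraMap L A)).Separable := hsep.map
    have h1 := Polynomial.rootMultiplicity_le_one_of_separable hsep' θ
    have h2 : 0 < ((f.map (base k F L L)).map (algebraMap L A)).rootMultiplicity θ :=
      (Polynomial.rootMultiplicity_pos hsep'.ne_zero).mpr hθ
    show (((f.map (base k F L L)).map (algebraMap L A)).rootMultiplicity θ).Coprime ℓ
    rw [show ((f.map (base k F L L)).map (algebraMap L A)).rootMultiplicity θ = 1 by omega]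
    exact Nat.coprime_one_left ℓ
  · show (((f.map (base k F L L)).map (algebraMap L A)).natDegree).Coprime ℓ
    rw [natDegree_map, hB.monic.natDegree_map]
    exact hB.coprime

end

end Pool.Agent.Lib.MP_89bcae_ag.Ze
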