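import Mathlib
import Pool.Agent.Lib.MP_89bcae_ag.Zq.Br
import Pool.Agent.Lib.MP_89bcae_ag.Ze.Good

/-!
# From the Selmer groups modulo the points to the Brauer groups, for reducible curves
-/

attribute [local instance 100000] Pool.Agent.Lib.MP_89bcae_ag.Brt.tffFields
attribute [local instance 100000] Pool.Agent.Lib.MP_89bcae_ag.Wt.ifrNF Pool.Agent.Lib.MP_89bcae_ag.Wt.iddNF

open Polynomial IsDedekindDomain

open scoped Classical

namespace Pool.Agent.Lib.MP_89bcae_ag.Ze

open Pool.Agent.Lib.MP_89bcae_ag.Wt Pool.Agent.Lib.MP_89bcae_ag.Wt.Lns Pool.Agent.Lib.MP_89bcae_ag.Bra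
  Pool.Agent.Lib.MP_89bcae_ag.Brt

open Pool.Agent.Lib.MP_89bcae_ag.Zc

open Pool.Agent.Lib.MP_89bcae_ag.Zs (IsCoverField)

open Pool.Agent.Lib.MP_89bcae_ag.Zq (NTJ transferJ)

/-- The theorem for general fields `L = F(t)` and algebraic closures. -/
theorem ze_aux {ℓ : ℕ} (hℓ : ℓ.Prime) {k F K L Ω S : Type} [Field k] [Field F] [Algebra k F]
    [IsAlgClosure k F] [Field K] [Algebra F K] [Field S] [Algebra K S] [IsAlgClosure K S]
    [Field L] [Algebra F[X] L] [IsFractionRing F[X] L] [Algebra (RatFunc F) L]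
    [FiniteDimensional (RatFunc F) L] [Field Ω] [Algebra L Ω] [IsAlgClosure L Ω]
    (hk : (ℓ : k) ≠ 0) {f : k[X][X]} (hB : IsBranch ℓ F L f) (k' : IntermediateField k F)
    (hNT : ∀ [IsGood ℓ ((f.map (base k F L L)).map (algebraMap L Ω))],
      NTJ ℓ (f.map (base k F L L)) (Zp.UB F ℓ (f.map (base k F L L))) (AutK k F L Ω k'))
    {t x y : K} (hind : AlgebraicIndependent F ![t, x]) (hy : y ^ ℓ = Zs.val F f t x) (i : L →+* K)
    (hi : ∀ p : F[X], i (algebraMap F[X] L p) = aeval t p)
    (hgen : ∀ M : Subfield K, (∀ z : L, i z ∈ M) → x ∈ M → y ∈ M → M = ⊤) :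
    BrauerInvariantsTrivial ℓ S k' t x y := by
  have hFa : IsAlgClosed F := IsAlgClosure.isAlgClosed k
  have hF0 : (ℓ : F) ≠ 0 := by
    rw [← map_natCast (algebraMap k F)]
    exact (_root_.map_ne_zero _).mpr hk
  obtain ⟨-, hG⟩ := good_of (Ω := Ω) (L := L) hℓ hk hB
  obtain ⟨Φ, hΦ⟩ := exists_model_gen (Ω := Ω) (S := S) hind hy i hi hgen (map_base_eq F L f)
  have hinj : Function.Injective (algebraMap F[X] L) := IsFractionRing.injective F[X] L
  have hBr : BrTriv ℓ L Ω := by
    intro b hb
    refine tsen (C := F) hℓ ?_ b hb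
    have h1 : algebraMap F[X] L (C (ℓ : F)) = (ℓ : L) := by
      rw [map_natCast, map_natCast]
    rw [← h1]
    intro h0
    have h2 := hinj (h0.trans (map_zero _).symm)
    exact hF0 (C_eq_zero.1 h2)
  intro b hb hu hfix
  refine transferJ hℓ hΦ hBr (fun b C hb hu hC => ⟨b, C, hb, hu, hC, fun _ => rfl⟩) hNT
    (A := fun γ => (∀ c : F, c ∈ k' → γ (algebraMap K S (algebraMap F K c)) =
      algebraMap K S (algebraMap F K c)) ∧ γ (algebraMap K S t) = algebraMap K S t ∧
      γ (algebraMap K S x) = algebraMap K S x ∧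
      γ (algebraMap K S y) = algebraMap K S y) ?_ b hb hu ?_
  · intro γ hγ
    obtain ⟨σ, τ, h1, h2, h3⟩ := exists_of_mem_autK' k' hγ
    refine ⟨σ, h1, fun γ' h4 h5 h6 => ⟨fun c hc => ?_, ?_, h5, h6⟩⟩
    · have h7 := h4 (algebraMap F[X] L (C c))
      rw [h3, hi, hi, map_C, aeval_C, aeval_C] at h7
      rw [h7]
      congr 2
      exact h2 c hc
    · have h7 := h4 (algebraMap F[X] L X)
      rw [h3, hi, hi, map_X, aeval_X] at h7
      exact h7
  · intro γ hγ n
    exact hfix γ hγ.1 hγ.2.1 hγ.2.2.1 hγ.2.2.2 n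

/-- The Brauer side: if the invariant classes in the Selmer groups come from the points of the Jacobians, there are no
nontrivial invariant classes in the Tate modules of the Brauer groups. -/
theorem brauer_of_ntj {ℓ : ℕ} {k F : Type} [Field k] [Field F] [Algebra k F] [IsAlgClosure k F] (hℓ : ℓ.Prime)
    (hk : (ℓ : k) ≠ 0) {f : k[X][X]} (hB : IsBranch ℓ F (RatFunc F) f)
    (hNT : ∀ (k' : IntermediateField k F), FiniteDimensional k k' →
      ∀ [IsGood ℓ ((f.map (base k F (RatFunc F) (RatFunc F))).map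
        (algebraMap (RatFunc F) (AlgebraicClosure (RatFunc F))))],
      NTJ ℓ (f.map (base k F (RatFunc F) (RatFunc F))) (Zp.UB F ℓ (f.map (base k F (RatFunc F) (RatFunc F))))
        (AutK k F (RatFunc F) (AlgebraicClosure (RatFunc F)) k')) :
    ∀ (K S : Type) [Field K] [Algebra F K] [Field S] [Algebra K S] [IsAlgClosure K S] (t x y : K),
      IsCoverField ℓ F f t x y → ∀ k' : IntermediateField k F, FiniteDimensional k k' →
        BrauerInvariantsTrivial ℓ S k' t x y := by
  intro K S _ _ _ _ _ t x y hK k' hk'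
  have htr : Transcendental F t := by
    have h4 := hK.independent.transcendental 0
    exact h4
  have hinj : Function.Injective ((aeval t : F[X] →ₐ[F] K) : F[X] →+* K) := by
    rw [injective_iff_map_eq_zero]
    intro p hp
    exact (transcendental_iff.1 htr) p hp
  let i : RatFunc F →+* K := IsFractionRing.lift hinj
  have hi : ∀ p : F[X], i (algebraMap F[X] (RatFunc F) p) = aeval t p := fun p =>
    IsFractionRing.lift_algebraMap hinj p
  have hgen : ∀ M : Subfield K, (∀ z : RatFunc F, i z ∈ M) → x ∈ M → y ∈ M → M = ⊤ := by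
    intro M h1 h2 h3
    rw [eq_top_iff]
    intro z _
    let M' : IntermediateField F K := { M with
      algebraMap_mem' := fun c => by
        have h4 := h1 (algebraMap F[X] (RatFunc F) (C c))
        rw [hi, aeval_C] at h4
        exact h4 }
    have h4 : IntermediateField.adjoin F {t, x, y} ≤ M' := by
      rw [IntermediateField.adjoin_le_iff]
      intro w hw
      rcases hw with rfl | rfl | hw
      · have h4 := h1 (algebraMap F[X] (RatFunc F) X)
        rw [hi, aeval_X] at h4
        exact h4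
      · exact h2
      · rw [Set.mem_singleton_iff.1 hw]
        exact h3
    rw [hK.generate] at h4
    exact h4 IntermediateField.mem_top
  exact ze_aux (S := S) (Ω := AlgebraicClosure (RatFunc F)) (L := RatFunc F) hℓ hk hB k'
    (fun {_} => hNT k' hk') hK.independent hK.equation i hi hgen

end Pool.Agent.Lib.MP_89bcae_ag.Ze
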