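import Mathlib
import Pool.Agent.Lib.MP_89bcae_ag.Zq.Loc
import Pool.Agent.Lib.MP_89bcae_ag.Ze.Defs

/-!
# The elements attached to the cochains, for reducible curves
-/

attribute [local instance 100000] Pool.Agent.Lib.MP_89bcae_ag.Brt.tffFields
attribute [local instance 100000] Pool.Agent.Lib.MP_89bcae_ag.Wt.ifrNF Pool.Agent.Lib.MP_89bcae_ag.Wt.iddNF

open Polynomial IsDedekindDomain

open scoped Classical

namespace Pool.Agent.Lib.MP_89bcae_ag.Ze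

open Pool.Agent.Lib.MP_89bcae_ag.Wt Pool.Agent.Lib.MP_89bcae_ag.Wt.Lns

open Pool.Agent.Lib.MP_89bcae_ag.Zq (TrJ IsTrivialJ)

section

variable {k F L Ω : Type} [Field k] [Field F] [Algebra k F] [Field L] [Algebra F[X] L]
  [Field Ω] [Algebra L Ω] [IsAlgClosure k F] [IsFractionRing F[X] L] [IsAlgClosure L Ω]
  {ℓ : ℕ} {P : k[X][X]} [hG : IsGood ℓ (cOver k F L Ω P)]

/-- The polynomial `A` (modulo `curveL k F L P`) is attached to the cochain `c` with values in the kernel of `1 - Z`: there are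
`z θ ≠ 0` with `(z θ) ^ ℓ = A(θ)` for all roots `θ`, such that, if `σ (z θ) = ζ ^ (n (σ θ)) z (σ θ)`, then `c σ = rm n`. -/
def IsKumE (ζ : k) (c : (Ω ≃ₐ[L] Ω) → JacOver ℓ (curveL k F L P) Ω) (A : L[X]) : Prop :=
  ∃ z : Ω → Ω, (∀ θ, (cOver k F L Ω P).eval θ = 0 → z θ ≠ 0 ∧ z θ ^ ℓ = aeval θ A) ∧
    ∀ σ : Ω ≃ₐ[L] Ω, ∃ n : Ω → ℤ,
      (∀ θ, (cOver k F L Ω P).eval θ = 0 → σ (z θ) = (zA F L Ω ζ) ^ n (σ θ) * z (σ θ)) ∧
      c σ = (rm n : Jac ℓ (cOver k F L Ω P)) ∧ (ℓ : ℤ) ∣ ∑ θ ∈ (cOver k F L Ω P).roots.toFinset, n θ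

/-- A Tate cocycle with the local property whose class, in the cohomology of the Jacobian, is fixed by a subgroup of
finite index of `Aut(Ω/k(t))`. -/
def IsWE (LT : Zs.Co1 ℓ k F L Ω P → Prop) (c : Coch ℓ k F L Ω P) : Prop :=
  Wt.IsTateCocycle ℓ (curveL k F L P) c ∧ (∀ n, LT (c n)) ∧
    ∃ U : Subgroup (AutO k F L Ω), U.FiniteIndex ∧ ∀ γ ∈ U, TrJ (act γ c - c)

/-- The group `U` of units of the algebra `L[x] / (p)` contains the elements attached to the Tate cocycles with the local property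
`LT`. -/
def Contains (ζ : k) (LT : Zs.Co1 ℓ k F L Ω P → Prop) (p : L[X]) (U : Subgroup (AdjoinRoot p)ˣ) : Prop :=
  ∀ (hz : (zA F L Ω ζ) ^ ℓ = 1) (c : Coch ℓ k F L Ω P), Wt.IsTateCocycle ℓ (curveL k F L P) c → (∀ n, LT (c n)) →
    ∀ (A : L[X]) (u : (AdjoinRoot p)ˣ), (u : AdjoinRoot p) = AdjoinRoot.mk p A →
      IsKumE ζ (fun σ => vJ (zA F L Ω ζ) hz (c 1 σ)) A → u ∈ U

end

end Pool.Agent.Lib.MP_89bcae_ag.Ze
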