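import Mathlib
import Pool.Agent.Lib.MP_89bcae_ag.Ze.Loc
import Pool.Agent.Lib.MP_89bcae_ag.Ze.Good
import Pool.Agent.Lib.MP_89bcae_ag.Zm.Main

/-!
# The elements attached to the unramified cocycles are unramified in all the charts, for reducible curves
-/

attribute [local instance 100000] Pool.Agent.Lib.MP_89bcae_ag.Brt.tffFields
attribute [local instance 100000] Pool.Agent.Lib.MP_89bcae_ag.Wt.ifrNF Pool.Agent.Lib.MP_89bcae_ag.Wt.iddNF

open Polynomial IsDedekindDomain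

open scoped Classical

namespace Pool.Agent.Lib.MP_89bcae_ag.Ze

open Pool.Agent.Lib.MP_89bcae_ag.Wt Pool.Agent.Lib.MP_89bcae_ag.Wt.Lns Pool.Agent.Lib.MP_89bcae_ag.Bra
  Pool.Agent.Lib.MP_89bcae_ag.Brt Pool.Agent.Lib.MP_89bcae_ag.Zc

open Pool.Agent.Lib.MP_89bcae_ag.Zp (IsSmoothAt UB ltprop_ub)

open Pool.Agent.Lib.MP_89bcae_ag.Zm (Aff l4_model lte_model locF_chart exists_place_all valuation_eq
  lt_one_of_valuation)

open Pool.Agent.Lib.MP_89bcae_ag.Zs (KumD)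

section

variable {k F L Ω : Type} [Field k] [Field F] [Algebra k F] [IsAlgClosure k F] [Field L] [Algebra F[X] L]
  [IsFractionRing F[X] L] [Field Ω] [Algebra L Ω] [IsAlgClosure L Ω] {ℓ : ℕ} {ζ : k}

/-- The elements attached to the unramified cocycles are unramified in all the charts. -/
theorem l5_chartsE (hℓ : ℓ.Prime) (hk : (ℓ : k) ≠ 0) {f : L[X]} (hfm : f.Monic) (hsep : f.Separable)
    [hG : IsGood ℓ (f.map (algebraMap L Ω))] {ζ : F}
    (hζ : IsPrimitiveRoot ζ ℓ) {z : Ω → Ω} {c : (Ω ≃ₐ[L] Ω) → JacOver ℓ f Ω}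
    (hz : KumD (algebraMap F[X] L (C ζ)) z c) (hc : UB F ℓ f c)
    (hz1 : (algebraMap L Ω (algebraMap F[X] L (C ζ))) ^ ℓ = 1)
    (hcz : ∀ g, zJ (algebraMap L Ω (algebraMap F[X] L (C ζ))) hz1 (c g) = c g)
    {A : L[X]} (hu : ∀ θ : Ω, (f.map (algebraMap L Ω)).eval θ = 0 → z θ ^ ℓ = aeval θ A)
    {τ a b ρ : L} {ψ : F[X] →+* L} {φ : F[X][X]}
    (hτ : (∃ s : F, τ = algebraMap F[X] L (X - C s)) ∨ τ = (algebraMap F[X] L X)⁻¹)
    (hψ : ∀ a, ψ (C a) = algebraMap F[X] L (C a)) (hψX : ψ X = τ) (hS : Aff ℓ f (φ.map ψ) a b ρ)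
    (hφ : φ.map (evalRingHom 0) ≠ 0) :
    ∃ c₀ : ℤ, ((φ.map (evalRingHom 0)).natDegree = f.natDegree → c₀ = 0) ∧
      ∀ (M : Type) [Field M] (π : AdjoinRoot f →+* M), Function.Surjective π →
        ∀ (O : ValuationSubring M) (r : F),
          (∀ a : F, π (algebraMap L (AdjoinRoot f) (algebraMap F[X] L (C a))) ∈ O) →
          O.valuation (π (algebraMap L (AdjoinRoot f) τ)) < 1 →
          O.valuation (π (AdjoinRoot.root f - algebraMap L (AdjoinRoot f) ρ) / π (algebraMap L (AdjoinRoot f) a) -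
            π (algebraMap L (AdjoinRoot f) (algebraMap F[X] L (C r)))) < 1 → IsSmoothAt φ 0 r →
          ∃ w : Mˣ, O.valuation (π (AdjoinRoot.mk f A)) =
            O.valuation (π (algebraMap L (AdjoinRoot f) τ) ^ c₀ * (w : M) ^ ℓ) := by
  have hFa : IsAlgClosed F := IsAlgClosure.isAlgClosed k
  have hF0 : (ℓ : F) ≠ 0 := by
    rw [← map_natCast (algebraMap k F)]
    exact (_root_.map_ne_zero _).mpr hk
  have hzL : IsPrimitiveRoot (algebraMap F[X] L (C ζ)) ℓ :=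
    hζ.map_of_injective (f := (algebraMap F[X] L).comp C) (RingHom.injective _)
  obtain ⟨K, M, _, _, _, _, i, j, v, hij, hv, hτ1, hO⟩ := exists_place_all (F := F) (L := L) (Ω := Ω) hτ
  obtain ⟨b', D, hb, hbu, hD, hcD⟩ := hc
  obtain ⟨c₀, hc₀, hval⟩ := l4_model (F := F) (K := K) (M := M) hℓ hF0 hfm hsep hzL hz ψ hψ hS hφ i j hij
    (v := v) (fun h1 h2 => locF_chart hv hτ hτ1 hψ hψX h1 h2) (by
      intro _ _ _ h1 h2 h3
      have h4 := lte_model (F := F) hℓ hF0 hζ ψ hψ hS hsep hφ i j hij h1 h3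
        b' D hb hbu hD hz1 (fun g => by rw [← hcD g]; exact hcz g)
      have h5 : c = fun g => (cl (D g) : Jac ℓ (f.map (algebraMap L Ω))) := funext hcD
      rw [h5]
      exact h4)
  refine ⟨c₀, hc₀, fun E _ π hπ O r hOF h1 h2 h3 => ?_⟩
  -- the field `E`
  let _ : Algebra L E := (π.comp (algebraMap L (AdjoinRoot f))).toAlgebra
  have hfin₀ : Module.Finite L (AdjoinRoot f) := hfm.finite_adjoinRoot
  let π' : AdjoinRoot f →ₐ[L] E := { toRingHom := π, commutes' := fun _ => rfl }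
  have hfin : FiniteDimensional L E := Module.Finite.of_surjective π'.toLinearMap hπ
  have hτL : algebraMap L E τ = π (algebraMap L (AdjoinRoot f) τ) := rfl
  obtain ⟨g, hg⟩ := hO E O hOF h1
  have hg' : ∀ y : E, y ∈ O ↔ v ((j.comp (g : E →+* Ω)) y) ≤ 1 := hg
  obtain ⟨x, hx⟩ : ∃ x : E, x = π (AdjoinRoot.root f) := ⟨_, rfl⟩
  -- the polynomials in `x`
  have hpol : ∀ B : L[X], g (π (AdjoinRoot.mk f B)) = aeval (g x) B := by
    intro B
    have h4 : AdjoinRoot.mk f B = aeval (AdjoinRoot.root f) B := (AdjoinRoot.aeval_eq B).symm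
    have h5 : π (aeval (AdjoinRoot.root f) B) = aeval x B := by
      rw [hx]
      exact (aeval_algHom_apply π' (AdjoinRoot.root f) B).symm
    rw [h4, h5, aeval_algHom_apply]
  -- the root
  have hθ : (f.map (algebraMap L Ω)).eval (g x) = 0 := by
    rw [eval_map_algebraMap, ← hpol, AdjoinRoot.mk_self, map_zero, map_zero]
  have ha0 : algebraMap K M (i a) ≠ 0 := (_root_.map_ne_zero _).2 ((_root_.map_ne_zero i).2 hS.a_ne)
  have hjL : ∀ y : L, j (g (π (algebraMap L (AdjoinRoot f) y))) = algebraMap K M (i y) := by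
    intro y
    have h4 := g.commutes y
    rw [← hij, ← h4]
    rfl
  have hzg : z (g x) ^ ℓ = g (π (AdjoinRoot.mk f A)) := by
    rw [hu _ hθ, hpol]
  obtain ⟨w, hw, hw0, hwv⟩ := hval (g x) hθ (by
    rw [hzg, hpol]
    exact IntermediateField.algebra_adjoin_le_adjoin L _ (aeval_mem_adjoin_singleton L (g x))) r (by
    rw [← hjL, ← hjL, ← hjL, hx, ← map_sub, ← map_sub, ← map_sub, ← map_div₀, ← map_div₀, ← map_sub, ← map_sub]
    exact lt_one_of_valuation hg' h2) h3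
  -- `w` comes from `E`
  obtain ⟨w', rfl⟩ : ∃ w', g w' = w := by
    have h4 : (IntermediateField.adjoin L {x}).map g = IntermediateField.adjoin L {g x} := by
      rw [IntermediateField.adjoin_map, Set.image_singleton]
    rw [← h4] at hw
    obtain ⟨w', -, h5⟩ := hw
    exact ⟨w', h5⟩
  have hw'0 : w' ≠ 0 := by
    rintro rfl
    exact hw0 (map_zero g)
  refine ⟨Units.mk0 w' hw'0, valuation_eq hg' ?_⟩
  show v (j (g (π (AdjoinRoot.mk f A)))) = v (j (g (π (algebraMap L (AdjoinRoot f) τ) ^ c₀ * w' ^ ℓ)))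
  rw [← hzg, map_pow, map_pow, hwv, C_0, sub_zero, hψX, map_mul, map_mul, map_mul, map_zpow₀, map_zpow₀,
    map_zpow₀, hjL, map_pow, map_pow, map_pow]

/-- The elements attached to the unramified cocycles are unramified in all the charts. -/
theorem charts (hℓ : ℓ.Prime) (hk : (ℓ : k) ≠ 0) (hζ : IsPrimitiveRoot ζ ℓ) {f : k[X][X]} (hB : IsBranch ℓ F L f)
    [hG : IsGood ℓ (cOver k F L Ω f)] (hz : (zA F L Ω ζ) ^ ℓ = 1) {c : Coch ℓ k F L Ω f}
    (hc : Wt.IsTateCocycle ℓ (curveL k F L f) c) (hLT : ∀ n, UB F ℓ (curveL k F L f) (c n)) {A : L[X]}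
    (hu : IsKumE ζ (fun σ => vJ (zA F L Ω ζ) hz (c 1 σ)) A) {φ : F[X][X]} {τ ρ w : L}
    (hch : IsChart ℓ F (curveL k F L f) φ τ ρ w) :
    ∃ c₀ : ℤ, ((φ.map (evalRingHom 0)).natDegree = (curveL k F L f).natDegree → c₀ = 0) ∧
      ∀ (M : Type) [Field M] (π : AdjoinRoot (curveL k F L f) →+* M), Function.Surjective π →
        ∀ (O : ValuationSubring M) (r : F), IsCentre F (curveL k F L f) π O φ τ ρ w r →
          ∃ v : Mˣ, O.valuation (π (AdjoinRoot.mk (curveL k F L f) A)) =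
            O.valuation (π (algebraMap L (AdjoinRoot (curveL k F L f)) τ) ^ c₀ * (v : M) ^ ℓ) := by
  have H : LHyp ℓ k F L f ζ := lhyp_of hℓ hk hζ hB
  have hz' : IsPrimitiveRoot (zA F L Ω ζ) ℓ := zA_prim H
  have hmon : (curveL k F L f).Monic := hB.monic.map _
  have hsep : (curveL k F L f).Separable := (good_of (Ω := Ω) (L := L) hℓ hk hB).1
  have hzF : IsPrimitiveRoot (algebraMap k F ζ) ℓ := hζ.map_of_injective (algebraMap k F).injective
  have hzeq : zA F L Ω ζ = algebraMap L Ω (algebraMap F[X] L (C (algebraMap k F ζ))) := by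
    show algebraMap L Ω (algebraMap F[X] L ((C ζ).map (algebraMap k F))) = _
    rw [map_C]
  have hzL : zA F L L ζ = algebraMap F[X] L (C (algebraMap k F ζ)) := by
    show algebraMap L L (algebraMap F[X] L ((C ζ).map (algebraMap k F))) = _
    rw [map_C]
    rfl
  obtain ⟨z, hz1, hz3⟩ := hu
  obtain ⟨hτ, hφ, hw0, b, hb0, hp⟩ := hch
  have hS : Aff ℓ (curveL k F L f) (φ.map (eval₂RingHom ((algebraMap F[X] L).comp C) τ)) w b ρ := by
    refine ⟨hw0, hb0, ?_⟩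
    rw [← hp, add_comm]
  obtain ⟨c₀, hc₀, h4⟩ := l5_chartsE (k := k) (L := L) (Ω := Ω) (ζ := algebraMap k F ζ) (z := z)
    (c := fun σ => vJ (zA F L Ω ζ) hz (c 1 σ)) hℓ hk hmon hsep hzF (by
      rw [← hzL]
      exact ⟨fun θ hθ => (hz1 θ hθ).1, hz3⟩) (ltprop_ub.vJ hz (hLT 1)) (by rw [← hzeq]; exact hz) (by
      intro σ
      have h4 := vJ_sub_zJ (zA F L Ω ζ) hz' (c 1 σ)
      rw [hc.smul 0 σ, hc.zero, sub_eq_zero] at h4
      exact (G04_zJ_congr hzeq.symm _ hz _).trans h4.symm) (A := A) (fun θ hθ => (hz1 θ hθ).2) hτ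
    (fun a => eval₂_C _ _) (eval₂_X _ _) hS hφ
  exact ⟨c₀, hc₀, fun M _ π hπ O r h5 => h4 M π hπ O r h5.1 h5.2.1 h5.2.2.1 h5.2.2.2⟩

end

end Pool.Agent.Lib.MP_89bcae_ag.Ze
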