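import Mathlib
import Pool.Agent.Lib.MP_89bcae_ag.Ze.Loc
import Pool.Agent.Lib.MP_89bcae_ag.Zp.ET

/-!
# The norm of the elements attached to the cocycles is an `ℓ`-th power, for reducible curves
-/

attribute [local instance 100000] Pool.Agent.Lib.MP_89bcae_ag.Brt.tffFields
attribute [local instance 100000] Pool.Agent.Lib.MP_89bcae_ag.Wt.ifrNF Pool.Agent.Lib.MP_89bcae_ag.Wt.iddNF

open Polynomial IsDedekindDomain

open scoped Classical

namespace Pool.Agent.Lib.MP_89bcae_ag.Ze

open Pool.Agent.Lib.MP_89bcae_ag.Wt Pool.Agent.Lib.MP_89bcae_ag.Wt.Lns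

/-- The determinant of a polynomial in a matrix. -/
theorem det_aeval {K : Type*} [Field K] [IsAlgClosed K] {n : Type*} [Fintype n] [DecidableEq n]
    (N : Matrix n n K) (A : K[X]) :
    (aeval N A).det = (N.charpoly.roots.map fun θ => A.eval θ).prod := by
  have hcard : N.charpoly.roots.card = Fintype.card n := by
    rw [← Matrix.charpoly_natDegree_eq_dim N]
    exact splits_iff_card_roots.1 (IsAlgClosed.splits _)
  have h1 : ∀ α : K, (N - algebraMap K _ α).det = (N.charpoly.roots.map fun θ => θ - α).prod := by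
    intro α
    have h2 : (algebraMap K (Matrix n n K) α - N).det = N.charpoly.eval α := by
      rw [Matrix.eval_charpoly]
      rfl
    have h3 : N.charpoly.eval α = (N.charpoly.roots.map fun θ => α - θ).prod := by
      conv_lhs => rw [(IsAlgClosed.splits N.charpoly).eq_prod_roots_of_monic N.charpoly_monic]
      rw [eval_multiset_prod, Multiset.map_map]
      congr 1
      refine Multiset.map_congr rfl fun θ _ => ?_
      simp
    rw [← neg_sub, Matrix.det_neg, h2, h3, ← hcard]
    rw [← Multiset.card_map (fun θ => α - θ), ← Multiset.prod_map_neg, Multiset.map_map]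
    congr 1
    refine Multiset.map_congr rfl fun θ _ => ?_
    simp
  have h4 : ∀ (a : K) (s : Multiset K), (aeval N (C a * (s.map fun α => X - C α).prod)).det =
      (N.charpoly.roots.map fun θ => (C a * (s.map fun α => X - C α).prod).eval θ).prod := by
    intro a s
    induction s using Multiset.induction with
    | empty =>
      simp only [Multiset.map_zero, Multiset.prod_zero, mul_one, aeval_C, eval_C, Multiset.map_const', Multiset.prod_replicate,
        Matrix.algebraMap_eq_diagonal, hcard]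
      simp
    | cons b s ih =>
      have h5 : C a * ((b ::ₘ s).map fun α => X - C α).prod = (X - C b) * (C a * (s.map fun α => X - C α).prod) := by
        rw [Multiset.map_cons, Multiset.prod_cons]
        ring
      rw [h5, map_mul, Matrix.det_mul, ih]
      simp only [eval_mul (p := X - C b)]
      rw [Multiset.prod_map_mul]
      congr 1
      rw [map_sub, aeval_X, aeval_C, h1]
      simp
  have h6 := (IsAlgClosed.splits A).eq_prod_roots
  rw [h6]
  exact h4 _ _

/-- The norm of a polynomial in the root. -/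
theorem norm_mk {L K : Type*} [Field L] [Field K] [Algebra L K] [IsAlgClosed K] {f : L[X]} (hf : f.Monic)
    (A : L[X]) : algebraMap L K (Algebra.norm L (AdjoinRoot.mk f A)) =
      ((f.map (algebraMap L K)).roots.map fun θ => aeval θ A).prod := by
  classical
  obtain ⟨pb, hpb⟩ : ∃ pb : PowerBasis L (AdjoinRoot f), pb.gen = AdjoinRoot.root f :=
    ⟨AdjoinRoot.powerBasis' hf, rfl⟩
  obtain ⟨N, hN⟩ : ∃ N, N = Algebra.leftMulMatrix pb.basis pb.gen := ⟨_, rfl⟩
  have h1 : Algebra.norm L (AdjoinRoot.mk f A) = (aeval N A).det := by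
    rw [Algebra.norm_eq_matrix_det pb.basis, hN, aeval_algHom_apply, hpb, AdjoinRoot.aeval_eq]
  have h2 : N.charpoly = f := by
    rw [hN, charpoly_leftMulMatrix, hpb, AdjoinRoot.minpoly_root hf.ne_zero, hf.leadingCoeff, inv_one, C_1, mul_one]
  have h3 : (algebraMap L K).mapMatrix (aeval N A) =
      aeval ((algebraMap L K).mapMatrix N) (A.map (algebraMap L K)) := by
    rw [aeval_def, aeval_def, hom_eval₂, eval₂_map]
    congr 1
    ext c i j
    by_cases h : i = j
    · simp [Matrix.algebraMap_matrix_apply, h]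
    · simp [Matrix.algebraMap_matrix_apply, h]
  have h4 : ((algebraMap L K).mapMatrix N).charpoly = f.map (algebraMap L K) := by
    rw [← congrArg (Polynomial.map (algebraMap L K)) h2]
    exact Matrix.charpoly_map N (algebraMap L K)
  rw [h1, RingHom.map_det, h3, det_aeval, h4]
  congr 1
  refine Multiset.map_congr rfl fun θ _ => ?_
  rw [eval_map_algebraMap]

section

variable {k F L Ω : Type} [Field k] [Field F] [Algebra k F] [Field L] [Algebra F[X] L]
  [Field Ω] [Algebra L Ω] [IsAlgClosure k F] [IsFractionRing F[X] L] [IsAlgClosure L Ω]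
  {ℓ : ℕ} {P : k[X][X]} [hG : IsGood ℓ (cOver k F L Ω P)] {ζ : k}

/-- The norm is an `ℓ`-th power. -/
theorem IsKumE.norm (H : LHyp ℓ k F L P ζ) (hsep : (curveL k F L P).Separable) (hmon : (curveL k F L P).Monic)
    {c : (Ω ≃ₐ[L] Ω) → JacOver ℓ (curveL k F L P) Ω} {A : L[X]} (h : IsKumE ζ c A) :
    ∃ v : L, Algebra.norm L (AdjoinRoot.mk (curveL k F L P) A) = v ^ ℓ := by
  have hΩ : IsAlgClosed Ω := IsAlgClosure.isAlgClosed L
  obtain ⟨z, hz1, hz2⟩ := h
  have hz' : IsPrimitiveRoot (zA F L Ω ζ) ℓ := zA_prim H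
  have hζ0 : zA F L Ω ζ ≠ 0 := hz'.ne_zero H.prime.ne_zero
  have hζdvd : ∀ m : ℤ, (ℓ : ℤ) ∣ m → (zA F L Ω ζ) ^ m = 1 := by
    rintro _ ⟨m, rfl⟩
    rw [zpow_mul, zpow_natCast, hz'.pow_eq_one, one_zpow]
  have hℓL : (ℓ : L) ≠ 0 := by
    intro h
    apply H.ne
    have h5 : ((algebraMap F[X] L).comp ((C : F →+* F[X]).comp (algebraMap k F))) (ℓ : k) = 0 := by
      rw [map_natCast]
      exact h
    exact (_root_.map_eq_zero _).1 h5
  have hP0 : cOver k F L Ω P ≠ 0 := (hmon.map _).ne_zero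
  have hmem : ∀ θ, θ ∈ (cOver k F L Ω P).roots.toFinset ↔ (cOver k F L Ω P).eval θ = 0 := by
    intro θ
    rw [Multiset.mem_toFinset, mem_roots hP0, IsRoot.def]
  have hgal : ∀ (g : Ω ≃ₐ[L] Ω) (θ : Ω), (cOver k F L Ω P).eval (g θ) = 0 ↔ (cOver k F L Ω P).eval θ = 0 := by
    intro g θ
    have h4 : (cOver k F L Ω P).eval (g θ) = g ((cOver k F L Ω P).eval θ) := by
      show ((curveL k F L P).map (algebraMap L Ω)).eval (g θ) = g (((curveL k F L P).map (algebraMap L Ω)).eval θ)
      rw [eval_map, eval_map, ← aeval_def, ← aeval_def, aeval_algHom_apply]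
    rw [h4, map_eq_zero_iff g g.injective]
  -- the product
  obtain ⟨y, hy⟩ : ∃ y : Ω, y = ∏ θ ∈ (cOver k F L Ω P).roots.toFinset, z θ := ⟨_, rfl⟩
  have hfix : ∀ g : Ω ≃ₐ[L] Ω, g y = y := by
    intro g
    obtain ⟨n, hn, -, hsum⟩ := hz2 g
    rw [hy, map_prod]
    have h4 : ∏ θ ∈ (cOver k F L Ω P).roots.toFinset, g (z θ) =
        ∏ θ ∈ (cOver k F L Ω P).roots.toFinset, ((zA F L Ω ζ) ^ n (g θ) * z (g θ)) :=
      Finset.prod_congr rfl fun θ hθ => hn θ ((hmem θ).1 hθ)
    have h5 : ∏ θ ∈ (cOver k F L Ω P).roots.toFinset, ((zA F L Ω ζ) ^ n (g θ) * z (g θ)) =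
        ∏ θ ∈ (cOver k F L Ω P).roots.toFinset, ((zA F L Ω ζ) ^ n θ * z θ) :=
      Finset.prod_equiv (g : Ω ≃ₐ[L] Ω).toEquiv (fun θ => by
        rw [hmem, hmem]
        exact (hgal g θ).symm) (fun _ _ => rfl)
    have h6 : ∀ S : Finset Ω, ∏ θ ∈ S, (zA F L Ω ζ) ^ n θ = (zA F L Ω ζ) ^ (∑ θ ∈ S, n θ) := by
      intro S
      induction S using Finset.induction_on with
      | empty => rw [Finset.prod_empty, Finset.sum_empty, zpow_zero]
      | insert a S ha ih => rw [Finset.prod_insert ha, Finset.sum_insert ha, ih, zpow_add₀ hζ0]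
    rw [h4, h5, Finset.prod_mul_distrib, h6, hζdvd _ hsum, one_mul]
  -- the norm
  have hnod : (cOver k F L Ω P).roots.Nodup := nodup_roots (hsep.map (f := algebraMap L Ω))
  have hnorm : algebraMap L Ω (Algebra.norm L (AdjoinRoot.mk (curveL k F L P) A)) = y ^ ℓ := by
    rw [norm_mk hmon, hy, ← Finset.prod_pow]
    have h4 : (((curveL k F L P).map (algebraMap L Ω)).roots.map fun θ => aeval θ A).prod =
        ∏ θ ∈ (cOver k F L Ω P).roots.toFinset, aeval θ A := by
      rw [Finset.prod, Multiset.toFinset_val, hnod.dedup]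
    rw [h4]
    exact Finset.prod_congr rfl fun θ hθ => ((hz1 θ ((hmem θ).1 hθ)).2).symm
  have hy0 : y ≠ 0 := by
    rw [hy]
    exact Finset.prod_ne_zero_iff.2 fun θ hθ => (hz1 θ ((hmem θ).1 hθ)).1
  have hn0 : Algebra.norm L (AdjoinRoot.mk (curveL k F L P) A) ≠ 0 := by
    intro h4
    rw [h4, map_zero] at hnorm
    exact pow_ne_zero ℓ hy0 hnorm.symm
  have hy' : y ∈ (algebraMap L Ω).range := by
    refine Zs.mem_range_of_fixed hfix (p := X ^ ℓ - C (Algebra.norm L (AdjoinRoot.mk (curveL k F L P) A))) ?_ ?_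
    · exact separable_X_pow_sub_C _ hℓL hn0
    · rw [Polynomial.map_sub, Polynomial.map_pow, map_X, map_C, eval_sub, eval_pow, eval_X, eval_C, hnorm,
        sub_self]
  obtain ⟨w₀, hw₀⟩ := hy'
  refine ⟨w₀, ?_⟩
  apply (algebraMap L Ω).injective
  rw [hnorm, map_pow, hw₀]

end

end Pool.Agent.Lib.MP_89bcae_ag.Ze
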