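import Mathlib
import Pool.Agent.Lib.MP_89bcae_ag.Ze.Chart
import Pool.Agent.Lib.MP_89bcae_ag.Ze.Norm

/-!
# The elements attached to the unramified cocycles are in the group `unramified`, for reducible curves
-/

attribute [local instance 100000] Pool.Agent.Lib.MP_89bcae_ag.Brt.tffFields
attribute [local instance 100000] Pool.Agent.Lib.MP_89bcae_ag.Wt.ifrNF Pool.Agent.Lib.MP_89bcae_ag.Wt.iddNF

open Polynomial IsDedekindDomain

open scoped Classical

namespace Pool.Agent.Lib.MP_89bcae_ag.Ze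

open Pool.Agent.Lib.MP_89bcae_ag.Wt Pool.Agent.Lib.MP_89bcae_ag.Wt.Lns

open Pool.Agent.Lib.MP_89bcae_ag.Zp (UB)

section

variable {k F L Ω : Type} [Field k] [Field F] [Algebra k F] [IsAlgClosure k F] [Field L] [Algebra F[X] L]
  [IsFractionRing F[X] L] [Field Ω] [Algebra L Ω] [IsAlgClosure L Ω] {ℓ : ℕ} {f : k[X][X]} {ζ : k}

/-- The elements attached to the unramified cocycles are in the group `unramified`. -/
theorem contains_unramified (hℓ : ℓ.Prime) (hk : (ℓ : k) ≠ 0) (hζ : IsPrimitiveRoot ζ ℓ) (hB : IsBranch ℓ F L f)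
    [hG : IsGood ℓ (cOver k F L Ω f)] :
    Contains (P := f) (Ω := Ω) ζ (UB F ℓ (curveL k F L f)) (curveL k F L f) (unramified ℓ F (curveL k F L f)) := by
  intro hz c hc hLT A u huA hu
  refine ⟨?_, fun φ τ ρ w hch => ?_⟩
  · have hmon : (curveL k F L f).Monic := hB.monic.map _
    have hsep : (curveL k F L f).Separable := (good_of (Ω := Ω) (L := L) hℓ hk hB).1
    have h1 := IsKumE.norm (lhyp_of hℓ hk hζ hB) hsep hmon hu
    rw [huA]
    exact h1
  · rw [huA]
    exact charts hℓ hk hζ hB hz hc hLT hu hch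

end

end Pool.Agent.Lib.MP_89bcae_ag.Ze
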