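import Pool.Agent.Lib.MP_89bcae_ag.Ze.DefsS
import Pool.Agent.Lib.MP_89bcae_ag.Ze.Rig
import Pool.Agent.Lib.MP_89bcae_ag.Z.Crit

/-!
# Large images satisfy the criterion
-/

open scoped Classical

namespace Pool.Agent.Lib.MP_89bcae_ag.Ze

open Pool.Agent.Lib.MP_89bcae_ag.Zs (range_congr stab actU)

section Abs

/-- The powers of a transvection. -/
theorem transv_pow {K V : Type*} [Field K] [AddCommGroup V] [Module K V] (B : LinearMap.BilinForm K V)
    (halt : ∀ v, B v v = 0) (v x : V) (n : ℕ) :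
    (fun y => ZSymp.transv B halt v y)^[n] x = x + n • (B x v • v) := by
  induction n with
  | zero => rw [Function.iterate_zero, id, zero_smul, add_zero]
  | succ n ih =>
    have h1 : B (x + n • (B x v • v)) v = B x v := by
      rw [map_add, LinearMap.add_apply, map_nsmul, LinearMap.smul_apply, map_smul, LinearMap.smul_apply, halt,
        smul_zero, smul_zero, add_zero]
    rw [Function.iterate_succ_apply', ih, ZSymp.transv_apply, h1, succ_nsmul, add_assoc]

/-- Two transvections of order `l` which do not commute. -/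
theorem exists_transv {l : ℕ} {V : Type*} [AddCommGroup V] [Module (ZMod l) V] [hl : Fact l.Prime]
    (B : LinearMap.BilinForm (ZMod l) V) (halt : ∀ v, B v v = 0) (hnd : ∀ v, (∀ w, B v w = 0) → v = 0)
    (hV : ∃ v : V, v ≠ 0) :
    ∃ f f' : V ≃+ V, (∀ x y, B (f x) (f y) = B x y) ∧ (∀ x y, B (f' x) (f' y) = B x y) ∧
      (∀ x, (fun y => f y)^[l] x = x) ∧ (∀ x, (fun y => f' y)^[l] x = x) ∧ ∃ x, f (f' x) ≠ f' (f x) := by
  obtain ⟨v, hv⟩ := hV
  obtain ⟨w, hw⟩ : ∃ w, B v w ≠ 0 := by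
    by_contra h
    push Not at h
    exact hv (hnd v h)
  have hl0 : ∀ x : V, l • x = 0 := by
    intro x
    rw [← Nat.cast_smul_eq_nsmul (ZMod l), ZMod.natCast_self, zero_smul]
  refine ⟨ZSymp.transv B halt v, ZSymp.transv B halt w, ZSymp.transv_isom B halt v, ZSymp.transv_isom B halt w,
    fun x => ?_, fun x => ?_, v, fun h => ?_⟩
  · rw [transv_pow, hl0, add_zero]
  · rw [transv_pow, hl0, add_zero]
  · rw [ZSymp.transv_apply B halt v v, halt, zero_smul, add_zero, ZSymp.transv_apply, ZSymp.transv_apply,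
      map_add, LinearMap.add_apply, halt, zero_add, map_smul, LinearMap.smul_apply, ZSymp.skew B halt w v,
      smul_eq_mul] at h
    have h1 : (B v w * -B v w) • v = 0 := add_eq_left.1 h
    rcases smul_eq_zero.1 h1 with h2 | h2
    · rcases mul_eq_zero.1 h2 with h3 | h3
      · exact hw h3
      · exact hw (neg_eq_zero.1 h3)
    · exact hv h2

theorem exists_transv' {l : ℕ} {V : Type*} [AddCommGroup V] [hl : Fact l.Prime] (hV : ∀ v : V, l • v = 0)
    (e : V →+ V →+ ZMod l) (halt : ∀ v, e v v = 0) (hnd : ∀ v, (∀ w, e v w = 0) → v = 0)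
    (hV0 : ∃ v : V, v ≠ 0) :
    ∃ f f' : V ≃+ V, (∀ x y, e (f x) (f y) = e x y) ∧ (∀ x y, e (f' x) (f' y) = e x y) ∧
      (∀ x, (fun y => f y)^[l] x = x) ∧ (∀ x, (fun y => f' y)^[l] x = x) ∧ ∃ x, f (f' x) ≠ f' (f x) := by
  let m : Module (ZMod l) V := AddCommGroup.zmodModule hV
  exact @exists_transv l V _ m hl (@ZSymp.bil l hl V _ m e) halt hnd hV0

variable {Γ A : Type*} [Group Γ] [AddCommGroup A] [DistribMulAction Γ A]

/-- The group `Γ` acts on a stable subgroup `N` at least through the group through which the stabiliser of the subgroup `W` of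
`N` acts on `W`. -/
theorem card_dvd (W N : AddSubgroup A) (hWN : W ≤ N) (hN : ∀ g : Γ, ∀ v ∈ N, g • v ∈ N) :
    Nat.card (@MulAction.toPermHom (stab W : Subgroup Γ) W _
      (actU W (stab W : Subgroup Γ) (fun _ hγ u hu => (hγ u).2 hu)).toMulAction).range ∣
      Nat.card (Set.range fun (g : Γ) (v : N) => g • (v : A)) := by
  let act := actU W (stab W : Subgroup Γ) (fun γ hγ u hu => (hγ u).2 hu)
  let actN := actU N (⊤ : Subgroup Γ) (fun γ _ u hu => hN γ u hu)
  let φN : Γ →* Equiv.Perm N := (MulAction.toPermHom (⊤ : Subgroup Γ) N).comp Subgroup.topEquiv.symm.toMonoidHom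
  have hφN : ∀ (g : Γ) (v : N), (φN g v : A) = g • (v : A) := fun g v => rfl
  let φW : (stab W : Subgroup Γ) →* Equiv.Perm W := MulAction.toPermHom (stab W : Subgroup Γ) W
  have hφW : ∀ (g : (stab W : Subgroup Γ)) (v : W), (φW g v : A) = (g : Γ) • (v : A) := fun g v => rfl
  have h1 : Nat.card φW.range ∣ Nat.card (φN.comp (stab W : Subgroup Γ).subtype).range := by
    rw [← Subgroup.index_ker, ← Subgroup.index_ker]
    apply Subgroup.index_dvd_of_le
    intro g hg
    rw [MonoidHom.mem_ker] at hg ⊢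
    ext v
    have h2 := congrArg (fun s : Equiv.Perm N => ((s ⟨v, hWN v.2⟩ : N) : A)) hg
    exact h2
  have h2 : Nat.card (φN.comp (stab W : Subgroup Γ).subtype).range ∣ Nat.card φN.range := by
    apply Subgroup.card_dvd_of_le
    rintro _ ⟨g, rfl⟩
    exact ⟨g, rfl⟩
  have h3 : Nat.card φN.range = Nat.card (Set.range fun (g : Γ) (v : N) => g • (v : A)) := by
    refine Nat.card_congr (Equiv.ofBijective (fun f => ⟨fun v => ((f : Equiv.Perm N) v : A), ?_⟩) ⟨?_, ?_⟩)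
    · obtain ⟨g, hg⟩ := f.2
      refine ⟨g, ?_⟩
      funext v
      rw [← hg]
      rfl
    · intro f f' hff
      apply Subtype.ext
      ext v
      exact congrArg (fun t : Set.range (fun (g : Γ) (v : N) => g • (v : A)) => (t : N → A) v) hff
    · rintro ⟨_, g, rfl⟩
      exact ⟨⟨φN g, g, rfl⟩, rfl⟩
  rw [← h3]
  exact h1.trans h2

/-- A stable group `N` which meets `W` contains `W`, if there are enough elements of `Γ` which act on `W`. -/
theorem le_of_irreducible (W : AddSubgroup A) (good : (W ≃+ W) → Prop)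
    (hgood : ∀ (S : Subgroup Γ) (_ : DistribMulAction S W),
      (∀ f : W ≃+ W, good f → ∃ g : S, ∀ v, g • v = f v) → ∀ N : AddSubgroup W,
      (∀ g : S, ∀ v ∈ N, g • v ∈ N) → N ≠ ⊥ → N = ⊤)
    (hiso : ∀ f : W ≃+ W, good f → ∃ g : Γ, ∀ v : W, g • (v : A) = f v)
    (N : AddSubgroup A) (hne : N ⊓ W ≠ ⊥) (hN : ∀ g : Γ, ∀ v ∈ N, g • v ∈ N) : W ≤ N := by
  have hN1 : N.addSubgroupOf W ≠ ⊥ := by
    intro h
    apply hne
    rw [AddSubgroup.addSubgroupOf_eq_bot] at h
    rw [eq_bot_iff]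
    intro x hx
    exact h.le_bot hx
  let act := actU W (stab W : Subgroup Γ) (fun _ hγ u hu => (hγ u).2 hu)
  have h := hgood (stab W) act ?_ (N.addSubgroupOf W) ?_ hN1
  · rwa [AddSubgroup.addSubgroupOf_eq_top] at h
  · intro f hf
    obtain ⟨γ, hγ⟩ := hiso f hf
    refine ⟨⟨γ, fun u => ⟨fun hu => ?_, fun hu => ?_⟩⟩, fun v => Subtype.ext (hγ v)⟩
    · have h1 := hγ (f.symm ⟨γ • u, hu⟩)
      rw [AddEquiv.apply_symm_apply] at h1
      have h2 := smul_left_cancel γ h1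
      rw [← h2]
      exact (f.symm ⟨γ • u, hu⟩).2
    · have h1 := hγ ⟨u, hu⟩
      change γ • u = _ at h1
      rw [h1]
      exact (f ⟨u, hu⟩).2
  · intro g v hv
    rw [AddSubgroup.mem_addSubgroupOf] at hv ⊢
    exact hN g v hv

/-- The automorphisms of `W` which come from `Γ` come from the stabiliser of `W`. -/
theorem exists_stab (W : AddSubgroup A) (good : (W ≃+ W) → Prop)
    (hiso : ∀ f : W ≃+ W, good f → ∃ g : Γ, ∀ v : W, g • (v : A) = f v) (f : W ≃+ W) (hf : good f) :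
    ∃ g : (stab W : Subgroup Γ), ∀ v : W,
      (actU W (stab W : Subgroup Γ) (fun _ hγ u hu => (hγ u).2 hu)).smul g v = f v := by
  obtain ⟨γ, hγ⟩ := hiso f hf
  refine ⟨⟨γ, fun u => ⟨fun hu => ?_, fun hu => ?_⟩⟩, fun v => Subtype.ext (hγ v)⟩
  · have h1 := hγ (f.symm ⟨γ • u, hu⟩)
    rw [AddEquiv.apply_symm_apply] at h1
    have h2 := smul_left_cancel γ h1
    rw [← h2]
    exact (f.symm ⟨γ • u, hu⟩).2
  · have h1 := hγ ⟨u, hu⟩
    change γ • u = _ at h1
    rw [h1]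
    exact (f ⟨u, hu⟩).2

/-- The order is large, in the symplectic case. -/
theorem symp_dvd {l : ℕ} [hl : Fact l.Prime] (W : AddSubgroup A)
    (hW : ∀ u : W, l • u = 0) (e : W →+ W →+ ZMod l) (halt : ∀ v, e v v = 0)
    (hnd : ∀ v, (∀ w, e v w = 0) → v = 0)
    (hiso : ∀ f : W ≃+ W, (∀ v w, e (f v) (f w) = e v w) → ∃ g : Γ, ∀ v : W, g • (v : A) = f v)
    (g : ℕ) (hcard : Nat.card W = l ^ (2 * g))
    (N : AddSubgroup A) (hne : N ⊓ W ≠ ⊥) (hN : ∀ g : Γ, ∀ v ∈ N, g • v ∈ N) :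
    W ≤ N ∧ l ^ (g ^ 2) ∣ Nat.card (Set.range fun (g : Γ) (v : N) => g • (v : A)) := by
  have : Finite W := Nat.finite_of_card_ne_zero (by
    rw [hcard]
    exact pow_ne_zero _ hl.out.ne_zero)
  have h1 : W ≤ N := le_of_irreducible W (fun f => ∀ v w, e (f v) (f w) = e v w)
    (fun S _ hS M hM hMne => ZSymp.irreducible (G := S) e hW halt hnd hS M hM hMne) hiso N hne hN
  refine ⟨h1, Dvd.dvd.trans ?_ (card_dvd W N h1 hN)⟩
  exact @ZOrd.symp l hl (stab W : Subgroup Γ) W _ _ (actU W (stab W : Subgroup Γ) (fun _ hγ u hu => (hγ u).2 hu))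
    _ e hW halt hnd (exists_stab W _ hiso) g hcard.ge

/-- The order is large, in the orthogonal case. -/
theorem orth_dvd (W : AddSubgroup A)
    (hW : ∀ u : W, 2 • u = 0) (q : W → ZMod 2) (e : W →+ W →+ ZMod 2)
    (hq : ∀ v w, q (v + w) = q v + q w + e v w)
    (hnd : ∀ v, (∀ w, e v w = 0) → v = 0)
    (hiso : ∀ f : W ≃+ W, (∀ v, q (f v) = q v) → ∃ g : Γ, ∀ v : W, g • (v : A) = f v)
    (g : ℕ) (hg : 3 ≤ g) (hcard : Nat.card W = 2 ^ (2 * g))
    (N : AddSubgroup A) (hne : N ⊓ W ≠ ⊥) (hN : ∀ g : Γ, ∀ v ∈ N, g • v ∈ N) :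
    W ≤ N ∧ 2 ^ (g * (g - 1)) ∣ Nat.card (Set.range fun (g : Γ) (v : N) => g • (v : A)) := by
  have : Finite W := Nat.finite_of_card_ne_zero (by
    rw [hcard]
    exact pow_ne_zero _ two_ne_zero)
  have h1 : W ≤ N := le_of_irreducible W (fun f => ∀ v, q (f v) = q v)
    (fun S _ hS M hM hMne => ZOrd.orth_irreducible (G := S) q e hW hq hnd hS (by
      rw [hcard]
      exact Nat.pow_le_pow_right (by norm_num) (by omega)) M hM hMne) hiso N hne hN
  refine ⟨h1, Dvd.dvd.trans ?_ (card_dvd W N h1 hN)⟩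
  exact @ZOrd.orth (stab W : Subgroup Γ) W _ _ (actU W (stab W : Subgroup Γ) (fun _ hγ u hu => (hγ u).2 hu))
    _ q e hW hq hnd (exists_stab W _ hiso) g hcard.ge

/-- An element of `Γ`, the `l`-th power of which acts trivially on `W`, can be replaced by an element which acts on `N` as an
automorphism the order of which is a power of `l`. -/
theorem exists_pow {l : ℕ} [hl : Fact l.Prime] (W N : AddSubgroup A) [Finite N] (hN : ∀ g : Γ, ∀ v ∈ N, g • v ∈ N)
    (g₀ : Γ) (h0 : ∀ w ∈ W, g₀ ^ l • w = w) :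
    ∃ (g : Γ) (n : ℕ), (∀ v ∈ N, g ^ l ^ n • v = v) ∧ ∀ w ∈ W, g • w = g₀ • w := by
  let actN := actU N (⊤ : Subgroup Γ) (fun _ _ u hu => hN _ u hu)
  let φN : Γ →* Equiv.Perm N := (MulAction.toPermHom (⊤ : Subgroup Γ) N).comp Subgroup.topEquiv.symm.toMonoidHom
  have hφN : ∀ (g : Γ) (v : N), (φN g v : A) = g • (v : A) := fun g v => rfl
  have ho : orderOf (φN g₀) ≠ 0 := (orderOf_pos _).ne'
  obtain ⟨n, b, hb, hob⟩ := Nat.exists_eq_pow_mul_and_not_dvd ho l hl.out.ne_one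
  have hcop : Nat.Coprime l b := (Nat.Prime.coprime_iff_not_dvd hl.out).2 hb
  obtain ⟨a, ha1, ha2⟩ := Nat.chineseRemainder hcop 1 0
  refine ⟨g₀ ^ a, n, fun v hv => ?_, fun w hw => ?_⟩
  · have h1 : φN (g₀ ^ (a * l ^ n)) = 1 := by
      rw [map_pow, ← orderOf_dvd_iff_pow_eq_one, hob, mul_comm]
      exact Nat.mul_dvd_mul_right ((Nat.modEq_zero_iff_dvd).1 ha2) _
    rw [← pow_mul]
    have h2 := hφN (g₀ ^ (a * l ^ n)) ⟨v, hv⟩
    rw [h1] at h2
    exact h2.symm
  · have h1 : ∀ i, g₀ ^ (l * i) • w = w := by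
      intro i
      induction i with
      | zero => rw [mul_zero, pow_zero, one_smul]
      | succ i ih => rw [Nat.mul_succ, pow_add, mul_smul, h0 w hw, ih]
    obtain ⟨i, hi⟩ : ∃ i, a = l * i + 1 := by
      refine ⟨a / l, ?_⟩
      have h2 : a % l = 1 := by
        have h3 : a % l = 1 % l := ha1
        rw [h3, Nat.mod_eq_of_lt hl.out.one_lt]
      have h4 := Nat.div_add_mod a l
      omega
    rw [hi, pow_succ']
    rw [mul_smul, h1]

/-- The image is not commutative, in the symplectic case. -/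
theorem symp_twisted {l : ℕ} [hl : Fact l.Prime] (W : AddSubgroup A)
    (hW : ∀ u : W, l • u = 0) (e : W →+ W →+ ZMod l) (halt : ∀ v, e v v = 0)
    (hnd : ∀ v, (∀ w, e v w = 0) → v = 0)
    (hiso : ∀ f : W ≃+ W, (∀ v w, e (f v) (f w) = e v w) → ∃ g : Γ, ∀ v : W, g • (v : A) = f v)
    (N : AddSubgroup A) [Finite N] (hne : N ⊓ W ≠ ⊥) (hN : ∀ g : Γ, ∀ v ∈ N, g • v ∈ N) :
    ∃ (g g' : Γ) (n : ℕ), (∀ v ∈ N, g ^ l ^ n • v = v) ∧ (∀ v ∈ N, g' ^ l ^ n • v = v) ∧
      ∃ v ∈ N, (g * g') • v ≠ (g' * g) • v := by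
  have h1 : W ≤ N := le_of_irreducible W (fun f => ∀ v w, e (f v) (f w) = e v w)
    (fun S _ hS M hM hMne => ZSymp.irreducible (G := S) e hW halt hnd hS M hM hMne) hiso N hne hN
  have hV0 : ∃ v : W, v ≠ 0 := by
    by_contra h
    push Not at h
    apply hne
    rw [eq_bot_iff]
    intro y hy
    have h1 := h ⟨y, hy.2⟩
    rw [AddSubgroup.mem_bot]
    exact congrArg Subtype.val h1
  obtain ⟨f, f', hf, hf', hfl, hfl', y, hy⟩ := exists_transv' hW e halt hnd hV0
  obtain ⟨g, hg⟩ := hiso f hf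
  obtain ⟨g', hg'⟩ := hiso f' hf'
  have hgp : ∀ (f : W ≃+ W) (g : Γ), (∀ u : W, g • (u : A) = f u) → (∀ x, (fun y => f y)^[l] x = x) →
      ∀ a ∈ W, g ^ l • a = a := by
    intro f g hg hfl a ha
    have h1 : ∀ (n : ℕ) (u : W), g ^ n • (u : A) = ((fun z => f z)^[n] u : W) := by
      intro n
      induction n with
      | zero =>
        intro u
        rw [pow_zero, one_smul, Function.iterate_zero, id]
      | succ n ih =>
        intro u
        rw [pow_succ, mul_smul, hg, ih, Function.iterate_succ_apply]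
    have h2 := h1 l ⟨a, ha⟩
    rw [hfl] at h2
    exact h2
  obtain ⟨γ, n, hγ, hγW⟩ := exists_pow W N hN g (hgp f g hg hfl)
  obtain ⟨γ', n', hγ', hγW'⟩ := exists_pow W N hN g' (hgp f' g' hg' hfl')
  have hle : ∀ (γ : Γ) (n i : ℕ), (∀ v ∈ N, γ ^ l ^ n • v = v) → n ≤ i → ∀ v ∈ N, γ ^ l ^ i • v = v := by
    intro γ n i h hni v hv
    obtain ⟨j, rfl⟩ := Nat.exists_eq_add_of_le hni
    have h2 : ∀ s : ℕ, γ ^ (l ^ n * s) • v = v := by
      intro s
      induction s with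
      | zero => rw [mul_zero, pow_zero, one_smul]
      | succ s ih => rw [Nat.mul_succ, pow_add, mul_smul, h v hv, ih]
    rw [pow_add]
    exact h2 _
  refine ⟨γ, γ', max n n', hle γ n _ hγ (le_max_left _ _), hle γ' n' _ hγ' (le_max_right _ _), y, h1 y.2,
    fun h => hy ?_⟩
  have hmem : ∀ (f : W ≃+ W) (g : Γ), (∀ u : W, g • (u : A) = f u) → ∀ a ∈ W, g • a ∈ W := by
    intro f g hg a ha
    have h2 := hg ⟨a, ha⟩
    rw [show g • a = _ from h2]
    exact (f ⟨a, ha⟩).2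
  have e1 : (γ * γ') • (y : A) = f (f' y) := by
    rw [mul_smul, hγW' _ y.2, hγW _ (hmem f' g' hg' _ y.2), hg', hg]
  have e2 : (γ' * γ) • (y : A) = f' (f y) := by
    rw [mul_smul, hγW _ y.2, hγW' _ (hmem f g hg _ y.2), hg, hg']
  rw [e1, e2] at h
  exact Subtype.ext h

end Abs

section

variable {ℓ : ℕ} {R : Type} [CommRing R] {G : Subgroup (R ≃+* R)} {V W U : Subgroup Rˣ}

/-- The group `U / V`, written additively. -/
def quo (V U : Subgroup Rˣ) : AddSubgroup (Additive (Rˣ ⧸ V)) :=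
  Subgroup.toAddSubgroup (U.map (QuotientGroup.mk' V))

theorem exists_rep (c : quo V U) :
    ∃ u ∈ U, Additive.ofMul (QuotientGroup.mk u : Rˣ ⧸ V) = (c : Additive (Rˣ ⧸ V)) := by
  obtain ⟨u, hu, h⟩ := c.2
  exact ⟨u, hu, h⟩

/-- A representative. -/
noncomputable def rep (c : quo V U) : Rˣ := Classical.choose (exists_rep c)

theorem rep_mem (c : quo V U) : rep c ∈ U := (Classical.choose_spec (exists_rep c)).1

theorem rep_mk (c : quo V U) : Additive.ofMul (QuotientGroup.mk (rep c) : Rˣ ⧸ V) = (c : Additive (Rˣ ⧸ V)) :=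
  (Classical.choose_spec (exists_rep c)).2

/-- The class of an element of `U`. -/
def cls {u : Rˣ} (hu : u ∈ U) : quo V U := ⟨Additive.ofMul (QuotientGroup.mk u : Rˣ ⧸ V), ⟨u, hu, rfl⟩⟩

theorem cls_eq {u v : Rˣ} (hu : u ∈ U) (hv : v ∈ U) : (cls hu : quo V U) = cls hv ↔ u / v ∈ V := by
  rw [← QuotientGroup.eq_iff_div_mem]
  constructor
  · intro h
    exact Additive.ofMul.injective (congrArg Subtype.val h)
  · intro h
    exact Subtype.ext (congrArg Additive.ofMul h)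

theorem cls_rep (c : quo V U) : cls (rep_mem c) = c := Subtype.ext (rep_mk c)

theorem cls_mul {u v : Rˣ} (hu : u ∈ U) (hv : v ∈ U) : (cls (mul_mem hu hv) : quo V U) = cls hu + cls hv := rfl

theorem rep_cls {u : Rˣ} (hu : u ∈ U) : rep (cls hu : quo V U) / u ∈ V :=
  (cls_eq (rep_mem _) hu).1 (cls_rep _)

theorem rep_add (c d : quo V U) : rep (c + d) / (rep c * rep d) ∈ V := by
  rw [← cls_eq (rep_mem _) (mul_mem (rep_mem c) (rep_mem d)), cls_mul (rep_mem c) (rep_mem d), cls_rep,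
    cls_rep, cls_rep]

theorem cls_eq_zero {u : Rˣ} (hu : u ∈ U) : (cls hu : quo V U) = 0 ↔ u ∈ V := by
  have h : (0 : quo V U) = cls U.one_mem := rfl
  rw [h, cls_eq, div_one]

theorem card_quo : Nat.card (quo V U) = V.relIndex U := by
  have h1 := Subgroup.relIndex_ker U (QuotientGroup.mk' V)
  rw [QuotientGroup.ker_mk'] at h1
  rw [h1]
  exact Nat.card_congr (Equiv.subtypeEquiv Additive.toMul (fun _ => Iff.rfl))

theorem quo_smul (hV : powers ℓ R ≤ V) (u : quo V U) : ℓ • u = 0 := by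
  have h1 : ℓ • (u : Additive (Rˣ ⧸ V)) = 0 := by
    rw [← rep_mk u]
    apply Additive.toMul.injective
    change (QuotientGroup.mk (rep u) : Rˣ ⧸ V) ^ ℓ = 1
    rw [← QuotientGroup.mk_pow, QuotientGroup.eq_one_iff]
    exact hV ⟨rep u, rfl⟩
  exact Subtype.ext h1

/-! ### Pairings -/

section pairing

variable {e : Rˣ → Rˣ → ZMod ℓ} (he : IsPairing ℓ V U e) (hVU : V ≤ U)

include he hVU

theorem pairing_left {u u' v : Rˣ} (_ : u ∈ U) (hu' : u' ∈ U) (hv : v ∈ U) (h : u / u' ∈ V) :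
    e u v = e u' v := by
  have h2 := he.mul_left _ (hVU h) u' hu' v hv
  rw [div_mul_cancel, (he.left _ (hVU h)).2 h v hv, zero_add] at h2
  exact h2

theorem pairing_right {u v v' : Rˣ} (hu : u ∈ U) (_ : v ∈ U) (hv' : v' ∈ U) (h : v / v' ∈ V) :
    e u v = e u v' := by
  have h2 := he.mul_right u hu _ (hVU h) v' hv'
  rw [div_mul_cancel, (he.right _ (hVU h)).2 h u hu, zero_add] at h2
  exact h2

theorem pairing_congr {u u' v v' : Rˣ} (hu : u ∈ U) (hu' : u' ∈ U) (hv : v ∈ U) (hv' : v' ∈ U) (h : u / u' ∈ V)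
    (h' : v / v' ∈ V) : e u v = e u' v' :=
  (pairing_left he hVU hu hu' hv h).trans (pairing_right he hVU hu' hv hv' h')

/-- The pairing on `U / V`. -/
noncomputable def pairing : quo V U →+ quo V U →+ ZMod ℓ :=
  AddMonoidHom.mk' (fun c => AddMonoidHom.mk' (fun d => e (rep c) (rep d)) (fun d d' => by
      rw [← he.mul_right _ (rep_mem c) _ (rep_mem d) _ (rep_mem d')]
      exact pairing_right he hVU (rep_mem c) (rep_mem _) (mul_mem (rep_mem d) (rep_mem d')) (rep_add d d')))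
    (fun c c' => by
      ext d
      show e (rep (c + c')) (rep d) = e (rep c) (rep d) + e (rep c') (rep d)
      rw [← he.mul_left _ (rep_mem c) _ (rep_mem c') _ (rep_mem d)]
      exact pairing_left he hVU (rep_mem _) (mul_mem (rep_mem c) (rep_mem c')) (rep_mem d) (rep_add c c'))

theorem pairing_apply (c d : quo V U) : pairing he hVU c d = e (rep c) (rep d) := rfl

theorem pairing_nd (c : quo V U) (h : ∀ d, pairing he hVU c d = 0) : c = 0 := by
  have h1 : ∀ v ∈ U, e (rep c) v = 0 := by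
    intro v hv
    have h2 := h (cls hv)
    rw [pairing_apply] at h2
    rw [← h2]
    refine pairing_right he hVU (rep_mem c) hv (rep_mem _) ?_
    rw [← inv_div]
    exact V.inv_mem (rep_cls hv)
  rw [← cls_rep c, cls_eq_zero]
  exact (he.left _ (rep_mem c)).1 h1

end pairing

/-! ### Automorphisms -/

/-- The function on `Rˣ` attached to an automorphism of `U / V`. -/
noncomputable def fn (f : quo V U ≃+ quo V U) (u : Rˣ) : Rˣ := if hu : u ∈ U then rep (f (cls hu)) else 1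

theorem fn_apply (f : quo V U ≃+ quo V U) {u : Rˣ} (hu : u ∈ U) : fn f u = rep (f (cls hu)) := dif_pos hu

theorem cls_fn (f : quo V U ≃+ quo V U) {u : Rˣ} (hu : u ∈ U) (h : fn f u ∈ U) :
    (cls h : quo V U) = f (cls hu) := by
  have h1 : ∀ w (hw : w ∈ U), w = rep (f (cls hu)) → (cls hw : quo V U) = f (cls hu) := by
    rintro w hw rfl
    exact cls_rep _
  exact h1 _ h (fn_apply f hu)

theorem fn_mem (f : quo V U ≃+ quo V U) {u : Rˣ} (hu : u ∈ U) : fn f u ∈ U := by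
  rw [fn_apply f hu]
  exact rep_mem _

theorem fn_isEndomorphism (f : quo V U ≃+ quo V U) : IsEndomorphism V U (fn f) := by
  refine ⟨fun u hu => fn_mem f hu, fun u hu v hv => ?_, fun u hu => ?_⟩
  · rw [← cls_eq (fn_mem f (mul_mem hu hv)) (mul_mem (fn_mem f hu) (fn_mem f hv)),
      cls_mul (fn_mem f hu) (fn_mem f hv), cls_fn f (mul_mem hu hv), cls_fn f hu, cls_fn f hv, cls_mul hu hv,
      map_add]
  · rw [← cls_eq_zero (fn_mem f hu), cls_fn f hu, map_eq_zero_iff f f.injective, cls_eq_zero]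

/-- The group `G` acts on `Rˣ / V`. -/
@[reducible] noncomputable def actV {R : Type} [CommRing R] (G : Subgroup (R ≃+* R)) {V : Subgroup Rˣ}
    (hG : ∀ γ ∈ G, ∀ u ∈ V, Units.map (γ : R →* R) u ∈ V) :
    DistribMulAction (G) (Additive (Rˣ ⧸ V)) :=
  actQ G.subtype fun g => hG g g.2

variable (hG : ∀ γ ∈ G, ∀ u ∈ V, Units.map (γ : R →* R) u ∈ V)

theorem actV_mk (γ : G) (u : Rˣ) :
    (actV G hG).smul γ (Additive.ofMul (QuotientGroup.mk u : Rˣ ⧸ V)) =
      Additive.ofMul (QuotientGroup.mk (Units.map ((γ : R ≃+* R) : R →* R) u)) := rfl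

theorem induced (f : quo V U ≃+ quo V U) (hf : IsInducedBy G V U (fn f)) :
    ∃ γ : G, ∀ v : quo V U,
      (actV G hG).smul γ (v : Additive (Rˣ ⧸ V)) = f v := by
  obtain ⟨γ, hγ, h⟩ := hf
  refine ⟨⟨γ, hγ⟩, fun v => ?_⟩
  have h1 := h (rep v) (rep_mem v)
  rw [fn_apply f (rep_mem v), cls_rep, ← QuotientGroup.eq_iff_div_mem] at h1
  rw [← rep_mk v, actV_mk, ← rep_mk (f v)]
  exact congrArg Additive.ofMul h1

variable (hG : ∀ γ ∈ G, ∀ u ∈ V, Units.map (γ : R →* R) u ∈ V)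

/-- The order of the image of `G`. -/
theorem range_eq (N : Subgroup Rˣ) :
    Nat.card (Set.range fun (γ : G) (u : N) =>
      ((Units.map ((γ : R ≃+* R) : R →* R) u : Rˣ) : Rˣ ⧸ V)) =
      Nat.card (Set.range fun (γ : G) (v : quo V N) =>
        (actV G hG).smul γ (v : Additive (Rˣ ⧸ V))) := by
  symm
  refine range_congr _ _ Additive.toMul
      (fun u => ⟨Additive.ofMul (QuotientGroup.mk (u : Rˣ) : Rˣ ⧸ V), ⟨u, u.2, rfl⟩⟩) ?_ ?_
  · intro w
    obtain ⟨u, hu, hw⟩ := w.2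
    exact ⟨⟨u, hu⟩, Subtype.ext hw⟩
  · intro γ u
    rfl

theorem quo_mono {N N' : Subgroup Rˣ} (h : N ≤ N') : quo V N ≤ quo V N' := by
  rintro w ⟨u, hu, rfl⟩
  exact ⟨u, h hu, rfl⟩

theorem quo_inf_ne_bot {N : Subgroup Rˣ} (h : V < N ⊓ W) : quo V N ⊓ quo V W ≠ ⊥ := by
  intro hbot
  obtain ⟨u, hu, huP⟩ := Set.exists_of_ssubset h
  have h1 : (Additive.ofMul (QuotientGroup.mk u : Rˣ ⧸ V)) ∈ quo V N ⊓ quo V W := ⟨⟨u, hu.1, rfl⟩, ⟨u, hu.2, rfl⟩⟩
  rw [hbot, AddSubgroup.mem_bot] at h1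
  exact huP ((QuotientGroup.eq_one_iff u).1 h1)

include hG

theorem HasLargeImage.crit [hl : Fact ℓ.Prime] (hPV : powers ℓ R ≤ V) {N : Subgroup Rˣ} (hlt : V < W)
    (hWN : W ≤ N) (hN : ∀ γ ∈ G, ∀ u ∈ N, Units.map (γ : R →* R) u ∈ N) {r : ℕ} (hr : V.relIndex N = ℓ ^ r)
    (h : HasLargeImage ℓ G V W r) : IsLarge ℓ G V N r ∨ IsTwisted ℓ G V N r := by
  obtain ⟨g, hW, h⟩ := h
  have hVW : V ≤ W := hlt.le
  have hne := quo_inf_ne_bot (V := V) (N := N) (W := W) (by rwa [inf_eq_right.2 hWN])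
  have hst : ∀ γ : G, ∀ v ∈ quo V N, (actV G hG).smul γ v ∈ quo V N := by
    rintro γ w ⟨u, hu, rfl⟩
    exact ⟨_, hN γ γ.2 u hu, rfl⟩
  have hfin : Finite (quo V N) := Nat.finite_of_card_ne_zero (by
    rw [card_quo, hr]
    exact pow_ne_zero _ hl.out.ne_zero)
  have hdvd : ∀ c : ℕ, r + padicValNat ℓ r.factorial < c →
      ℓ ^ c ∣ Nat.card (Set.range fun (γ : G) (v : quo V N) =>
        (actV G hG).smul γ (v : Additive (Rˣ ⧸ V))) → IsLarge ℓ G V N r := by
    intro c hc hd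
    unfold IsLarge
    rw [range_eq hG]
    refine hc.trans_le ((padicValNat_dvd_iff_le ?_).1 hd)
    have hf2 : Finite (Set.range fun (γ : G) (v : quo V N) =>
        (actV G hG).smul γ (v : Additive (Rˣ ⧸ V))) := by
      have : Finite (quo V N → quo V N) := inferInstance
      refine Set.Finite.subset (Set.finite_range fun (s : quo V N → quo V N) (v : quo V N) =>
        (s v : Additive (Rˣ ⧸ V))) ?_
      rintro _ ⟨γ, rfl⟩
      exact ⟨fun v => ⟨_, hst γ v v.2⟩, rfl⟩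
    have : Nonempty (Set.range fun (γ : G) (v : quo V N) =>
        (actV G hG).smul γ (v : Additive (Rˣ ⧸ V))) := ⟨⟨_, 1, rfl⟩⟩
    exact Nat.card_pos.ne'
  rcases h with ⟨⟨e, he, halt, hiso⟩, hnum⟩ | ⟨⟨rfl, q, hq, he, hiso⟩, hnum⟩
  · have hiso' : ∀ f : quo V W ≃+ quo V W, (∀ v w, pairing he hVW (f v) (f w) = pairing he hVW v w) →
        ∃ γ : G, ∀ v : quo V W, (actV G hG).smul γ (v : Additive (Rˣ ⧸ V)) = f v :=
      fun f hf => induced hG f (hiso _ (fn_isEndomorphism f) fun u hu v hv => by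
        have h6 := hf (cls hu) (cls hv)
        rw [pairing_apply, pairing_apply] at h6
        rw [fn_apply f hu, fn_apply f hv, h6]
        exact pairing_congr he hVW (rep_mem _) hu (rep_mem _) hv (rep_cls hu) (rep_cls hv))
    rcases hnum with hnum | hnum
    · left
      have h1 := @symp_dvd (G) (Additive (Rˣ ⧸ V)) _ _ (actV G hG) ℓ hl
        (quo V W) (quo_smul hPV) (pairing he hVW) (fun c => halt _ (rep_mem c)) (pairing_nd he hVW) hiso'
        g (by rw [card_quo, hW]) (quo V N) hne hst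
      exact hdvd _ hnum h1.2
    · right
      have h1 := @symp_twisted (G) (Additive (Rˣ ⧸ V)) _ _ (actV G hG) ℓ hl
        (quo V W) (quo_smul hPV) (pairing he hVW) (fun c => halt _ (rep_mem c)) (pairing_nd he hVW) hiso'
        (quo V N) hfin hne hst
      obtain ⟨γ, γ', n, h3, h4, w, hw, h5⟩ := h1
      have hdiv : ∀ u u' : Rˣ, (Additive.ofMul (QuotientGroup.mk u : Rˣ ⧸ V)) =
          Additive.ofMul (QuotientGroup.mk u' : Rˣ ⧸ V) ↔ u / u' ∈ V := by
        intro u u'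
        rw [← QuotientGroup.eq_iff_div_mem]
        exact Iff.rfl
      have hk : ∀ (γ : G), (∀ v ∈ quo V N, (actV G hG).smul (γ ^ ℓ ^ n) v = v) →
          ∀ u ∈ N, Units.map (((γ : R ≃+* R) ^ ℓ ^ n : R ≃+* R) : R →* R) u / u ∈ V := by
        intro γ hγ u hu
        have h7 := hγ (Additive.ofMul (QuotientGroup.mk u : Rˣ ⧸ V)) ⟨u, hu, rfl⟩
        rw [actV_mk, hdiv] at h7
        exact h7
      obtain ⟨u, hu, rfl⟩ := hw
      exact ⟨hnum, γ, γ.2, γ', γ'.2, n, hk γ h3, hk γ' h4, u, hu, fun h8 => h5 ((hdiv _ _).2 h8)⟩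
  · left
    -- `q` depends only on the class
    have hqc : ∀ {u u' : Rˣ}, u ∈ W → u' ∈ W → u / u' ∈ V → q u = q u' := by
      intro u u' hu hu' h
      have h3 := (he.left _ (hVW h)).2 h u' hu'
      simp only [div_mul_cancel, hq _ h, sub_zero] at h3
      exact sub_eq_zero.1 h3
    have hgm : 2 * g ≤ r := by
      have h1 := Subgroup.relIndex_mul_relIndex V W N hVW hWN
      rw [hW, hr] at h1
      exact (Nat.pow_dvd_pow_iff_le_right (Nat.lt_succ_self 1)).1 (Dvd.intro _ h1)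
    have hg3 : 3 ≤ g := by
      by_contra hcon
      have : g = 0 ∨ g = 1 ∨ g = 2 := by omega
      rcases this with rfl | rfl | rfl <;> omega
    have h1 := @orth_dvd (G) (Additive (Rˣ ⧸ V)) _ _ (actV G hG)
      (quo V W) (quo_smul hPV) (fun c => q (rep c)) (pairing he hVW) (fun c d => by
        rw [pairing_apply, hqc (rep_mem _) (mul_mem (rep_mem c) (rep_mem d)) (rep_add c d)]
        ring) (pairing_nd he hVW)
      (fun f hf => induced hG f (hiso _ (fn_isEndomorphism f) fun u hu => by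
        have h6 := hf (cls hu)
        rw [fn_apply f hu, h6]
        exact hqc (rep_mem _) hu (rep_cls hu)))
      g hg3 (by rw [card_quo, hW]) (quo V N) hne hst
    exact hdvd _ hnum h1.2

theorem IsAdmissible.isRigid [hl : Fact ℓ.Prime] (hPV : powers ℓ R ≤ V) (h : IsAdmissible ℓ G U V) :
    IsRigid ℓ G U V := by
  intro N hVN hNU hN r hr
  rcases h N hVN hNU hN r hr with h | h | ⟨W, h1, h2, h3⟩ | h
  · exact Or.inl h
  · exact Or.inr (Or.inl h)
  · rcases h3.crit hG hPV h1 h2 hN hr with h | h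
    · exact Or.inl h
    · exact Or.inr (Or.inl h)
  · exact Or.inr (Or.inr h)

end

end Pool.Agent.Lib.MP_89bcae_ag.Ze
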