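import Mathlib
import Pool.Agent.Lib.MP_89bcae_ag.Ze.Loc
import Pool.Agent.Lib.MP_89bcae_ag.Zp.Main

/-!
# The Galois group acts on the algebra `L[x] / (f)`
-/

attribute [local instance 100000] Pool.Agent.Lib.MP_89bcae_ag.Brt.tffFields
attribute [local instance 100000] Pool.Agent.Lib.MP_89bcae_ag.Wt.ifrNF Pool.Agent.Lib.MP_89bcae_ag.Wt.iddNF

open Polynomial IsDedekindDomain

open scoped Classical

namespace Pool.Agent.Lib.MP_89bcae_ag.Ze

open Pool.Agent.Lib.MP_89bcae_ag.Wt Pool.Agent.Lib.MP_89bcae_ag.Wt.Lns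

open Pool.Agent.Lib.MP_89bcae_ag.Zs (h1_coef)

/-! ### The automorphisms of `AdjoinRoot p` given by automorphisms of the field of the coefficients -/

section

variable {L : Type} [Field L] {p : L[X]}

/-- The homomorphism of `L[x] / (p)` given by an automorphism of the field `L` which fixes `p`. -/
noncomputable def coefHom (s : L →+* L) (hs : p.map s = p) : AdjoinRoot p →+* AdjoinRoot p :=
  AdjoinRoot.lift ((AdjoinRoot.of p).comp s) (AdjoinRoot.root p) (by
    rw [← eval₂_map, hs]
    exact AdjoinRoot.eval₂_root p)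

lemma coefHom_mk (s : L →+* L) (hs : p.map s = p) (A : L[X]) :
    coefHom s hs (AdjoinRoot.mk p A) = AdjoinRoot.mk p (A.map s) := by
  unfold coefHom
  rw [AdjoinRoot.lift_mk, ← eval₂_map]
  induction A.map s using Polynomial.induction_on' with
  | add A B hA hB => rw [eval₂_add, hA, hB, map_add]
  | monomial n a =>
    rw [eval₂_monomial, ← C_mul_X_pow_eq_monomial, map_mul, map_pow, AdjoinRoot.mk_C, AdjoinRoot.mk_X]

lemma coefHom_algebraMap (s : L →+* L) (hs : p.map s = p) (a : L) :
    coefHom s hs (algebraMap L (AdjoinRoot p) a) = algebraMap L (AdjoinRoot p) (s a) := by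
  have h1 : ∀ a : L, algebraMap L (AdjoinRoot p) a = AdjoinRoot.mk p (C a) := fun a => AdjoinRoot.mk_C a
  rw [h1, h1, coefHom_mk, map_C]

lemma coefHom_root (s : L →+* L) (hs : p.map s = p) :
    coefHom s hs (AdjoinRoot.root p) = AdjoinRoot.root p := by
  rw [← AdjoinRoot.mk_X, coefHom_mk, map_X]

lemma ringHom_ext_mk {R : Type} [CommRing R] {φ ψ : AdjoinRoot p →+* R}
    (h : ∀ A, φ (AdjoinRoot.mk p A) = ψ (AdjoinRoot.mk p A)) : φ = ψ := by
  refine RingHom.ext fun u => ?_
  obtain ⟨A, rfl⟩ := AdjoinRoot.mk_surjective u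
  exact h A

end

/-! ### The action -/

section

variable {k F L Ω : Type} [Field k] [Field F] [Algebra k F] [Field L] [Algebra F[X] L]
  [Field Ω] [Algebra L Ω] [IsFractionRing F[X] L]
  {ℓ : ℕ} {f : k[X][X]}

/-- The automorphism of `L` given by an automorphism of `F`. -/
noncomputable def coefR (L : Type) [Field L] [Algebra F[X] L] [IsFractionRing F[X] L] (σ : F ≃ₐ[k] F) : L →+* L :=
  ((Sup.coefL L (σ : F ≃+* F) : L ≃+* L) : L →+* L)

lemma coefR_algebraMap (σ : F ≃ₐ[k] F) (q : F[X]) :
    coefR L σ (algebraMap F[X] L q) = algebraMap F[X] L (q.map ((σ : F ≃+* F) : F →+* F)) :=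
  Sup.coefL_algebraMap _ (σ : F ≃+* F) q

lemma coefR_C (σ : F ≃ₐ[k] F) (c : F) : coefR L σ (algebraMap F[X] L (C c)) = algebraMap F[X] L (C (σ c)) := by
  rw [coefR_algebraMap, map_C]
  rfl

lemma coefR_X (σ : F ≃ₐ[k] F) : coefR L σ (algebraMap F[X] L X) = algebraMap F[X] L X := by
  rw [coefR_algebraMap, map_X]

lemma ringHom_ext_L {R : Type} [CommRing R] {φ ψ : L →+* R}
    (h : ∀ c : F, φ (algebraMap F[X] L (C c)) = ψ (algebraMap F[X] L (C c)))
    (h' : φ (algebraMap F[X] L X) = ψ (algebraMap F[X] L X)) : φ = ψ :=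
  IsLocalization.ringHom_ext (nonZeroDivisors F[X]) (Polynomial.ringHom_ext h h')

lemma coefR_one : coefR L (1 : F ≃ₐ[k] F) = RingHom.id L :=
  ringHom_ext_L (F := F) (fun c => coefR_C _ c) (coefR_X _)

lemma coefR_mul (σ τ : F ≃ₐ[k] F) : coefR L (σ * τ) = (coefR L σ).comp (coefR L τ) := by
  refine ringHom_ext_L (F := F) (fun c => ?_) ?_
  · rw [coefR_C, RingHom.comp_apply, coefR_C, coefR_C]
    rfl
  · rw [coefR_X, RingHom.comp_apply, coefR_X, coefR_X]

lemma poly_map (f : k[X][X]) (σ : F ≃ₐ[k] F) : (poly F L f).map (coefR L σ) = poly F L f := by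
  unfold poly Zs.ext
  rw [Polynomial.map_map, Polynomial.map_map, Polynomial.map_map]
  congr 1
  refine RingHom.ext fun p => ?_
  show coefR L σ (algebraMap F[X] L (p.map (algebraMap k F))) = algebraMap F[X] L (p.map (algebraMap k F))
  have h : ((σ : F ≃+* F) : F →+* F).comp (algebraMap k F) = algebraMap k F := RingHom.ext fun c => σ.commutes c
  rw [coefR_algebraMap, Polynomial.map_map, h]

/-- The polynomial `p` is fixed by the automorphisms of the coefficients. -/
def IsFixed (k F : Type) {L : Type} [Field k] [Field F] [Algebra k F] [Field L] [Algebra F[X] L] [IsFractionRing F[X] L]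
    (p : L[X]) : Prop := ∀ σ : F ≃ₐ[k] F, p.map (coefR L σ) = p

end

section

variable {k F L Ω : Type} [Field k] [Field F] [Algebra k F] [Field L] [Algebra F[X] L]
  [Field Ω] [Algebra L Ω] [IsFractionRing F[X] L] {ℓ : ℕ} {p : L[X]} (hp : IsFixed k F p)

lemma coefHom_comp (σ τ : F ≃ₐ[k] F) : (coefHom (coefR L σ) (hp σ)).comp (coefHom (coefR L τ) (hp τ)) =
    coefHom (coefR L (σ * τ)) (hp (σ * τ)) := by
  refine ringHom_ext_mk fun A => ?_
  rw [RingHom.comp_apply, coefHom_mk, coefHom_mk, coefHom_mk, Polynomial.map_map, coefR_mul]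

lemma coefHom_one : coefHom (coefR L (1 : F ≃ₐ[k] F)) (hp 1) = RingHom.id (AdjoinRoot p) := by
  refine ringHom_ext_mk fun A => ?_
  rw [coefHom_mk, coefR_one, Polynomial.map_id]
  rfl

/-- The automorphism of the algebra `L[x] / (p)` given by an automorphism of `F`. -/
noncomputable def coefAut : (F ≃ₐ[k] F) →* (AdjoinRoot p ≃+* AdjoinRoot p) where
  toFun σ := RingEquiv.ofRingHom (coefHom (coefR L σ) (hp σ)) (coefHom (coefR L σ⁻¹) (hp σ⁻¹)) (by
      rw [coefHom_comp]
      refine (congrArg (fun τ => coefHom (coefR L τ) (hp τ)) (mul_inv_cancel σ)).trans (coefHom_one hp)) (by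
      rw [coefHom_comp]
      refine (congrArg (fun τ => coefHom (coefR L τ) (hp τ)) (inv_mul_cancel σ)).trans (coefHom_one hp))
  map_one' := by
    refine RingEquiv.ext fun u => ?_
    exact RingHom.congr_fun (coefHom_one hp) u
  map_mul' σ τ := by
    refine RingEquiv.ext fun u => ?_
    exact (RingHom.congr_fun (coefHom_comp hp σ τ) u).symm

lemma coefAut_apply (σ : F ≃ₐ[k] F) (u : AdjoinRoot p) :
    coefAut hp σ u = coefHom (coefR L σ) (hp σ) u := rfl

lemma coefAut_mk (σ : F ≃ₐ[k] F) (A : L[X]) :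
    coefAut hp σ (AdjoinRoot.mk p A) = AdjoinRoot.mk p (A.map (coefR L σ)) := by
  rw [coefAut_apply, coefHom_mk]

lemma coefAut_algebraMap (σ : F ≃ₐ[k] F) (a : L) :
    coefAut hp σ (algebraMap L (AdjoinRoot p) a) = algebraMap L (AdjoinRoot p) (coefR L σ a) := by
  rw [coefAut_apply, coefHom_algebraMap]

lemma coefAut_const (σ : F ≃ₐ[k] F) (c : F) :
    coefAut hp σ (algebraMap L (AdjoinRoot p) (algebraMap F[X] L (C c))) =
      algebraMap L (AdjoinRoot p) (algebraMap F[X] L (C (σ c))) := by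
  rw [coefAut_algebraMap, coefR_C]

lemma coefAut_root (σ : F ≃ₐ[k] F) :
    coefAut hp σ (AdjoinRoot.root p) = AdjoinRoot.root p := by
  rw [coefAut_apply, coefHom_root]

/-- The automorphisms in `galois`. -/
lemma coefAut_mem {σ : F ≃ₐ[k] F} (hσ : ∀ c : F, c ^ ℓ = 1 → σ c = c) : coefAut hp σ ∈ galois ℓ k F p := by
  refine ⟨fun c => ?_, fun c hc => ?_, ?_, ?_, fun c => ⟨σ c, coefAut_const hp σ c⟩, fun c => ⟨σ.symm c, ?_⟩⟩
  · rw [coefAut_const, σ.commutes]
  · rw [coefAut_const, hσ c hc]
  · rw [coefAut_algebraMap, coefR_X]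
  · exact coefAut_root hp _
  · rw [coefAut_const, σ.apply_symm_apply]

/-- The automorphisms in `galois` come from automorphisms of `F`. -/
theorem exists_coefAut (hd : p.degree ≠ 0) {γ : AdjoinRoot p ≃+* AdjoinRoot p}
    (hγ : γ ∈ galois ℓ k F p) : ∃ σ : F ≃ₐ[k] F, (∀ c : F, c ^ ℓ = 1 → σ c = c) ∧ coefAut hp σ = γ := by
  obtain ⟨h1, h2, h3, h4, h5, h6⟩ := hγ
  have hnt : Nontrivial (AdjoinRoot p) := AdjoinRoot.nontrivial _ hd
  let i : F →+* AdjoinRoot p := (algebraMap L (AdjoinRoot p)).comp ((algebraMap F[X] L).comp C)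
  have hi : Function.Injective i := i.injective
  choose d hd' using h5
  choose e he using h6
  have hadd : ∀ a b, d (a + b) = d a + d b := by
    intro a b
    apply hi
    show algebraMap L _ (algebraMap F[X] L (C (d (a + b)))) = i (d a + d b)
    rw [← hd', map_add i]
    show _ = algebraMap L _ (algebraMap F[X] L (C (d a))) + algebraMap L _ (algebraMap F[X] L (C (d b)))
    rw [← hd', ← hd', ← map_add, ← map_add, ← map_add, ← map_add]
  have hmul : ∀ a b, d (a * b) = d a * d b := by
    intro a b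
    apply hi
    show algebraMap L _ (algebraMap F[X] L (C (d (a * b)))) = i (d a * d b)
    rw [← hd', map_mul i]
    show _ = algebraMap L _ (algebraMap F[X] L (C (d a))) * algebraMap L _ (algebraMap F[X] L (C (d b)))
    rw [← hd', ← hd', ← map_mul, ← map_mul, ← map_mul, ← map_mul]
  let σ : F ≃ₐ[k] F := AlgEquiv.ofRingEquiv (f := {
      toFun := d
      invFun := e
      left_inv := fun c => by
        apply hi
        show algebraMap L _ (algebraMap F[X] L (C (e (d c)))) = algebraMap L _ (algebraMap F[X] L (C c))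
        apply γ.injective
        rw [he, hd']
      right_inv := fun c => by
        apply hi
        show algebraMap L _ (algebraMap F[X] L (C (d (e c)))) = algebraMap L _ (algebraMap F[X] L (C c))
        rw [← hd', he]
      map_mul' := hmul
      map_add' := hadd }) (fun c => by
        apply hi
        show algebraMap L _ (algebraMap F[X] L (C (d (algebraMap k F c)))) =
          algebraMap L _ (algebraMap F[X] L (C (algebraMap k F c)))
        rw [← hd', h1])
  have hσ : ∀ c, σ c = d c := fun c => rfl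
  refine ⟨σ, fun c hc => ?_, ?_⟩
  · apply hi
    show algebraMap L _ (algebraMap F[X] L (C (d c))) = algebraMap L _ (algebraMap F[X] L (C c))
    rw [← hd', h2 c hc]
  · have key : ((coefAut hp σ : AdjoinRoot p ≃+* AdjoinRoot p) : AdjoinRoot p →+* AdjoinRoot p) = (γ : AdjoinRoot p →+* AdjoinRoot p) := by
      refine ringHom_ext_mk fun A => ?_
      have hL : ((coefAut hp σ : AdjoinRoot p ≃+* AdjoinRoot p) : AdjoinRoot p →+* AdjoinRoot p).comp (algebraMap L (AdjoinRoot p)) =
          (γ : AdjoinRoot p →+* AdjoinRoot p).comp (algebraMap L (AdjoinRoot p)) := by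
        refine IsLocalization.ringHom_ext (nonZeroDivisors F[X]) (Polynomial.ringHom_ext (fun c => ?_) ?_)
        · show coefAut hp σ (algebraMap L _ (algebraMap F[X] L (C c))) = γ (algebraMap L _ (algebraMap F[X] L (C c)))
          rw [coefAut_const, hd', hσ]
        · show coefAut hp σ (algebraMap L _ (algebraMap F[X] L X)) = γ (algebraMap L _ (algebraMap F[X] L X))
          rw [h3]
          rw [coefAut_algebraMap, coefR_X]
      induction A using Polynomial.induction_on' with
      | add A B hA hB => rw [map_add, map_add, map_add, hA, hB]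
      | monomial n a =>
        rw [← C_mul_X_pow_eq_monomial, map_mul, map_pow, AdjoinRoot.mk_C, AdjoinRoot.mk_X, map_mul, map_mul, map_pow,
          map_pow]
        congr 1
        · exact RingHom.congr_fun hL a
        · congr 1
          show coefAut hp σ (AdjoinRoot.root p) = γ (AdjoinRoot.root p)
          rw [h4]
          exact coefAut_root hp _
    exact RingEquiv.ext fun u => RingHom.congr_fun key u

/-- The group `points` is stable under the automorphisms of the coefficients. -/
theorem points_coefAut (σ : F ≃ₐ[k] F) {u : (AdjoinRoot p)ˣ} (hu : u ∈ points ℓ p) :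
    Units.map ((coefAut hp σ : AdjoinRoot p ≃+* AdjoinRoot p) : AdjoinRoot p →* AdjoinRoot p) u ∈ points ℓ p := by
  have h : points ℓ p ≤ (points ℓ p).comap
      (Units.map ((coefAut hp σ : AdjoinRoot p ≃+* AdjoinRoot p) : AdjoinRoot p →* AdjoinRoot p)) := by
    conv_lhs => rw [points]
    rw [Subgroup.closure_le]
    rintro u (⟨v, rfl⟩ | ⟨h, b, hm, hd, hu⟩)
    · refine Subgroup.subset_closure (Or.inl ⟨Units.map ((coefAut hp σ : AdjoinRoot p ≃+* AdjoinRoot p) : AdjoinRoot p →* AdjoinRoot p) v, ?_⟩)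
      rw [map_pow]
    · refine Subgroup.subset_closure (Or.inr ⟨h.map (coefR L σ), b.map (coefR L σ), hm.map _, ?_, ?_⟩)
      · have h4 := Polynomial.map_dvd (coefR L σ) hd
        rwa [Polynomial.map_sub, Polynomial.map_pow, hp σ] at h4
      · show coefAut hp σ (u : AdjoinRoot p) = _
        rw [hu, coefAut_mk]
  exact h hu

include hp in
theorem points_stable (hd : p.degree ≠ 0) {γ : AdjoinRoot p ≃+* AdjoinRoot p}
    (hγ : γ ∈ galois ℓ k F p) {u : (AdjoinRoot p)ˣ} (hu : u ∈ points ℓ p) :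
    Units.map ((γ : AdjoinRoot p ≃+* AdjoinRoot p) : AdjoinRoot p →* AdjoinRoot p) u ∈ points ℓ p := by
  obtain ⟨σ, -, rfl⟩ := exists_coefAut hp hd hγ
  exact points_coefAut hp σ hu

variable [IsAlgClosure k F] [IsAlgClosure L Ω] {ζ : k}

include hp in
/-- The group `Aut(Ω / k(t))` acts on the algebra `L[x] / (f)` through the coefficients. -/
theorem exists_resG (hℓ : ℓ.Prime) (hζ : IsPrimitiveRoot ζ ℓ) (hd : p.degree ≠ 0) :
    ∃ ρ : AutO k F L Ω →* (AdjoinRoot p ≃+* AdjoinRoot p),
      (∀ γ A, ρ γ (AdjoinRoot.mk p A) = AdjoinRoot.mk p (A.map (coefR L (resF γ)))) ∧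
      (∀ γ, ρ γ ∈ galois ℓ k F p) ∧ ∀ γ' ∈ galois ℓ k F p, ∃ γ, ρ γ = γ' := by
  refine ⟨(coefAut hp).comp resF, fun γ A => coefAut_mk hp _ A, fun γ => coefAut_mem hp fun c hc => ?_, fun γ' hγ' => ?_⟩
  · have h1 : IsPrimitiveRoot (algebraMap k F ζ) ℓ := hζ.map_of_injective (algebraMap k F).injective
    have : NeZero ℓ := ⟨hℓ.ne_zero⟩
    obtain ⟨i, -, rfl⟩ := h1.eq_pow_of_pow_eq_one hc
    rw [← map_pow, AlgEquiv.commutes]
  · obtain ⟨σ, -, rfl⟩ := exists_coefAut hp hd hγ'
    obtain ⟨γ, rfl⟩ := resF_surjective (L := L) (Ω := Ω) σ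
    exact ⟨γ, rfl⟩

end

section

variable {k F L : Type} [Field k] [Field F] [Algebra k F] [Field L] [Algebra F[X] L] {ℓ : ℕ} {p : L[X]}

/-- The Galois group does not change for the field generated by the roots of unity. -/
theorem galois_red (hd : p.degree ≠ 0) (k₁ : IntermediateField k F) {ζ : F} (hζ : ζ ^ ℓ = 1)
    (hk₁ : k₁ = IntermediateField.adjoin k {ζ}) : galois ℓ k₁ F p = galois ℓ k F p := by
  have hnt : Nontrivial (AdjoinRoot p) := AdjoinRoot.nontrivial _ hd
  let i : F →+* AdjoinRoot p := (algebraMap L (AdjoinRoot p)).comp ((algebraMap F[X] L).comp C)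
  have hi : Function.Injective i := i.injective
  ext γ
  constructor
  · rintro ⟨h1, h2, h3, h4, h5, h6⟩
    exact ⟨fun c => h1 (algebraMap k k₁ c), h2, h3, h4, h5, h6⟩
  · rintro ⟨h1, h2, h3, h4, h5, h6⟩
    refine ⟨fun c => ?_, h2, h3, h4, h5, h6⟩
    let M : IntermediateField k F := {
      carrier := {c : F | γ (i c) = i c}
      mul_mem' := fun {a b} ha hb => by
        show γ (i (a * b)) = i (a * b)
        rw [map_mul, map_mul, ha, hb]
      add_mem' := fun {a b} ha hb => by
        show γ (i (a + b)) = i (a + b)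
        rw [map_add, map_add, ha, hb]
      algebraMap_mem' := h1
      inv_mem' := fun a ha => by
        show γ (i a⁻¹) = i a⁻¹
        by_cases h0 : a = 0
        · rw [h0, inv_zero, map_zero, map_zero]
        · have h7 : i a⁻¹ * i a = 1 := by rw [← map_mul, inv_mul_cancel₀ h0, map_one]
          have h8 : γ (i a⁻¹) * i a = 1 := by
            have h9 : γ (i a) = i a := ha
            rw [← h9, ← map_mul, h7, map_one]
          calc γ (i a⁻¹) = γ (i a⁻¹) * (i a * i a⁻¹) := by rw [mul_comm (i a), h7, mul_one]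
            _ = i a⁻¹ := by rw [← mul_assoc, h8, one_mul] }
    have hM : k₁ ≤ M := by
      rw [hk₁, IntermediateField.adjoin_simple_le_iff]
      exact h2 ζ hζ
    exact hM c.2

end

end Pool.Agent.Lib.MP_89bcae_ag.Ze
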