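import Mathlib
import Pool.Agent.Lib.MP_89bcae_ag.Ze.Loc

/-!
# The polynomials attached to the cocycles, for reducible curves
-/

attribute [local instance 100000] Pool.Agent.Lib.MP_89bcae_ag.Brt.tffFields
attribute [local instance 100000] Pool.Agent.Lib.MP_89bcae_ag.Wt.ifrNF Pool.Agent.Lib.MP_89bcae_ag.Wt.iddNF

open Polynomial IsDedekindDomain

open scoped Classical

namespace Pool.Agent.Lib.MP_89bcae_ag.Ze

open Pool.Agent.Lib.MP_89bcae_ag.Wt Pool.Agent.Lib.MP_89bcae_ag.Wt.Lns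

open Pool.Agent.Lib.MP_89bcae_ag.Zs (kum_eval kum_eval_gal kum_sum kum_unique kum_exists kum_zA kum_zpow kum_pow
  h1_coef)

/-! ### Polynomials and functions on a finite set of elements of an algebraic closure -/

section

variable {L Ω : Type} [Field L] [Field Ω] [Algebra L Ω]

/-- A function on a finite stable set which commutes with the automorphisms is given by a polynomial over `L`, up to
a power prime to `ℓ`. -/
theorem kumE_interp_aux [IsAlgClosure L Ω] {ℓ : ℕ} (hℓ : ℓ.Prime) (hℓL : (ℓ : L) ≠ 0) (s : Finset Ω)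
    (hs : ∀ (σ : Ω ≃ₐ[L] Ω) (θ : Ω), σ θ ∈ s ↔ θ ∈ s) {u : Ω → Ω}
    (hu : ∀ (σ : Ω ≃ₐ[L] Ω), ∀ θ ∈ s, σ (u θ) = u (σ θ)) :
    ∃ (q : ℕ) (A : L[X]), q.Coprime ℓ ∧ ∀ θ ∈ s, u θ ^ q = aeval θ A := by
  obtain ⟨G, hGd⟩ : ∃ G : Polynomial Ω, G = Lagrange.interpolate s id u := ⟨_, rfl⟩
  have hG1 : ∀ θ ∈ s, G.eval θ = u θ := by
    intro θ hθ
    rw [hGd]
    exact Lagrange.eval_interpolate_at_node u (Set.injOn_id _) hθ
  have hfix : ∀ σ : Ω ≃ₐ[L] Ω, G.map (σ : Ω →+* Ω) = G := by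
    intro σ
    conv_rhs => rw [hGd]
    refine Lagrange.eq_interpolate_of_eval_eq u (Set.injOn_id _) ?_ ?_
    · rw [degree_map, hGd]
      exact Lagrange.degree_interpolate_lt _ (Set.injOn_id _)
    · intro θ hθ
      have h1 : σ.symm θ ∈ s := by
        rw [← hs σ, σ.apply_symm_apply]
        exact hθ
      have h2 : (G.map (σ : Ω →+* Ω)).eval (σ (σ.symm θ)) = σ (G.eval (σ.symm θ)) := by
        rw [eval_map]
        exact eval₂_at_apply (σ : Ω →+* Ω) (σ.symm θ)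
      rw [σ.apply_symm_apply, hG1 _ h1, hu σ _ h1, σ.apply_symm_apply] at h2
      exact h2
  choose n y hy using fun i : ℕ => kum_pow L Ω (G.coeff i) (fun σ => by
    have h1 := congrArg (fun p : Polynomial Ω => p.coeff i) (hfix σ)
    simp only [coeff_map] at h1
    exact h1)
  obtain ⟨N, hN⟩ : ∃ N, ∀ i, i ≤ G.natDegree → n i ≤ N :=
    ⟨(Finset.range (G.natDegree + 1)).sup n, fun i hi =>
      Finset.le_sup (f := n) (Finset.mem_range.2 (Nat.lt_succ_of_le hi))⟩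
  have hE : ExpChar L (ringExpChar L) := inferInstance
  have hE' : ExpChar Ω (ringExpChar L) := expChar_of_injective_algebraMap (algebraMap L Ω).injective _
  obtain ⟨φ, hφ⟩ : ∃ φ : Ω →+* Ω, ∀ x, φ x = x ^ ringExpChar L ^ N :=
    ⟨iterateFrobenius Ω (ringExpChar L) N, fun x => iterateFrobenius_def _ _ _⟩
  obtain ⟨B, hB⟩ : ∃ B : L[X], B.map (algebraMap L Ω) = G.map φ := by
    have h1 : G.map φ ∈ Polynomial.lifts (algebraMap L Ω) := by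
      rw [Polynomial.lifts_iff_coeff_lifts]
      intro i
      rw [coeff_map, hφ]
      by_cases hi : i ≤ G.natDegree
      · refine ⟨y i ^ ringExpChar L ^ (N - n i), ?_⟩
        rw [map_pow, ← hy, ← pow_mul, ← pow_add, Nat.add_sub_cancel' (hN i hi)]
      · refine ⟨0, ?_⟩
        rw [coeff_eq_zero_of_natDegree_lt (not_le.1 hi), map_zero, zero_pow]
        exact pow_ne_zero _ (expChar_pos L _).ne'
    exact (Polynomial.mem_lifts _).1 h1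
  refine ⟨ringExpChar L ^ N, expand L (ringExpChar L ^ N) B, ?_, fun θ hθ => ?_⟩
  · exact (Sup.G13_coprime hℓ hℓL).pow_left N
  · rw [expand_aeval, ← eval_map_algebraMap, hB, ← hφ, ← hφ, ← hG1 θ hθ, eval_map]
    exact (eval₂_at_apply φ θ).symm

/-- A separable polynomial divides the polynomials which are zero at its roots. -/
theorem kumE_dvd_aux [IsAlgClosed Ω] {p f : L[X]} (hp : p.Separable)
    (h : ∀ θ : Ω, (p.map (algebraMap L Ω)).eval θ = 0 → aeval θ f = 0) : p ∣ f := by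
  obtain ⟨g, hg⟩ : ∃ g, g = EuclideanDomain.gcd p f := ⟨_, rfl⟩
  have hgp : g ∣ p := hg ▸ EuclideanDomain.gcd_dvd_left p f
  have hgf : g ∣ f := hg ▸ EuclideanDomain.gcd_dvd_right p f
  obtain ⟨h', hh⟩ := hgp
  have hco : IsCoprime g h' := by
    rw [hh] at hp
    exact hp.isCoprime
  have hu : IsUnit h' := by
    by_contra hu
    have hd : h'.degree ≠ 0 := by
      intro hd
      exact hu (isUnit_iff_degree_eq_zero.2 hd)
    obtain ⟨θ, hθ⟩ := IsAlgClosed.exists_aeval_eq_zero Ω h' hd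
    have h1 : aeval θ p = 0 := by rw [hh, map_mul, hθ, mul_zero]
    have h2 : aeval θ f = 0 := h θ (by rw [eval_map_algebraMap]; exact h1)
    have h3 : aeval θ g = 0 := by
      rw [hg, EuclideanDomain.gcd_eq_gcd_ab, map_add, map_mul, map_mul, h1, h2, zero_mul, zero_mul, add_zero]
    obtain ⟨a, b, hab⟩ := hco
    have h4 := congrArg (aeval θ) hab
    rw [map_add, map_mul, map_mul, h3, hθ, mul_zero, mul_zero, add_zero, map_one] at h4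
    exact zero_ne_one h4
  rw [hh]
  exact (hu.mul_right_dvd).2 hgf

end

/-! ### The polynomials attached to the cochains -/

section

variable {k F L Ω : Type} [Field k] [Field F] [Algebra k F] [Field L] [Algebra F[X] L]
  [Field Ω] [Algebra L Ω] [IsAlgClosure k F] [IsFractionRing F[X] L] [IsAlgClosure L Ω]
  {ℓ : ℕ} {P : k[X][X]} [hG : IsGood ℓ (cOver k F L Ω P)] {ζ : k}

omit [IsAlgClosure k F] [IsFractionRing F[X] L] in
lemma kumE_ne (H : LHyp ℓ k F L P ζ) : (ℓ : L) ≠ 0 := by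
  intro h2
  apply H.ne
  have h3 : ((algebraMap F[X] L).comp (C.comp (algebraMap k F))) (ℓ : k) = 0 := by
    rw [map_natCast, h2]
  exact (map_eq_zero _).1 h3

omit [IsAlgClosure k F] [IsFractionRing F[X] L] [IsAlgClosure L Ω] hG in
lemma kumE_aeval (σ : Ω ≃ₐ[L] Ω) (A : L[X]) (θ : Ω) : σ (aeval θ A) = aeval (σ θ) A :=
  (aeval_algHom_apply (σ : Ω →ₐ[L] Ω) θ A).symm

omit [IsAlgClosure k F] [IsFractionRing F[X] L] in
include hG in
/-- A function on the roots which commutes with the automorphisms is given by a polynomial over `L`, up to a power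
prime to `ℓ`. -/
theorem kumE_interp (H : LHyp ℓ k F L P ζ) {u : Ω → Ω}
    (hu : ∀ (σ : Ω ≃ₐ[L] Ω) (θ : Ω), (cOver k F L Ω P).eval θ = 0 → σ (u θ) = u (σ θ)) :
    ∃ (q : ℕ) (A : L[X]), q.Coprime ℓ ∧ ∀ θ : Ω, (cOver k F L Ω P).eval θ = 0 → u θ ^ q = aeval θ A := by
  obtain ⟨q, A, hq, hA⟩ := kumE_interp_aux H.prime (kumE_ne H) (cOver k F L Ω P).roots.toFinset (fun σ θ => by
    rw [rm14_mem hG, rm14_mem hG]
    exact kum_eval_gal σ) (u := u) (fun σ θ hθ => hu σ θ ((rm14_mem hG).1 hθ))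
  exact ⟨q, A, hq, fun θ hθ => hA θ ((rm14_mem hG).2 hθ)⟩

omit [IsAlgClosure k F] [IsFractionRing F[X] L] [IsAlgClosure L Ω] hG in
lemma kumE_root {θ : Ω} : (cOver k F L Ω P).eval θ = 0 ↔ aeval θ (curveL k F L P) = 0 := by
  rw [← eval_map_algebraMap]

omit [IsAlgClosure k F] [IsFractionRing F[X] L] hG in
theorem kumE_dvd (hsep : (curveL k F L P).Separable) {A : L[X]}
    (h : ∀ θ : Ω, (cOver k F L Ω P).eval θ = 0 → aeval θ A = 0) : curveL k F L P ∣ A := by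
  have hA : IsAlgClosed Ω := IsAlgClosure.isAlgClosed L
  exact kumE_dvd_aux hsep h

omit [IsAlgClosure k F] [IsFractionRing F[X] L] [IsAlgClosure L Ω] hG in
theorem kumE_of_dvd {A : L[X]} (h : curveL k F L P ∣ A) {θ : Ω} (hθ : (cOver k F L Ω P).eval θ = 0) :
    aeval θ A = 0 := by
  obtain ⟨B, rfl⟩ := h
  rw [map_mul, kumE_root.1 hθ, zero_mul]

/-- Every Tate cocycle has a polynomial. -/
theorem exists_isKumE (H : LHyp ℓ k F L P ζ) (hζ : (zA F L Ω ζ) ^ ℓ = 1) (hsep : (curveL k F L P).Separable)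
    {c : Coch ℓ k F L Ω P} (hc : Wt.IsTateCocycle ℓ (curveL k F L P) c) :
    ∃ A : L[X], IsKumE ζ (fun σ => vJ (zA F L Ω ζ) hζ (c 1 σ)) A := by
  have hp : Fact ℓ.Prime := ⟨H.prime⟩
  have hN : Normal L Ω := IsAlgClosure.normal L Ω
  have hζ' : IsPrimitiveRoot (zA F L Ω ζ) ℓ := zA_prim H
  have hζ0 : zA F L Ω ζ ≠ 0 := hζ'.ne_zero H.prime.ne_zero
  have h1 : ∀ σ, ∃ n : Ω → ℤ, vJ (zA F L Ω ζ) hζ (c 1 σ) = rm n ∧
      (ℓ : ℤ) ∣ ∑ θ ∈ (cOver k F L Ω P).roots.toFinset, n θ := by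
    intro σ
    apply kum_exists H hsep hζ
    have h2 := vJ_sub_zJ (zA F L Ω ζ) hζ' (c 1 σ)
    rw [hc.smul 0 σ, hc.zero, sub_eq_zero] at h2
    exact h2.symm
  choose e he hs using h1
  have hcoc : ∀ (σ τ : Ω ≃ₐ[L] Ω) (θ : Ω), (cOver k F L Ω P).eval θ = 0 →
      (ℓ : ℤ) ∣ e (σ * τ) (σ θ) - (e σ (σ θ) + e τ θ) := by
    intro σ τ θ hθ
    have h2 : (rm (e (σ * τ)) : Jac ℓ (cOver k F L Ω P)) =
        rm fun θ => e σ θ + e τ ((((galA k F σ)⁻¹ : AutO k F L Ω) : Ω ≃+* Ω) θ) := by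
      rw [← he, hc.cocycle, vJ_add, push_eq, vJ_symJ (zA F L Ω ζ) hζ _ (zA_fixed ζ (galA k F σ)),
        he, he, symJ_rm, rm_add]
      rfl
    have h3 := kum_unique H hsep h2 (hs _) (by
      rw [Finset.sum_add_distrib, kum_sum (ℓ := ℓ) (galA k F σ)⁻¹ (e τ)]
      exact dvd_add (hs σ) (hs τ)) ((kum_eval_gal σ).2 hθ)
    have h4 : (((galA k F σ)⁻¹ : AutO k F L Ω) : Ω ≃+* Ω) (σ θ) = θ := σ.symm_apply_apply θ
    rwa [h4] at h3
  have hc1 : c 1 1 = 0 := by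
    have h2 := hc.cocycle 1 1 1
    rw [mul_one, push_eq, map_one, map_one, symJ_one] at h2
    exact left_eq_add.1 h2
  obtain ⟨S, hS⟩ : ∃ S : Finset Ω, ∀ σ : Ω ≃ₐ[L] Ω, (∀ x ∈ S, σ x = x) → c 1 σ = 0 := by
    have hopen : IsOpen {σ : Ω ≃ₐ[L] Ω | c 1 σ = 0} := hc.locallyConstant 1 {0}
    have hnhds : {σ : Ω ≃ₐ[L] Ω | c 1 σ = 0} ∈ nhds (1 : Ω ≃ₐ[L] Ω) := hopen.mem_nhds hc1
    obtain ⟨K, hK, hKU⟩ := (krullTopology_mem_nhds_one_iff L Ω _).1 hnhds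
    let b := Module.finBasis L K
    refine ⟨Finset.univ.image fun i => (b i : Ω), fun σ hσ => ?_⟩
    apply hKU
    have h4 : σ.toLinearMap ∘ₗ K.val.toLinearMap = K.val.toLinearMap :=
      b.ext fun i => hσ _ (Finset.mem_image_of_mem _ (Finset.mem_univ i))
    exact (IntermediateField.mem_fixingSubgroup_iff _ _).2 fun x hx =>
      LinearMap.congr_fun h4 ⟨x, hx⟩
  have hζz : ∀ i : ℤ, (zA F L Ω ζ ^ i) ^ ℓ = 1 := by
    intro i
    rw [← zpow_natCast, ← zpow_mul, mul_comm, zpow_mul, zpow_natCast, hζ, one_zpow]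
  -- the elements for the stabilizers
  have hz₀ : ∀ θ₀ : Ω, ∃ z₀ : Ω, (cOver k F L Ω P).eval θ₀ = 0 →
      z₀ ≠ 0 ∧ ∀ σ : Ω ≃ₐ[L] Ω, σ θ₀ = θ₀ → σ z₀ = zA F L Ω ζ ^ (e σ θ₀) * z₀ := by
    intro θ₀
    by_cases h0 : (cOver k F L Ω P).eval θ₀ = 0
    · obtain ⟨z₀, hz₀, hz⟩ := Sup.exists_kummer_char hζ' (MulAction.stabilizer (Ω ≃ₐ[L] Ω) θ₀)
        (fun σ _ => kum_zA ζ σ) (fun σ => (e σ θ₀ : ZMod ℓ)) (fun σ hσ τ hτ => by
          have h2 := hcoc σ τ θ₀ h0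
          rw [show σ θ₀ = θ₀ from hσ, ← ZMod.intCast_zmod_eq_zero_iff_dvd, Int.cast_sub,
            Int.cast_add, sub_eq_zero] at h2
          exact h2) S (fun σ _ hσS => by
          have h2 : (rm (e σ) : Jac ℓ (cOver k F L Ω P)) = rm fun _ => 0 := by
            rw [← he, hS σ hσS, rm_zero]
            have h6 := vJ_smul (zA F L Ω ζ) hζ 0 (0 : JacOver ℓ (curveL k F L P) Ω)
            rwa [zero_smul, zero_smul] at h6
          have h3 := kum_unique H hsep h2 (hs σ) (by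
            rw [Finset.sum_const_zero]
            exact dvd_zero _) h0
          rwa [sub_zero, ← ZMod.intCast_zmod_eq_zero_iff_dvd] at h3)
      refine ⟨z₀, fun _ => ⟨hz₀, fun σ hσ => ?_⟩⟩
      rw [hz σ hσ]
      congr 1
      rw [← zpow_natCast, kum_zpow H.prime.ne_zero hζ', ← ZMod.intCast_zmod_eq_zero_iff_dvd,
        Int.cast_sub, Int.cast_natCast, ZMod.natCast_zmod_val, sub_self]
    · exact ⟨1, fun h => absurd h h0⟩
  choose zz hzz using hz₀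
  -- the representatives of the orbits
  obtain ⟨rep, hrep1, hrep2⟩ : ∃ rep : Ω → Ω, (∀ (σ : Ω ≃ₐ[L] Ω) θ, rep (σ θ) = rep θ) ∧
      ∀ θ, ∃ τ : Ω ≃ₐ[L] Ω, τ (rep θ) = θ := by
    let st := MulAction.orbitRel (Ω ≃ₐ[L] Ω) Ω
    refine ⟨fun θ => (Quotient.mk st θ).out, fun σ θ => ?_, fun θ => ?_⟩
    · beta_reduce
      rw [show (Quotient.mk st (σ θ)) = Quotient.mk st θ from
        Quotient.sound (s := st) ⟨σ, rfl⟩]
    · have h2 : st (Quotient.mk st θ).out θ := Quotient.exact (s := st) (Quotient.out_eq (s := st) _)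
      obtain ⟨τ, hτ⟩ := st.symm h2
      exact ⟨τ, hτ⟩
  choose s hsθ using hrep2
  have hrep0 : ∀ θ, (cOver k F L Ω P).eval θ = 0 → (cOver k F L Ω P).eval (rep θ) = 0 := by
    intro θ hθ
    rw [← kum_eval_gal (s θ), hsθ]
    exact hθ
  obtain ⟨z, hz⟩ : ∃ z : Ω → Ω, ∀ θ, z θ = zA F L Ω ζ ^ (-(e (s θ) θ)) * s θ (zz (rep θ)) := ⟨_, fun θ => rfl⟩
  have hz0 : ∀ θ, (cOver k F L Ω P).eval θ = 0 → z θ ≠ 0 := by
    intro θ hθ
    rw [hz]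
    exact mul_ne_zero (zpow_ne_zero _ hζ0)
      ((map_ne_zero_iff (s θ) (s θ).injective).2 (hzz _ (hrep0 θ hθ)).1)
  have hzσ : ∀ (σ : Ω ≃ₐ[L] Ω) (θ : Ω), (cOver k F L Ω P).eval θ = 0 →
      σ (z θ) = zA F L Ω ζ ^ (e σ (σ θ)) * z (σ θ) := by
    intro σ θ hθ
    have h0 := hrep0 θ hθ
    have hsσθ : s (σ θ) (rep θ) = σ θ := by
      have h2 := hsθ (σ θ)
      rwa [hrep1] at h2
    set h' : Ω ≃ₐ[L] Ω := (s (σ θ))⁻¹ * (σ * s θ) with hh'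
    have hsh : s (σ θ) * h' = σ * s θ := mul_inv_cancel_left _ _
    have hhθ : h' (rep θ) = rep θ := by
      have h1 : s (σ θ) (h' (rep θ)) = s (σ θ) (rep θ) := by
        have h2 : s (σ θ) (h' (rep θ)) = (s (σ θ) * h') (rep θ) := rfl
        rw [h2, hsh, hsσθ]
        change σ (s θ (rep θ)) = σ θ
        rw [hsθ]
      exact (s (σ θ)).injective h1
    have h3 : σ (s θ (zz (rep θ))) = zA F L Ω ζ ^ (e h' (rep θ)) * s (σ θ) (zz (rep θ)) := by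
      have h4 : σ (s θ (zz (rep θ))) = (s (σ θ) * h') (zz (rep θ)) := by
        rw [hsh]
        rfl
      have h5 : (s (σ θ) * h') (zz (rep θ)) = s (σ θ) (h' (zz (rep θ))) := rfl
      rw [h4, h5, (hzz _ h0).2 h' hhθ, map_mul, map_zpow₀, kum_zA]
    rw [hz, hz, map_mul, map_zpow₀, kum_zA, h3, hrep1, ← mul_assoc, ← mul_assoc, ← zpow_add₀ hζ0,
      ← zpow_add₀ hζ0]
    congr 1
    rw [kum_zpow H.prime.ne_zero hζ']
    have h7 := hcoc σ (s θ) θ hθ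
    have h8 := hcoc (s (σ θ)) h' (rep θ) h0
    rw [hsh, hsσθ] at h8
    have h9 := dvd_sub h7 h8
    have h10 : -(e (s θ) θ) + e h' (rep θ) - (e σ (σ θ) + -(e (s (σ θ)) (σ θ))) =
        e (σ * s θ) (σ θ) - (e σ (σ θ) + e (s θ) θ) -
          (e (σ * s θ) (σ θ) - (e (s (σ θ)) (σ θ) + e h' (rep θ))) := by ring
    rw [h10]
    exact h9
  obtain ⟨q, A, hq, hA⟩ := kumE_interp (P := P) (k := k) (F := F) H (u := fun θ => z θ ^ ℓ) (fun σ θ hθ => by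
    beta_reduce
    rw [map_pow, hzσ σ θ hθ, _root_.mul_pow, hζz, one_mul])
  obtain ⟨j, -, hj⟩ := Nat.exists_mul_mod_eq_one_of_coprime hq H.prime.one_lt
  have hζq : ∀ i : ℤ, (zA F L Ω ζ ^ i) ^ (q * j) = zA F L Ω ζ ^ i := by
    intro i
    conv_lhs => rw [← Nat.div_add_mod (q * j) ℓ, hj, pow_succ, pow_mul, hζz, one_pow, one_mul]
  refine ⟨A ^ j, fun θ => z θ ^ (q * j), fun θ hθ => ⟨pow_ne_zero _ (hz0 θ hθ), ?_⟩,
    fun σ => ⟨e σ, fun θ hθ => ?_, he σ, hs σ⟩⟩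
  · rw [map_pow, ← hA θ hθ, ← pow_mul, ← pow_mul, ← pow_mul]
    congr 1
    ring
  · rw [map_pow, hzσ σ θ hθ, _root_.mul_pow, hζq]

omit [IsAlgClosure k F] [IsFractionRing F[X] L] [IsAlgClosure L Ω] in
theorem IsKumE.ne_zero {c : (Ω ≃ₐ[L] Ω) → JacOver ℓ (curveL k F L P) Ω} {A : L[X]} (h : IsKumE ζ c A) {θ : Ω}
    (hθ : (cOver k F L Ω P).eval θ = 0) : aeval θ A ≠ 0 := by
  obtain ⟨z, hz, -⟩ := h
  rw [← (hz θ hθ).2]
  exact pow_ne_zero _ (hz θ hθ).1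

omit [IsAlgClosure k F] [IsFractionRing F[X] L] in
/-- The polynomial is prime to `curveL`, so its class is invertible. -/
theorem IsKumE.isCoprime (hsep : (curveL k F L P).Separable) {c : (Ω ≃ₐ[L] Ω) → JacOver ℓ (curveL k F L P) Ω}
    {A : L[X]} (h : IsKumE ζ c A) : IsCoprime A (curveL k F L P) := by
  have hA : IsAlgClosed Ω := IsAlgClosure.isAlgClosed L
  rw [isCoprime_iff_aeval_ne_zero_of_isAlgClosed L Ω]
  intro θ
  by_cases hθ : aeval θ (curveL k F L P) = 0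
  · exact Or.inl (h.ne_zero (kumE_root.2 hθ))
  · exact Or.inr hθ

omit [IsAlgClosure k F] [IsFractionRing F[X] L] [IsAlgClosure L Ω] in
theorem isKumE_zero : IsKumE (ℓ := ℓ) (P := P) (F := F) (L := L) (Ω := Ω) ζ (fun _ => 0) 1 := by
  refine ⟨fun _ => 1, fun θ _ => ⟨one_ne_zero, by rw [map_one, one_pow]⟩, fun σ => ⟨fun _ => 0, fun θ _ => ?_, ?_, ?_⟩⟩
  · rw [map_one, zpow_zero, one_mul]
  · rw [rm_zero]
  · rw [Finset.sum_const_zero]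
    exact dvd_zero _

omit [IsAlgClosure k F] [IsFractionRing F[X] L] [IsAlgClosure L Ω] in
theorem IsKumE.add (hζ0 : zA F L Ω ζ ≠ 0) {c c' : (Ω ≃ₐ[L] Ω) → JacOver ℓ (curveL k F L P) Ω} {A A' : L[X]}
    (h : IsKumE ζ c A) (h' : IsKumE ζ c' A') : IsKumE ζ (fun σ => c σ + c' σ) (A * A') := by
  obtain ⟨z, hz, hn⟩ := h
  obtain ⟨z', hz', hn'⟩ := h'
  refine ⟨fun θ => z θ * z' θ, fun θ hθ => ⟨mul_ne_zero (hz θ hθ).1 (hz' θ hθ).1, ?_⟩, fun σ => ?_⟩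
  · rw [_root_.mul_pow, (hz θ hθ).2, (hz' θ hθ).2, map_mul]
  obtain ⟨n, h1, h2, h3⟩ := hn σ
  obtain ⟨n', h1', h2', h3'⟩ := hn' σ
  refine ⟨fun θ => n θ + n' θ, fun θ hθ => ?_, ?_, ?_⟩
  · rw [map_mul, h1 θ hθ, h1' θ hθ, zpow_add₀ hζ0]
    ring
  · beta_reduce
    rw [h2, h2', rm_add]
  · rw [Finset.sum_add_distrib]
    exact dvd_add h3 h3'

omit [IsAlgClosure k F] [IsFractionRing F[X] L] [IsAlgClosure L Ω] in
theorem IsKumE.neg {c : (Ω ≃ₐ[L] Ω) → JacOver ℓ (curveL k F L P) Ω} {A A' : L[X]} (h : IsKumE ζ c A)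
    (hA : ∀ θ : Ω, (cOver k F L Ω P).eval θ = 0 → aeval θ A * aeval θ A' = 1) :
    IsKumE ζ (fun σ => -c σ) A' := by
  obtain ⟨z, hz, hn⟩ := h
  refine ⟨fun θ => (z θ)⁻¹, fun θ hθ => ⟨inv_ne_zero (hz θ hθ).1, ?_⟩, fun σ => ?_⟩
  · rw [inv_pow, (hz θ hθ).2]
    exact (eq_inv_of_mul_eq_one_right (hA θ hθ)).symm
  obtain ⟨n, h1, h2, h3⟩ := hn σ
  refine ⟨fun θ => 0 - n θ, fun θ hθ => ?_, ?_, ?_⟩
  · beta_reduce
    rw [map_inv₀, h1 θ hθ, mul_inv, zero_sub, zpow_neg]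
  · beta_reduce
    rw [h2, rm_sub, rm_zero, zero_sub]
  · rw [Finset.sum_sub_distrib, Finset.sum_const_zero, zero_sub, dvd_neg]
    exact h3

omit [IsAlgClosure k F] [IsFractionRing F[X] L] [IsAlgClosure L Ω] in
theorem IsKumE.congr {c : (Ω ≃ₐ[L] Ω) → JacOver ℓ (curveL k F L P) Ω} {A A' : L[X]} (h : IsKumE ζ c A)
    (hA : ∀ θ : Ω, (cOver k F L Ω P).eval θ = 0 → aeval θ A = aeval θ A') : IsKumE ζ c A' := by
  obtain ⟨z, hz, hn⟩ := h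
  exact ⟨z, fun θ hθ => ⟨(hz θ hθ).1, by rw [(hz θ hθ).2, hA θ hθ]⟩, hn⟩

omit [IsAlgClosure k F] [IsFractionRing F[X] L] [IsAlgClosure L Ω] in
theorem IsKumE.mul_pow {c : (Ω ≃ₐ[L] Ω) → JacOver ℓ (curveL k F L P) Ω} {A W : L[X]} (h : IsKumE ζ c A)
    (hW : ∀ θ : Ω, (cOver k F L Ω P).eval θ = 0 → aeval θ W ≠ 0) : IsKumE ζ c (A * W ^ ℓ) := by
  obtain ⟨z, hz, hn⟩ := h
  refine ⟨fun θ => z θ * aeval θ W, fun θ hθ => ⟨mul_ne_zero (hz θ hθ).1 (hW θ hθ), ?_⟩, fun σ => ?_⟩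
  · rw [_root_.mul_pow, (hz θ hθ).2, map_mul, map_pow]
  obtain ⟨n, h1, h2, h3⟩ := hn σ
  refine ⟨n, fun θ hθ => ?_, h2, h3⟩
  beta_reduce
  rw [map_mul, h1 θ hθ, kumE_aeval]
  ring

theorem IsKumE.exists_pow (H : LHyp ℓ k F L P ζ) (hsep : (curveL k F L P).Separable)
    {c : (Ω ≃ₐ[L] Ω) → JacOver ℓ (curveL k F L P) Ω} {A : L[X]} (h : IsKumE ζ c A) {q : Ω → ℤ}
    (hc : ∀ σ, c σ = symJ (toSym P (galA k F σ)) (rm q) - rm q) :
    ∃ W : L[X], curveL k F L P ∣ A - W ^ ℓ := by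
  have hζ' : IsPrimitiveRoot (zA F L Ω ζ) ℓ := zA_prim H
  have hζ0 : zA F L Ω ζ ≠ 0 := hζ'.ne_zero H.prime.ne_zero
  obtain ⟨U, V, hUV⟩ := h.isCoprime hsep
  have hU : ∀ θ : Ω, (cOver k F L Ω P).eval θ = 0 → aeval θ U * aeval θ A = 1 := by
    intro θ hθ
    have h1 := congrArg (aeval θ) hUV
    rwa [map_add, map_mul, map_mul, kumE_root.1 hθ, mul_zero, add_zero, map_one] at h1
  obtain ⟨z, hz, hn⟩ := h
  have key : ∀ (σ : Ω ≃ₐ[L] Ω) (θ : Ω), (cOver k F L Ω P).eval θ = 0 →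
      σ (zA F L Ω ζ ^ (-q θ) * z θ) = zA F L Ω ζ ^ (-q (σ θ)) * z (σ θ) := by
    intro σ θ hθ
    obtain ⟨n, h1, h2, h3⟩ := hn σ
    have h4 : (rm n : Jac ℓ (cOver k F L Ω P)) =
        rm fun θ => q ((((galA k F σ)⁻¹ : AutO k F L Ω) : Ω ≃+* Ω) θ) - q θ := by
      rw [← h2, hc σ, symJ_rm, rm_sub]
      rfl
    have h5 := kum_unique H hsep h4 h3 (by
      rw [Finset.sum_sub_distrib, kum_sum (ℓ := ℓ) (galA k F σ)⁻¹ q, sub_self]
      exact dvd_zero _) ((kum_eval_gal σ).2 hθ)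
    have h6 : (((galA k F σ)⁻¹ : AutO k F L Ω) : Ω ≃+* Ω) (σ θ) = θ := σ.symm_apply_apply θ
    rw [h6] at h5
    rw [map_mul, map_zpow₀, kum_zA, h1 θ hθ, ← mul_assoc, ← zpow_add₀ hζ0]
    congr 1
    rw [kum_zpow H.prime.ne_zero hζ']
    have h7 : -q θ + n (σ θ) - -q (σ θ) = n (σ θ) - (q θ - q (σ θ)) := by ring
    rw [h7]
    exact h5
  obtain ⟨r, B, hr, hB⟩ := kumE_interp (P := P) (k := k) (F := F) H
    (u := fun θ => zA F L Ω ζ ^ (-q θ) * z θ) key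
  obtain ⟨j, -, hj⟩ := Nat.exists_mul_mod_eq_one_of_coprime hr H.prime.one_lt
  have hpow : ∀ θ, (cOver k F L Ω P).eval θ = 0 → (zA F L Ω ζ ^ (-q θ) * z θ) ^ ℓ = aeval θ A := by
    intro θ hθ
    have h1 : (zA F L Ω ζ ^ (-q θ)) ^ ℓ = 1 := by
      rw [← zpow_natCast, ← zpow_mul, mul_comm, zpow_mul, zpow_natCast, hζ'.pow_eq_one, one_zpow]
    rw [_root_.mul_pow, h1, one_mul, (hz θ hθ).2]
  refine ⟨B ^ j * U ^ (r * j / ℓ), kumE_dvd (Ω := Ω) hsep fun θ hθ => ?_⟩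
  have h1 : aeval θ (B ^ j * U ^ (r * j / ℓ)) = zA F L Ω ζ ^ (-q θ) * z θ := by
    rw [map_mul, map_pow, map_pow, ← hB θ hθ, ← pow_mul]
    conv_lhs => rw [← Nat.div_add_mod (r * j) ℓ, hj, pow_succ, pow_mul, hpow θ hθ]
    have h2 : ℓ * (r * j / ℓ) + 1 = r * j := by
      conv_rhs => rw [← Nat.div_add_mod (r * j) ℓ, hj]
    rw [h2]
    calc aeval θ A ^ (r * j / ℓ) * (zA F L Ω ζ ^ (-q θ) * z θ) * aeval θ U ^ (r * j / ℓ)
        = (aeval θ U * aeval θ A) ^ (r * j / ℓ) * (zA F L Ω ζ ^ (-q θ) * z θ) := by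
          rw [_root_.mul_pow]
          ring
      _ = zA F L Ω ζ ^ (-q θ) * z θ := by rw [hU θ hθ, one_pow, one_mul]
  rw [map_sub, map_pow, h1, hpow θ hθ, sub_self]

theorem IsKumE.exists_cob (H : LHyp ℓ k F L P ζ) (hsep : (curveL k F L P).Separable)
    {c : (Ω ≃ₐ[L] Ω) → JacOver ℓ (curveL k F L P) Ω} {A W : L[X]} (h : IsKumE ζ c A)
    (hW : curveL k F L P ∣ A - W ^ ℓ) :
    ∃ q : Ω → ℤ, ∀ σ, c σ = symJ (toSym P (galA k F σ)) (rm q) - rm q := by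
  have hζ' : IsPrimitiveRoot (zA F L Ω ζ) ℓ := zA_prim H
  have hζ0 : zA F L Ω ζ ≠ 0 := hζ'.ne_zero H.prime.ne_zero
  have hAW : ∀ θ, (cOver k F L Ω P).eval θ = 0 → aeval θ A = aeval θ W ^ ℓ := by
    intro θ hθ
    have h1 := kumE_of_dvd hW hθ
    rwa [map_sub, map_pow, sub_eq_zero] at h1
  have hW0 : ∀ θ, (cOver k F L Ω P).eval θ = 0 → aeval θ W ≠ 0 := by
    intro θ hθ h1
    apply h.ne_zero hθ
    rw [hAW θ hθ, h1, zero_pow H.prime.ne_zero]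
  obtain ⟨z, hz, hn⟩ := h
  have hm : ∀ θ, ∃ m : ℤ, (cOver k F L Ω P).eval θ = 0 → z θ = zA F L Ω ζ ^ m * aeval θ W := by
    intro θ
    by_cases hθ : (cOver k F L Ω P).eval θ = 0
    · obtain ⟨i, hi⟩ := Sup.G13_exists_zpow H.prime.ne_zero hζ' (hW0 θ hθ) ((hz θ hθ).2.trans (hAW θ hθ))
      exact ⟨i, fun _ => hi⟩
    · exact ⟨0, fun h => absurd h hθ⟩
  choose m hm using hm
  refine ⟨m, fun σ => ?_⟩
  obtain ⟨n, h1, h2, h3⟩ := hn σ
  rw [h2, symJ_rm, ← rm_sub]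
  refine rm_congr _ _ fun θ hθ => ?_
  have hθ' : (cOver k F L Ω P).eval (σ.symm θ) = 0 := by
    rw [← kum_eval_gal σ, σ.apply_symm_apply]
    exact hθ
  have h4 := h1 (σ.symm θ) hθ'
  rw [σ.apply_symm_apply, hm _ hθ', hm _ hθ, map_mul, map_zpow₀, kum_zA, kumE_aeval,
    σ.apply_symm_apply, ← mul_assoc, ← zpow_add₀ hζ0] at h4
  have h5 := mul_right_cancel₀ (hW0 _ hθ) h4
  rw [kum_zpow H.prime.ne_zero hζ'] at h5
  have h6 : (((toSym P (galA k F σ))⁻¹ : Sym (cOver k F L Ω P)) : Ω ≃+* Ω) θ = σ.symm θ := rfl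
  rw [h6]
  have h7 : n θ - (m (σ.symm θ) - m θ) = -(m (σ.symm θ) - (n θ + m θ)) := by ring
  rw [h7, dvd_neg]
  exact h5

theorem IsKumE.act (γ : AutO k F L Ω) {c : (Ω ≃ₐ[L] Ω) → JacOver ℓ (curveL k F L P) Ω} {A : L[X]}
    (h : IsKumE ζ c A) :
    IsKumE ζ (fun σ => symJ (toSym P γ) (c (conjG γ⁻¹ σ)))
      (A.map ((Sup.coefL L (resF γ : F ≃+* F) : L ≃+* L) : L →+* L)) := by
  obtain ⟨z, hz, hn⟩ := h
  have hsymm : ∀ θ : Ω, (cOver k F L Ω P).eval θ = 0 → (cOver k F L Ω P).eval ((γ : Ω ≃+* Ω).symm θ) = 0 := by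
    intro θ hθ
    rw [← kum_eval γ, RingEquiv.apply_symm_apply]
    exact hθ
  refine ⟨fun θ => (γ : Ω ≃+* Ω) (z ((γ : Ω ≃+* Ω).symm θ)), fun θ hθ => ⟨?_, ?_⟩, fun σ => ?_⟩
  · exact (map_ne_zero_iff _ (γ : Ω ≃+* Ω).injective).2 (hz _ (hsymm θ hθ)).1
  · beta_reduce
    rw [← map_pow, (hz _ (hsymm θ hθ)).2, aeval_def, aeval_def, eval₂_map]
    have h1 := hom_eval₂ A (algebraMap L Ω) ((γ : Ω ≃+* Ω) : Ω →+* Ω) ((γ : Ω ≃+* Ω).symm θ)
    have h2 : (((γ : Ω ≃+* Ω) : Ω →+* Ω)) ((γ : Ω ≃+* Ω).symm θ) = θ := (γ : Ω ≃+* Ω).apply_symm_apply θ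
    rw [h2] at h1
    refine h1.trans ?_
    congr 1
    exact RingHom.ext fun x => h1_coef γ x
  · obtain ⟨n, h1, h2, h3⟩ := hn (conjG γ⁻¹ σ)
    refine ⟨fun θ => n ((γ : Ω ≃+* Ω).symm θ), fun θ hθ => ?_, ?_, ?_⟩
    · have h5 : ∀ x : Ω, (conjG γ⁻¹ σ) ((γ : Ω ≃+* Ω).symm x) = (γ : Ω ≃+* Ω).symm (σ x) :=
        fun x => conjG_spec γ⁻¹ σ x
      have h6 := congrArg (γ : Ω ≃+* Ω) (h1 _ (hsymm θ hθ))
      rw [h5, map_mul, map_zpow₀, zA_fixed] at h6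
      rw [← h6]
      have h7 := h5 ((γ : Ω ≃+* Ω) (z ((γ : Ω ≃+* Ω).symm θ)))
      rw [RingEquiv.symm_apply_apply] at h7
      rw [h7, RingEquiv.apply_symm_apply]
    · beta_reduce
      rw [h2, symJ_rm]
      rfl
    · have h4 := kum_sum (ℓ := ℓ) (P := P) (k := k) (F := F) (L := L) (γ⁻¹) n
      have h5 : ∀ x : Ω, ((γ⁻¹ : AutO k F L Ω) : Ω ≃+* Ω) x = (γ : Ω ≃+* Ω).symm x := fun x => rfl
      simp only [h5] at h4
      rw [h4]
      exact h3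

theorem isKumE_zC (H : LHyp ℓ k F L P ζ) (hζ : (zA F L Ω ζ) ^ ℓ = 1) {c : Coch ℓ k F L Ω P}
    (hc : Wt.IsTateCocycle ℓ (curveL k F L P) c) {A : L[X]}
    (h : IsKumE ζ (fun σ => vJ (zA F L Ω ζ) hζ (c 1 σ)) A) :
    IsKumE ζ (fun σ => vJ (zA F L Ω ζ) hζ (zJ (zA F L Ω ζ) hζ (c 1 σ))) A := by
  have hζ' : IsPrimitiveRoot (zA F L Ω ζ) ℓ := zA_prim H
  have h1 : ∀ σ, vJ (zA F L Ω ζ) hζ (zJ (zA F L Ω ζ) hζ (c 1 σ)) = vJ (zA F L Ω ζ) hζ (c 1 σ) := by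
    intro σ
    have h2 := vJ_sub_zJ (zA F L Ω ζ) hζ' (c 1 σ)
    rw [hc.smul 0 σ, hc.zero, sub_eq_zero] at h2
    rw [vJ_zJ]
    exact h2.symm
  simp only [h1]
  exact h

/-- The uniqueness of the class modulo the `ℓ`-th powers. -/
theorem IsKumE.unique (H : LHyp ℓ k F L P ζ) (hsep : (curveL k F L P).Separable)
    {c : (Ω ≃ₐ[L] Ω) → JacOver ℓ (curveL k F L P) Ω} {A A' : L[X]} (h : IsKumE ζ c A) (h' : IsKumE ζ c A') :
    ∃ W : L[X], curveL k F L P ∣ A - A' * W ^ ℓ := by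
  have hζ' : IsPrimitiveRoot (zA F L Ω ζ) ℓ := zA_prim H
  have hζ0 : zA F L Ω ζ ≠ 0 := hζ'.ne_zero H.prime.ne_zero
  obtain ⟨U, V, hUV⟩ := h'.isCoprime hsep
  have hU : ∀ θ : Ω, (cOver k F L Ω P).eval θ = 0 → aeval θ A' * aeval θ U = 1 := by
    intro θ hθ
    have h1 := congrArg (aeval θ) hUV
    rwa [map_add, map_mul, map_mul, kumE_root.1 hθ, mul_zero, add_zero, map_one, mul_comm] at h1
  have h1 := (h.add hζ0 (h'.neg hU)).exists_pow H hsep (q := fun _ => 0) (fun σ => by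
    rw [rm_zero, map_zero, sub_zero, add_neg_cancel])
  obtain ⟨W, hW⟩ := h1
  refine ⟨W, kumE_dvd (Ω := Ω) hsep fun θ hθ => ?_⟩
  have h2 := kumE_of_dvd hW hθ
  rw [map_sub, map_mul, map_pow, sub_eq_zero] at h2
  rw [map_sub, map_mul, map_pow, ← h2]
  linear_combination (-aeval θ A) * hU θ hθ

end

end Pool.Agent.Lib.MP_89bcae_ag.Ze
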