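import Mathlib
import Pool.Agent.Lib.MP_89bcae_ag.Ze.Loc
import Pool.Agent.Lib.MP_89bcae_ag.Zq.PtB

/-!
# The elements attached to the Tate cocycles which are coboundaries in the Jacobian are in the group of the points,
for reducible curves
-/

attribute [local instance 100000] Pool.Agent.Lib.MP_89bcae_ag.Brt.tffFields
attribute [local instance 100000] Pool.Agent.Lib.MP_89bcae_ag.Wt.ifrNF Pool.Agent.Lib.MP_89bcae_ag.Wt.iddNF

open Polynomial IsDedekindDomain

open scoped Classical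

namespace Pool.Agent.Lib.MP_89bcae_ag.Ze

open Pool.Agent.Lib.MP_89bcae_ag.Wt Pool.Agent.Lib.MP_89bcae_ag.Wt.Lns Pool.Agent.Lib.MP_89bcae_ag.Zs

open Pool.Agent.Lib.MP_89bcae_ag.Zq (TrJ IsTrivialJ IsStable IsStable.apply IsStable.of_apply pt_prod_sym pt_unram
  pt_uval pt_prod_uval pt_neg_one pt_zpow_sum pt_prod_gal uval_add sym_mul_apply sym_one_apply sym_inv_apply
  pt_ringExpChar)

set_option linter.unusedSectionVars false

section

variable {L Ω : Type} [Field L] [Field Ω] [Algebra L Ω] {ℓ : ℕ} {p : L[X]}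

/-! ### The values at the roots -/

/-- The value at a root. -/
noncomputable def ev (θ : Ω) (h : aeval θ p = 0) : AdjoinRoot p →+* Ω :=
  AdjoinRoot.lift (algebraMap L Ω) θ h

lemma ev_mk (θ : Ω) (h : aeval θ p = 0) (A : L[X]) : ev θ h (AdjoinRoot.mk p A) = aeval θ A :=
  AdjoinRoot.lift_mk _ _

lemma dvd_of_aeval [IsAlgClosure L Ω] (hp : p.Separable) {A : L[X]}
    (h : ∀ θ : Ω, aeval θ p = 0 → aeval θ A = 0) : p ∣ A := by
  have hA : IsAlgClosed Ω := IsAlgClosure.isAlgClosed L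
  have hp0 : p ≠ 0 := hp.ne_zero
  rw [← Polynomial.map_dvd_map' (algebraMap L Ω)]
  by_cases hA0 : A = 0
  · rw [hA0, Polynomial.map_zero]
    exact dvd_zero _
  have hA0' : A.map (algebraMap L Ω) ≠ 0 := (Polynomial.map_ne_zero_iff (algebraMap L Ω).injective).2 hA0
  have hp0' : p.map (algebraMap L Ω) ≠ 0 := (Polynomial.map_ne_zero_iff (algebraMap L Ω).injective).2 hp0
  refine ((IsAlgClosed.splits (p.map (algebraMap L Ω))).dvd_iff_roots_le_roots hp0' hA0').2 ?_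
  rw [Multiset.le_iff_subset (nodup_roots hp.map)]
  intro θ hθ
  rw [mem_roots hp0', IsRoot.def, eval_map_algebraMap] at hθ
  rw [mem_roots hA0', IsRoot.def, eval_map_algebraMap]
  exact h θ hθ

lemma ev_injective [IsAlgClosure L Ω] (hp : p.Separable) {a b : AdjoinRoot p}
    (h : ∀ (θ : Ω) (hθ : aeval θ p = 0), ev θ hθ a = ev θ hθ b) : a = b := by
  obtain ⟨A, rfl⟩ := AdjoinRoot.mk_surjective a
  obtain ⟨B, rfl⟩ := AdjoinRoot.mk_surjective b
  rw [AdjoinRoot.mk_eq_mk]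
  refine dvd_of_aeval (Ω := Ω) hp fun θ hθ => ?_
  have h1 := h θ hθ
  rw [ev_mk, ev_mk] at h1
  rw [map_sub, h1, sub_self]

lemma isUnit_mk [IsAlgClosure L Ω] {A : L[X]} (h : ∀ θ : Ω, aeval θ p = 0 → aeval θ A ≠ 0) :
    IsUnit (AdjoinRoot.mk p A) := by
  have hA : IsAlgClosed Ω := IsAlgClosure.isAlgClosed L
  have h1 : IsCoprime A p := by
    rw [Polynomial.isCoprime_iff_aeval_ne_zero_of_isAlgClosed L Ω]
    intro θ
    by_cases hθ : aeval θ p = 0
    · exact Or.inl (h θ hθ)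
    · exact Or.inr hθ
  obtain ⟨a, b, hab⟩ := h1
  refine IsUnit.of_mul_eq_one (AdjoinRoot.mk p a) ?_
  rw [mul_comm, ← map_mul, ← map_one (AdjoinRoot.mk p), AdjoinRoot.mk_eq_mk]
  refine ⟨-b, ?_⟩
  linear_combination hab

/-! ### The functions on the roots with a power of exponent prime to `ℓ` in the group of the points -/

/-- A power of the function `x` on the roots, with exponent prime to `ℓ`, is in the group of the points. -/
def QVE (ℓ : ℕ) (p : L[X]) (x : Ω → Ω) : Prop :=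
  ∃ q : ℕ, q.Coprime ℓ ∧ ∃ v ∈ points ℓ p, ∀ (θ : Ω) (h : aeval θ p = 0), ev θ h v = x θ ^ q

lemma QVE.one : QVE ℓ p (fun _ : Ω => 1) :=
  ⟨1, Nat.coprime_one_left ℓ, 1, one_mem _, fun θ h => by simp⟩

lemma QVE.congr {x y : Ω → Ω} (hx : QVE ℓ p x) (h : ∀ θ, aeval θ p = 0 → x θ = y θ) : QVE ℓ p y := by
  obtain ⟨q, hq, v, hv, hvx⟩ := hx
  exact ⟨q, hq, v, hv, fun θ hθ => by rw [hvx θ hθ, h θ hθ]⟩

lemma QVE.mul {x y : Ω → Ω} (hx : QVE ℓ p x) (hy : QVE ℓ p y) : QVE ℓ p (fun θ => x θ * y θ) := by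
  obtain ⟨q, hq, v, hv, hvx⟩ := hx
  obtain ⟨r, hr, v', hv', hvy⟩ := hy
  refine ⟨q * r, Nat.Coprime.mul_left hq hr, v ^ r * v' ^ q, mul_mem (pow_mem hv r) (pow_mem hv' q),
    fun θ hθ => ?_⟩
  rw [Units.val_mul, Units.val_pow_eq_pow_val, Units.val_pow_eq_pow_val, map_mul, map_pow, map_pow, hvx, hvy,
    mul_pow, ← pow_mul, ← pow_mul, mul_comm r q]

lemma QVE.inv {x : Ω → Ω} (hx : QVE ℓ p x) : QVE ℓ p (fun θ => (x θ)⁻¹) := by
  obtain ⟨q, hq, v, hv, hvx⟩ := hx
  refine ⟨q, hq, v⁻¹, inv_mem hv, fun θ hθ => ?_⟩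
  rw [inv_pow, ← hvx θ hθ]
  exact eq_inv_of_mul_eq_one_left (by rw [← map_mul, Units.inv_mul, map_one])

lemma QVE.pow {x : Ω → Ω} (hx : QVE ℓ p x) (n : ℕ) : QVE ℓ p (fun θ => x θ ^ n) := by
  induction n with
  | zero => exact QVE.one.congr fun θ _ => (pow_zero _).symm
  | succ n ih => exact (ih.mul hx).congr fun θ _ => (pow_succ _ _).symm

lemma QVE.zpow {x : Ω → Ω} (hx : QVE ℓ p x) (n : ℤ) : QVE ℓ p (fun θ => x θ ^ n) := by
  cases n with
  | ofNat n => exact (hx.pow n).congr fun θ _ => by rw [Int.ofNat_eq_natCast, zpow_natCast]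
  | negSucc n => exact (hx.pow (n + 1)).inv.congr fun θ _ => by rw [zpow_negSucc]

lemma QVE.of_pow {x : Ω → Ω} {q : ℕ} (hq : q.Coprime ℓ) (hx : QVE ℓ p (fun θ => x θ ^ q)) : QVE ℓ p x := by
  obtain ⟨r, hr, v, hv, hvx⟩ := hx
  exact ⟨q * r, Nat.Coprime.mul_left hq hr, v, hv, fun θ hθ => by rw [hvx θ hθ, pow_mul]⟩

lemma QVE.powl [IsAlgClosure L Ω] {W : L[X]} (hW : ∀ θ : Ω, aeval θ p = 0 → aeval θ W ≠ 0) :
    QVE ℓ p (fun θ : Ω => aeval θ W ^ ℓ) := by
  obtain ⟨w, hw⟩ := isUnit_mk hW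
  refine ⟨1, Nat.coprime_one_left ℓ, w ^ ℓ, Subgroup.subset_closure (Or.inl ⟨w, rfl⟩), fun θ hθ => ?_⟩
  rw [pow_one, Units.val_pow_eq_pow_val, map_pow, hw, ev_mk]

lemma QVE.aeval [IsAlgClosure L Ω] {h b : L[X]} (hm : h.Monic) (hd : h ∣ b ^ ℓ - p)
    (h0 : ∀ θ : Ω, aeval θ p = 0 → aeval θ h ≠ 0) : QVE ℓ p (fun θ : Ω => Polynomial.aeval θ h) := by
  obtain ⟨w, hw⟩ := isUnit_mk h0
  refine ⟨1, Nat.coprime_one_left ℓ, w, Subgroup.subset_closure (Or.inr ⟨h, b, hm, hd, hw⟩), fun θ hθ => ?_⟩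
  rw [pow_one, hw, ev_mk]

/-- A unit with a power, of exponent prime to `ℓ`, in the group of the points is in this group. -/
lemma QVE.mem [IsAlgClosure L Ω] (hp : p.Separable) {u : (AdjoinRoot p)ˣ} {A : L[X]}
    (hu : (u : AdjoinRoot p) = AdjoinRoot.mk p A) (hx : QVE ℓ p (fun θ : Ω => Polynomial.aeval θ A)) :
    u ∈ points ℓ p := by
  obtain ⟨q, hq, v, hv, hvx⟩ := hx
  have h1 : v = u ^ q := by
    refine Units.ext (ev_injective (Ω := Ω) hp fun θ hθ => ?_)
    rw [hvx θ hθ, Units.val_pow_eq_pow_val, map_pow, hu, ev_mk]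
  have h2 : u ^ ℓ ∈ points ℓ p := Subgroup.subset_closure (Or.inl ⟨u, rfl⟩)
  obtain ⟨a, b, hab⟩ := Nat.isCoprime_iff_coprime.2 hq
  have h4 : u = (v ^ a) * ((u ^ ℓ) ^ b) := by
    rw [h1, ← zpow_natCast, ← zpow_natCast, ← zpow_mul, ← zpow_mul, ← zpow_add,
      show (q : ℤ) * a + (ℓ : ℤ) * b = a * q + b * ℓ by ring, hab, zpow_one]
  rw [h4]
  exact mul_mem (Subgroup.zpow_mem _ hv a) (Subgroup.zpow_mem _ h2 b)

/-! ### The minimal polynomial -/

/-- The value of the minimal polynomial is a power of the product over the conjugates. -/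
lemma pt_minpoly [IsAlgClosure L Ω] (hℓ : (ringExpChar L).Coprime ℓ) (x₀ : Ω) (Y : Finset Ω)
    (hY : ∀ x, x ∈ Y ↔ ∃ σ : Ω ≃ₐ[L] Ω, x = σ x₀) :
    ∃ q : ℕ, q.Coprime ℓ ∧ ∀ θ, Polynomial.aeval θ (minpoly L x₀) = (∏ x ∈ Y, (θ - x)) ^ q := by
  have hA : IsAlgClosed Ω := IsAlgClosure.isAlgClosed L
  have hB : Algebra.IsAlgebraic L Ω := IsAlgClosure.isAlgebraic
  have hN : Normal L Ω := IsAlgClosure.normal L Ω
  have hint : IsIntegral L x₀ := (Algebra.IsAlgebraic.isAlgebraic x₀).isIntegral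
  have hE : ExpChar L (ringExpChar L) := inferInstance
  have hE' : ExpChar Ω (ringExpChar L) := expChar_of_injective_algebraMap (algebraMap L Ω).injective _
  obtain ⟨g, hg, n, hgm⟩ := (minpoly.irreducible hint).hasSeparableContraction (ringExpChar L)
  refine ⟨ringExpChar L ^ n, hℓ.pow_left n, fun θ => ?_⟩
  have hmon : ((minpoly L x₀).map (algebraMap L Ω)).Monic := (minpoly.monic hint).map _
  have hroot : ∀ x : Ω, x ∈ ((minpoly L x₀).map (algebraMap L Ω)).roots.toFinset ↔ x ∈ Y := by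
    intro x
    rw [hY, Multiset.mem_toFinset]
    constructor
    · intro h
      have h1 : IsConjRoot L x₀ x := (isConjRoot_iff_mem_minpoly_aroots hint).2 h
      obtain ⟨σ, hσ⟩ := isConjRoot_iff_exists_algEquiv.1 h1.symm
      exact ⟨σ, hσ.symm⟩
    · rintro ⟨σ, rfl⟩
      exact (isConjRoot_iff_mem_minpoly_aroots hint).1 (isConjRoot_iff_exists_algEquiv.2 ⟨σ, rfl⟩).symm
  have hcount : ∀ x ∈ ((minpoly L x₀).map (algebraMap L Ω)).roots.toFinset,
      ((minpoly L x₀).map (algebraMap L Ω)).roots.count x = ringExpChar L ^ n := by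
    intro x hx
    have h1 : (minpoly L x₀).map (algebraMap L Ω) = expand Ω (ringExpChar L ^ n) (g.map (algebraMap L Ω)) := by
      rw [← hgm, Polynomial.map_expand]
    have hs : (g.map (algebraMap L Ω)).Separable := hg.map
    have h2 : 0 < ((minpoly L x₀).map (algebraMap L Ω)).roots.count x :=
      Multiset.count_pos.2 (Multiset.mem_toFinset.1 hx)
    have h4 : ((minpoly L x₀).map (algebraMap L Ω)).roots.count x =
        ringExpChar L ^ n * (g.map (algebraMap L Ω)).rootMultiplicity (x ^ ringExpChar L ^ n) := by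
      rw [count_roots, h1, rootMultiplicity_expand_pow]
    have h5 := rootMultiplicity_le_one_of_separable hs (x ^ ringExpChar L ^ n)
    have h6 : 0 < (g.map (algebraMap L Ω)).rootMultiplicity (x ^ ringExpChar L ^ n) := by
      rw [h4] at h2
      exact Nat.pos_of_mul_pos_left h2
    have h7 : (g.map (algebraMap L Ω)).rootMultiplicity (x ^ ringExpChar L ^ n) = 1 := by omega
    rw [h4, h7, mul_one]
  have h3 : Polynomial.aeval θ (minpoly L x₀) = ((minpoly L x₀).map (algebraMap L Ω)).eval θ :=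
    (eval_map_algebraMap _ _).symm
  rw [h3, (IsAlgClosed.splits _).eval_eq_prod_roots_of_monic hmon, Finset.prod_multiset_map_count,
    ← Finset.prod_pow]
  have hYe : ((minpoly L x₀).map (algebraMap L Ω)).roots.toFinset = Y := Finset.ext hroot
  refine Finset.prod_congr hYe fun x hx => ?_
  rw [hcount x (by rw [hYe]; exact hx)]

/-! ### Interpolation -/

/-- A power, with exponent prime to `ℓ`, of an equivariant function on the roots is given by a polynomial over `L`. -/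
lemma equiv_interp [IsAlgClosure L Ω] (hℓ : (ringExpChar L).Coprime ℓ) (hp0 : p ≠ 0) {w : Ω → Ω}
    (hw : ∀ (σ : Ω ≃ₐ[L] Ω) (θ : Ω), Polynomial.aeval θ p = 0 → σ (w θ) = w (σ θ)) :
    ∃ q : ℕ, q.Coprime ℓ ∧ ∃ W : L[X], ∀ θ : Ω, Polynomial.aeval θ p = 0 → Polynomial.aeval θ W = w θ ^ q := by
  have hA : IsAlgClosed Ω := IsAlgClosure.isAlgClosed L
  have hE : ExpChar L (ringExpChar L) := inferInstance
  have hE' : ExpChar Ω (ringExpChar L) := expChar_of_injective_algebraMap (algebraMap L Ω).injective _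
  have hp0' : p.map (algebraMap L Ω) ≠ 0 := (Polynomial.map_ne_zero_iff (algebraMap L Ω).injective).2 hp0
  set S : Finset Ω := (p.map (algebraMap L Ω)).roots.toFinset with hS
  have hmem : ∀ θ, θ ∈ S ↔ Polynomial.aeval θ p = 0 := by
    intro θ
    rw [hS, Multiset.mem_toFinset, mem_roots hp0', IsRoot.def, eval_map_algebraMap]
  have hσS : ∀ (σ : Ω ≃ₐ[L] Ω) (θ : Ω), Polynomial.aeval θ p = 0 → Polynomial.aeval (σ θ) p = 0 := by
    intro σ θ hθ
    have h1 := aeval_algHom_apply (σ : Ω →ₐ[L] Ω) θ p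
    rw [hθ, map_zero] at h1
    exact h1
  set A₀ : Polynomial Ω := Lagrange.interpolate S id w with hA₀
  have hinj : Set.InjOn (id : Ω → Ω) (S : Set Ω) := Set.injOn_id _
  have hev : ∀ θ ∈ S, A₀.eval θ = w θ := fun θ hθ => Lagrange.eval_interpolate_at_node (v := id) w hinj hθ
  have hdeg : A₀.degree < (S.card : WithBot ℕ) := Lagrange.degree_interpolate_lt w hinj
  have hσA : ∀ σ : Ω ≃ₐ[L] Ω, A₀.map ((σ : Ω ≃+* Ω) : Ω →+* Ω) = A₀ := by
    intro σ
    refine Polynomial.eq_of_degrees_lt_of_eval_finset_eq S ?_ hdeg ?_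
    · exact (degree_map_le).trans_lt hdeg
    · intro x hx
      have hx' : Polynomial.aeval (σ.symm x) p = 0 := hσS σ.symm x ((hmem x).1 hx)
      have h1 : x = ((σ : Ω ≃+* Ω) : Ω →+* Ω) (σ.symm x) := (σ.apply_symm_apply x).symm
      rw [hev x hx]
      conv_lhs => rw [h1]
      rw [eval_map, eval₂_at_apply, hev _ ((hmem _).2 hx')]
      have h2 := hw σ _ hx'
      rw [σ.apply_symm_apply] at h2
      exact h2
  have hcoef : ∀ i, ∃ (s : ℕ) (y : L), A₀.coeff i ^ ringExpChar L ^ s = algebraMap L Ω y := fun i =>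
    kum_pow L Ω _ (fun σ => by
      have h1 := congrArg (fun q => q.coeff i) (hσA σ)
      simp only [coeff_map] at h1
      exact h1)
  choose s y hy using hcoef
  set N : ℕ := (Finset.range (A₀.natDegree + 1)).sup s with hN
  have hlift : A₀.map (iterateFrobenius Ω (ringExpChar L) N) ∈ Polynomial.lifts (algebraMap L Ω) := by
    rw [Polynomial.lifts_iff_coeff_lifts]
    intro i
    rw [coeff_map, iterateFrobenius_def]
    by_cases hi : i ∈ Finset.range (A₀.natDegree + 1)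
    · have h1 : s i ≤ N := Finset.le_sup (f := s) hi
      refine ⟨y i ^ ringExpChar L ^ (N - s i), ?_⟩
      rw [map_pow, ← hy i, ← pow_mul, ← pow_add, Nat.add_sub_cancel' h1]
    · have h1 : A₀.coeff i = 0 := coeff_eq_zero_of_natDegree_lt (by
        rw [Finset.mem_range] at hi
        omega)
      refine ⟨0, ?_⟩
      rw [h1, map_zero, zero_pow (pow_ne_zero _ (expChar_pos L (ringExpChar L)).ne')]
  obtain ⟨A', hA'⟩ := hlift
  rw [coe_mapRingHom] at hA'
  refine ⟨ringExpChar L ^ N, hℓ.pow_left N, expand L (ringExpChar L ^ N) A', fun θ hθ => ?_⟩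
  rw [← eval_map_algebraMap, map_expand, hA', expand_eval, ← hev θ ((hmem θ).2 hθ), ← iterateFrobenius_def,
    ← iterateFrobenius_def, eval_map, eval₂_at_apply]

end

section moving

variable {N : ℕ} {E : Type} [Field E] {f : E[X]} [hG : IsGood N f]

/-- The function `y + g(x)`, where `g` is the product of the `x - θ`, for `θ` in a set `O` of roots of `f`, has the order
`1` at the ramified points `(θ, 0)`, for `θ` in `O`, and the order `0` at the other ramified points. -/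
lemma exists_moving (hs : f.Separable) (O : Finset E) (hO : ∀ θ ∈ O, f.eval θ = 0) (hne : O.Nonempty) :
    ∃ u : (FunField N f)ˣ, (∀ σ : Sym f, O.image (σ : E ≃+* E) = O → symU σ u = u) ∧
      ∀ P : Pt N f, P.y = 0 → ord P u = if P.x ∈ O then 1 else 0 := by
  set g : E[X] := ∏ θ ∈ O, (X - C θ) with hg
  have hg0 : g ≠ 0 := Finset.prod_ne_zero_iff.2 fun θ _ => X_sub_C_ne_zero θ
  have hwt : ∀ θ, f.eval θ = 0 → wt f θ = 1 := by
    intro θ hθ
    apply le_antisymm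
    · exact rootMultiplicity_le_one_of_separable hs θ
    · exact (rootMultiplicity_pos (f_ne_zero N f)).2 hθ
  have hN : 1 < N := hG.one_lt
  -- the orders of `y` and `g`
  have hoy : ∀ P : Pt N f, P.y = 0 → ord P yU = 1 := by
    intro P hP
    rw [ord_yU_of_ramified P hP, hwt _ (R15_root P hP), Nat.cast_one]
  have hog : ∀ P : Pt N f, P.y = 0 → P.x ∈ O → 2 ≤ ord P (polyU g hg0) := by
    intro P hP hx
    have h1 : g = (X - C P.x) * ∏ θ ∈ O.erase P.x, (X - C θ) := (Finset.mul_prod_erase O _ hx).symm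
    have h2 : (∏ θ ∈ O.erase P.x, (X - C θ)) ≠ 0 := Finset.prod_ne_zero_iff.2 fun θ _ => X_sub_C_ne_zero θ
    have h3 : (polyU g hg0 : (FunField N f)ˣ) = xs P.x * polyU (∏ θ ∈ O.erase P.x, (X - C θ)) h2 := by
      rw [xs, ← polyU_mul]
      congr 1
    have h4 : 0 ≤ ord P (polyU (∏ θ ∈ O.erase P.x, (X - C θ)) h2) := ord_nonneg P _ _ rfl
    rw [h3, ord_mul, ord_xs_of_ramified P hP]
    have h5 : (2 : ℤ) ≤ N := by exact_mod_cast hN
    omega
  have hneg : ∀ P : Pt N f, ord P (-(polyU g hg0 : (FunField N f)ˣ)) = ord P (polyU g hg0) := by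
    intro P
    have h1 : (-(polyU g hg0 : (FunField N f)ˣ)) = cstU (-1) * polyU g hg0 := by
      ext
      rw [Units.val_neg, Units.val_mul, R07_cstU, Units.val_neg, Units.val_one, map_neg, map_neg, map_neg, map_one,
        map_one, map_one, neg_one_mul]
    rw [h1, ord_mul, ord_cstU, zero_add]
  have hne0 : algebraMap (NRing N f) (FunField N f) (yy + ofPoly g) ≠ 0 := by
    intro h
    obtain ⟨θ, hθ⟩ := hne
    have hθ0 := hO θ hθ
    set P : Pt N f := ⟨θ, 0, by rw [zero_pow hG.ne, hθ0]⟩ with hP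
    have h1 : (yU : (FunField N f)ˣ) = -(polyU g hg0) := by
      ext
      rw [Units.val_neg, R07_polyU, R07_yU, eq_neg_iff_add_eq_zero, ← map_add]
      exact h
    have h2 := hoy P rfl
    have h3 := hog P rfl hθ
    rw [h1, hneg] at h2
    omega
  refine ⟨Units.mk0 _ hne0, fun σ hσ => ?_, fun P hP => ?_⟩
  · ext
    rw [symU, R07_autU_mk (symE N σ) _ (a := yy + ofPoly g) rfl, map_add, R07_symE_yy, R07_symE_ofPoly]
    congr 3
    rw [hg, Polynomial.map_prod]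
    conv_rhs => rw [← hσ]
    rw [Finset.prod_image ((σ : E ≃+* E).injective.injOn)]
    refine Finset.prod_congr rfl fun θ _ => ?_
    rw [Polynomial.map_sub, Polynomial.map_X, Polynomial.map_C]
    rfl
  · split_ifs with hx
    · have h1 : min (ord P yU) (ord P (polyU g hg0)) ≤ ord P (Units.mk0 _ hne0) :=
        ord_add P _ _ _ (by
          rw [R07_polyU, R07_yU, ← map_add]
          rfl)
      have h2 : min (ord P (Units.mk0 _ hne0)) (ord P (-(polyU g hg0 : (FunField N f)ˣ))) ≤ ord P yU :=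
        ord_add P _ _ _ (by
          rw [Units.val_neg, R07_polyU, R07_yU, Units.val_mk0, map_add]
          ring)
      have h3 := hoy P hP
      have h4 := hog P hP hx
      rw [hneg] at h2
      rw [h3] at h1 h2
      rcases min_le_iff.1 h2 with h5 | h5
      · have h6 : (1 : ℤ) ≤ min 1 (ord P (polyU g hg0)) := le_min le_rfl (by omega)
        omega
      · omega
    · have h1 : 0 ≤ ord P (Units.mk0 _ hne0) := ord_nonneg P (yy + ofPoly g) _ rfl
      have h2 := ord_pos_iff P (yy + ofPoly g) (Units.mk0 _ hne0) rfl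
      have h3 : evalPt P (yy + ofPoly g) ≠ 0 := by
        rw [map_add, evalPt_yy, evalPt_ofPoly, hP, zero_add, hg, eval_prod]
        refine Finset.prod_ne_zero_iff.2 fun θ hθ => ?_
        rw [eval_sub, eval_X, eval_C, sub_ne_zero]
        rintro rfl
        exact hx hθ
      have h4 : ¬ 0 < ord P (Units.mk0 _ hne0) := fun h => h3 (h2.1 h)
      omega

end moving

section

variable {k F L Ω : Type} [Field k] [Field F] [Algebra k F] [Field L] [Algebra F[X] L]
  [Field Ω] [Algebra L Ω] [IsAlgClosure k F] [IsFractionRing F[X] L] [IsAlgClosure L Ω]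
  {ℓ : ℕ} {P : k[X][X]} [hG : IsGood ℓ (cOver k F L Ω P)] {ζ : k}

/-- The function `x` on the roots is attached to the cochain `c`. -/
def IsKumF (ζ : k) (c : (Ω ≃ₐ[L] Ω) → JacOver ℓ (curveL k F L P) Ω) (x : Ω → Ω) : Prop :=
  ∃ z : Ω → Ω, (∀ θ, (cOver k F L Ω P).eval θ = 0 → z θ ≠ 0 ∧ z θ ^ ℓ = x θ) ∧
    ∀ σ : Ω ≃ₐ[L] Ω, ∃ n : Ω → ℤ,
      (∀ θ, (cOver k F L Ω P).eval θ = 0 → σ (z θ) = (zA F L Ω ζ) ^ n (σ θ) * z (σ θ)) ∧
      c σ = (rm n : Jac ℓ (cOver k F L Ω P)) ∧ (ℓ : ℤ) ∣ ∑ θ ∈ (cOver k F L Ω P).roots.toFinset, n θ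

/-- The Kummer formula for the invariant divisors without ramified points. -/
theorem isKumF_cl (H : LHyp ℓ k F L P ζ) (hζ : (zA F L Ω ζ) ^ ℓ = 1)
    (hsep : (curveL k F L P).Separable) (hmon : (curveL k F L P).Monic)
    (Q : Jac ℓ (cOver k F L Ω P)) (D : Pt ℓ (cOver k F L Ω P) →₀ ℤ)
    (hQ : Q - zJ (zA F L Ω ζ) hζ Q = cl D) (hD : IsStable D)
    (hat : ∀ θ, (cOver k F L Ω P).eval θ = 0 → atR D θ = 0) :
    IsKumF ζ (fun σ => symJ (toSym P (galA k F σ)) Q - Q) (uval D) := by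
  have hζ' : IsPrimitiveRoot (zA F L Ω ζ) ℓ := zA_prim H
  have hζ0 : zA F L Ω ζ ≠ 0 := hζ'.ne_zero H.prime.ne_zero
  have hNZ : NeZero ℓ := ⟨H.prime.ne_zero⟩
  obtain ⟨z, hz, hσ⟩ := kummer_formula (zA F L Ω ζ) hζ' Q D hQ
  have hzD : ∀ θ, (cOver k F L Ω P).eval θ = 0 → z θ ^ ℓ = uval D θ := by
    intro θ hθ
    rw [(hz θ hθ).2, hat θ hθ, zpow_zero, one_mul]
  refine ⟨z, fun θ hθ => ⟨(hz θ hθ).1, hzD θ hθ⟩, fun σ => ?_⟩
  -- the exponents
  have hex : ∀ θ : Ω, ∃ m : ℤ, (cOver k F L Ω P).eval θ = 0 →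
      σ (z (σ.symm θ)) = (zA F L Ω ζ) ^ m * z θ := by
    intro θ
    by_cases hθ : (cOver k F L Ω P).eval θ = 0
    · have hθ' : (cOver k F L Ω P).eval (σ.symm θ) = 0 := by
        have h1 := kum_eval_gal (k := k) (F := F) (P := P) σ (θ := σ.symm θ)
        rw [σ.apply_symm_apply] at h1
        exact h1.1 hθ
      have h1 : (σ (z (σ.symm θ)) / z θ) ^ ℓ = 1 := by
        rw [div_pow, ← map_pow, hzD _ hθ', hzD θ hθ]
        have h2 := sym_uval (toSym P (galA k F σ)) D (hD σ) (σ.symm θ)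
        have h3 : σ (uval D (σ.symm θ)) = uval D (σ (σ.symm θ)) := h2
        rw [h3, σ.apply_symm_apply, div_self (uval_ne_zero D)]
      obtain ⟨i, -, hi⟩ := hζ'.eq_pow_of_pow_eq_one h1
      refine ⟨i, fun _ => ?_⟩
      rw [zpow_natCast, hi, div_mul_cancel₀ _ (hz θ hθ).1]
    · exact ⟨0, fun h => absurd h hθ⟩
  choose n hn using hex
  have hn' : ∀ θ, (cOver k F L Ω P).eval θ = 0 → σ (z θ) = (zA F L Ω ζ) ^ n (σ θ) * z (σ θ) := by
    intro θ hθ
    have h1 := hn (σ θ) ((kum_eval_gal (k := k) (F := F) (P := P) σ).2 hθ)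
    rwa [σ.symm_apply_apply] at h1
  refine ⟨n, hn', ?_, ?_⟩
  · exact hσ (toSym P (galA k F σ)) (zA_fixed ζ (galA k F σ)) (hD σ) n hn'
  · -- the normalisation
    obtain ⟨w, hw⟩ := pt_neg_one k F L Ω (ℓ := ℓ) H.prime.ne_zero
    have hmon' : (cOver k F L Ω P).Monic := hmon.map _
    have hsep' : (cOver k F L Ω P).Separable := hsep.map
    set y : Ω := ∏ θ ∈ (cOver k F L Ω P).roots.toFinset, z θ with hy
    set β : Ω := D.prod fun P' m => ((algebraMap L Ω w) ^ (cOver k F L Ω P).roots.toFinset.card * P'.y) ^ m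
      with hβ
    have h1 : y ^ ℓ = β ^ ℓ := by
      rw [hy, ← Finset.prod_pow, hβ, ← pt_prod_uval hmon' hsep' D hat (w := algebraMap L Ω w) (by
        rw [← map_pow, hw, map_neg, map_one])]
      exact Finset.prod_congr rfl fun θ hθ => hzD θ ((rm14_mem hG).1 hθ)
    have hy0 : y ≠ 0 := Finset.prod_ne_zero_iff.2 fun θ hθ => (hz θ ((rm14_mem hG).1 hθ)).1
    have hβσ : σ β = β := by
      refine pt_prod_sym (toSym P (galA k F σ)) D (hD σ) _ fun P' => ?_
      have h2 : (((toSym P (galA k F σ) : Sym (cOver k F L Ω P)) : Ω ≃+* Ω))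
          ((algebraMap L Ω w) ^ (cOver k F L Ω P).roots.toFinset.card * P'.y) =
          σ ((algebraMap L Ω w) ^ (cOver k F L Ω P).roots.toFinset.card * P'.y) := rfl
      rw [h2, map_mul, map_pow, σ.commutes]
      rfl
    have hβ0 : β ≠ 0 := by
      intro h
      rw [h, zero_pow H.prime.ne_zero] at h1
      exact hy0 ((pow_eq_zero_iff H.prime.ne_zero).1 h1)
    have hyσ : σ y = y := by
      have h2 : (y / β) ^ ℓ = 1 := by
        rw [div_pow, h1, div_self (pow_ne_zero _ hβ0)]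
      obtain ⟨i, -, hi⟩ := hζ'.eq_pow_of_pow_eq_one h2
      have h3 : y = (zA F L Ω ζ) ^ i * β := by
        rw [hi, div_mul_cancel₀ _ hβ0]
      rw [h3, map_mul, map_pow, kum_zA, hβσ]
    have h4 : σ y = (zA F L Ω ζ) ^ (∑ θ ∈ (cOver k F L Ω P).roots.toFinset, n θ) * y := by
      rw [hy, map_prod]
      have h5 : ∀ θ ∈ (cOver k F L Ω P).roots.toFinset,
          σ (z θ) = (zA F L Ω ζ) ^ n (σ θ) * z (σ θ) := fun θ hθ => hn' θ ((rm14_mem hG).1 hθ)
      rw [Finset.prod_congr rfl h5, Finset.prod_mul_distrib, pt_prod_gal (ℓ := ℓ) (P := P) σ z,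
        pt_prod_gal (ℓ := ℓ) (P := P) σ (fun θ => (zA F L Ω ζ) ^ n θ), pt_zpow_sum hζ0]
    rw [hyσ] at h4
    have h6 : (zA F L Ω ζ) ^ (∑ θ ∈ (cOver k F L Ω P).roots.toFinset, n θ) = 1 := by
      have h7 : 1 * y = (zA F L Ω ζ) ^ (∑ θ ∈ (cOver k F L Ω P).roots.toFinset, n θ) * y := by
        rw [one_mul]
        exact h4
      exact (mul_right_cancel₀ hy0 h7).symm
    exact (hζ'.zpow_eq_one_iff_dvd _).1 h6

/-- The uniqueness of the function attached to a cochain. -/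
theorem isKumF_unique (H : LHyp ℓ k F L P ζ) (hsep : (curveL k F L P).Separable)
    {c : (Ω ≃ₐ[L] Ω) → JacOver ℓ (curveL k F L P) Ω} {x x' : Ω → Ω}
    (h : IsKumF ζ c x) (h' : IsKumF ζ c x') :
    ∃ q : ℕ, q.Coprime ℓ ∧ ∃ W : L[X], ∀ θ : Ω, aeval θ (curveL k F L P) = 0 →
      aeval θ W ≠ 0 ∧ x θ ^ q = aeval θ W ^ ℓ * x' θ ^ q := by
  have hζ' : IsPrimitiveRoot (zA F L Ω ζ) ℓ := zA_prim H
  have hζ0 : zA F L Ω ζ ≠ 0 := hζ'.ne_zero H.prime.ne_zero
  obtain ⟨z, hz, hn⟩ := h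
  obtain ⟨z', hz', hn'⟩ := h'
  have hcov : ∀ a : Ω, (cOver k F L Ω P).eval a = aeval a (curveL k F L P) := fun a =>
    eval_map_algebraMap _ _
  obtain ⟨q, hq, W, hW⟩ := equiv_interp (ℓ := ℓ) (Ω := Ω) (p := curveL k F L P) (pt_ringExpChar H) hsep.ne_zero
    (w := fun θ => z θ / z' θ) (fun σ θ hθ => by
      rw [← hcov] at hθ
      obtain ⟨n, h1, h2, h3⟩ := hn σ
      obtain ⟨n', h1', h2', h3'⟩ := hn' σ
      have h4 : (rm n : Jac ℓ (cOver k F L Ω P)) = rm n' := h2.symm.trans h2'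
      have h5 := kum_unique H hsep h4 h3 h3' ((kum_eval_gal (k := k) (F := F) (P := P) σ).2 hθ)
      rw [map_div₀, h1 θ hθ, h1' θ hθ, (kum_zpow H.prime.ne_zero hζ' (n (σ θ)) (n' (σ θ))).2 h5,
        mul_div_mul_left _ _ (zpow_ne_zero _ hζ0)])
  refine ⟨q, hq, W, fun θ hθ => ?_⟩
  have hθ' := hθ
  rw [← hcov] at hθ'
  have hz0 := (hz θ hθ').1
  have hz0' := (hz' θ hθ').1
  rw [hW θ hθ]
  refine ⟨pow_ne_zero _ (div_ne_zero hz0 hz0'), ?_⟩
  rw [← (hz θ hθ').2, ← (hz' θ hθ').2, ← pow_mul, ← pow_mul, ← pow_mul, mul_comm q ℓ, div_pow,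
    div_mul_cancel₀ _ (pow_ne_zero _ hz0')]

/-- The orders at the ramified points of a stable divisor can be changed into `0`. -/
lemma exists_unram (H : LHyp ℓ k F L P ζ) (hsep : (curveL k F L P).Separable) :
    ∀ (n : ℕ) (D : Pt ℓ (cOver k F L Ω P) →₀ ℤ), IsStable D →
      ((cOver k F L Ω P).roots.toFinset.filter fun θ => atR D θ ≠ 0).card ≤ n →
      ∃ D' : Pt ℓ (cOver k F L Ω P) →₀ ℤ, cl D' = cl D ∧ IsStable D' ∧
        ∀ θ, (cOver k F L Ω P).eval θ = 0 → atR D' θ = 0 := by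
  intro n
  induction n with
  | zero =>
    intro D hD hn
    refine ⟨D, rfl, hD, fun θ hθ => ?_⟩
    by_contra h
    rw [Nat.le_zero, Finset.card_eq_zero] at hn
    have h1 : θ ∈ (∅ : Finset Ω) := by
      rw [← hn, Finset.mem_filter]
      exact ⟨(rm14_mem hG).2 hθ, h⟩
    exact absurd h1 (Finset.notMem_empty θ)
  | succ n ih =>
    intro D hD hn
    by_cases hall : ∀ θ, (cOver k F L Ω P).eval θ = 0 → atR D θ = 0
    · exact ⟨D, rfl, hD, hall⟩
    push Not at hall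
    obtain ⟨θ₀, h0, he⟩ := hall
    set O : Finset Ω := (cOver k F L Ω P).roots.toFinset.filter fun θ => ∃ σ : Ω ≃ₐ[L] Ω, θ = σ θ₀ with hO
    have hOmem : ∀ θ, θ ∈ O ↔ ∃ σ : Ω ≃ₐ[L] Ω, θ = σ θ₀ := by
      intro θ
      rw [hO, Finset.mem_filter]
      constructor
      · exact fun h => h.2
      · rintro ⟨σ, rfl⟩
        exact ⟨(rm14_mem hG).2 ((kum_eval_gal (k := k) (F := F) (P := P) σ).2 h0), σ, rfl⟩
    have hsep' : (cOver k F L Ω P).Separable := hsep.map
    obtain ⟨u, hu, hou⟩ := exists_moving (N := ℓ) hsep' O (fun θ hθ => by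
      obtain ⟨σ, rfl⟩ := (hOmem θ).1 hθ
      exact (kum_eval_gal (k := k) (F := F) (P := P) σ).2 h0) ⟨θ₀, (hOmem _).2 ⟨1, rfl⟩⟩
    have hst : IsStable (div u) := by
      intro σ
      rw [← div_symU, hu (toSym P (galA k F σ)) ?_]
      ext θ
      rw [Finset.mem_image]
      constructor
      · rintro ⟨θ', hθ', rfl⟩
        obtain ⟨τ, rfl⟩ := (hOmem θ').1 hθ'
        exact (hOmem _).2 ⟨σ * τ, rfl⟩
      · intro hθ
        obtain ⟨τ, rfl⟩ := (hOmem θ).1 hθ
        exact ⟨(σ⁻¹ * τ) θ₀, (hOmem _).2 ⟨_, rfl⟩, σ.apply_symm_apply (τ θ₀)⟩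
    have hat : ∀ θ, (cOver k F L Ω P).eval θ = 0 → atR (div u) θ = if θ ∈ O then 1 else 0 := by
      intro θ hθ
      unfold atR
      rw [dif_pos hθ, div_apply]
      exact hou _ rfl
    have hconst : ∀ θ ∈ O, atR D θ = atR D θ₀ := by
      intro θ hθ
      obtain ⟨σ, rfl⟩ := (hOmem θ).1 hθ
      exact sym_atR (toSym P (galA k F σ)) D (hD σ) θ₀
    set D₁ : Pt ℓ (cOver k F L Ω P) →₀ ℤ := D - atR D θ₀ • div u with hD₁
    have hD₁at : ∀ θ, (cOver k F L Ω P).eval θ = 0 → atR D₁ θ = if θ ∈ O then 0 else atR D θ := by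
      intro θ hθ
      have h1 : atR (atR D θ₀ • div u) θ = atR D θ₀ * atR (div u) θ := by
        unfold atR
        rw [dif_pos hθ, dif_pos hθ, Finsupp.smul_apply, smul_eq_mul]
      rw [hD₁, R21_atR_sub, h1, hat θ hθ]
      split_ifs with hx
      · rw [hconst θ hx, mul_one, sub_self]
      · rw [mul_zero, sub_zero]
    have hst₁ : IsStable D₁ := by
      refine IsStable.of_apply fun σ Q => ?_
      rw [hD₁, Finsupp.sub_apply, Finsupp.sub_apply, Finsupp.smul_apply, Finsupp.smul_apply, hD.apply, hst.apply]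
    obtain ⟨D', h1, h2, h3⟩ := ih D₁ hst₁ (by
      have h4 : ((cOver k F L Ω P).roots.toFinset.filter fun θ => atR D₁ θ ≠ 0) ⊂
          ((cOver k F L Ω P).roots.toFinset.filter fun θ => atR D θ ≠ 0) := by
        rw [Finset.ssubset_iff_of_subset]
        · refine ⟨θ₀, ?_, ?_⟩
          · rw [Finset.mem_filter]
            exact ⟨(rm14_mem hG).2 h0, he⟩
          · rw [Finset.mem_filter]
            rintro ⟨-, h⟩
            exact h (by rw [hD₁at θ₀ h0, if_pos ((hOmem θ₀).2 ⟨1, rfl⟩)])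
        · intro θ hθ
          rw [Finset.mem_filter] at hθ ⊢
          obtain ⟨h5, h6⟩ := hθ
          refine ⟨h5, fun h => h6 ?_⟩
          rw [hD₁at θ ((rm14_mem hG).1 h5), h, ite_self]
      have h5 := Finset.card_lt_card h4
      omega)
    refine ⟨D', ?_, h2, h3⟩
    rw [h1, hD₁, map_sub, map_zsmul, cl_div, smul_zero, sub_zero]

/-- Each class fixed by the Galois group contains an invariant divisor without ramified points. -/
theorem exists_stable_unramE (H : LHyp ℓ k F L P ζ) (hsep : (curveL k F L P).Separable)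
    (R : Jac ℓ (cOver k F L Ω P)) (hR : ∀ σ : Ω ≃ₐ[L] Ω, symJ (toSym P (galA k F σ)) R = R) :
    ∃ D : Pt ℓ (cOver k F L Ω P) →₀ ℤ, cl D = R ∧ IsStable D ∧
      ∀ θ, (cOver k F L Ω P).eval θ = 0 → atR D θ = 0 := by
  have hp : Fact ℓ.Prime := ⟨H.prime⟩
  have hζ' : IsPrimitiveRoot (zA F L Ω ζ) ℓ := zA_prim H
  obtain ⟨D, hD, hDσ⟩ := exists_stable (zA F L Ω ζ) hζ' (Set.range fun σ : Ω ≃ₐ[L] Ω => toSym P (galA k F σ)) R
    (by
      rintro _ ⟨σ, rfl⟩
      exact hR σ)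
  obtain ⟨D', h1, h2, h3⟩ := exists_unram H hsep _ D (fun σ => hDσ _ ⟨σ, rfl⟩) le_rfl
  exact ⟨D', h1.trans hD, h2, h3⟩

/-- The product over the orbit of a point. -/
lemma pt_orbitE (H : LHyp ℓ k F L P ζ)
    (O : Finset (Pt ℓ (cOver k F L Ω P))) (P₀ : Pt ℓ (cOver k F L Ω P))
    (hO : ∀ Q, Q ∈ O ↔ ∃ σ : Ω ≃ₐ[L] Ω, Q = P₀.sym (toSym P (galA k F σ)))
    (hx₀ : (cOver k F L Ω P).eval P₀.x ≠ 0) :
    QVE ℓ (curveL k F L P) (fun θ => ∏ Q ∈ O, (θ - Q.x)) := by
  have hA : IsAlgClosed Ω := IsAlgClosure.isAlgClosed L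
  have hB : Algebra.IsAlgebraic L Ω := IsAlgClosure.isAlgebraic
  have hN : Normal L Ω := IsAlgClosure.normal L Ω
  have hζ' : IsPrimitiveRoot (zA F L Ω ζ) ℓ := zA_prim H
  have hint : IsIntegral L P₀.x := (Algebra.IsAlgebraic.isAlgebraic P₀.x).isIntegral
  have hp : Fact ℓ.Prime := ⟨H.prime⟩
  have hNZ : NeZero ℓ := ⟨H.prime.ne_zero⟩
  have hcov : ∀ a : Ω, (cOver k F L Ω P).eval a = aeval a (curveL k F L P) := fun a =>
    eval_map_algebraMap _ _
  have hy₀ : P₀.y ≠ 0 := by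
    intro h
    apply hx₀
    rw [← P₀.eq, h, zero_pow H.prime.ne_zero]
  have hsx : ∀ (σ : Ω ≃ₐ[L] Ω) (Q : Pt ℓ (cOver k F L Ω P)), (Q.sym (toSym P (galA k F σ))).x = σ Q.x :=
    fun _ _ => rfl
  have hsy : ∀ (σ : Ω ≃ₐ[L] Ω) (Q : Pt ℓ (cOver k F L Ω P)), (Q.sym (toSym P (galA k F σ))).y = σ Q.y :=
    fun _ _ => rfl
  set Y : Finset Ω := O.image Pt.x with hYdef
  have hY : ∀ x, x ∈ Y ↔ ∃ σ : Ω ≃ₐ[L] Ω, x = σ P₀.x := by
    intro x
    rw [hYdef, Finset.mem_image]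
    constructor
    · rintro ⟨Q, hQ, rfl⟩
      obtain ⟨σ, rfl⟩ := (hO Q).1 hQ
      exact ⟨σ, rfl⟩
    · rintro ⟨σ, rfl⟩
      exact ⟨_, (hO _).2 ⟨σ, rfl⟩, rfl⟩
  obtain ⟨q, hq, hprod⟩ := pt_minpoly (pt_ringExpChar H) P₀.x Y hY
  have hne : ∀ θ : Ω, aeval θ (curveL k F L P) = 0 → aeval θ (minpoly L P₀.x) ≠ 0 := by
    intro θ h0
    rw [← hcov] at h0
    rw [hprod]
    refine pow_ne_zero _ (Finset.prod_ne_zero_iff.2 fun x hx => ?_)
    obtain ⟨σ, rfl⟩ := (hY x).1 hx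
    rw [sub_ne_zero]
    rintro h
    apply hx₀
    rw [h] at h0
    exact (kum_eval_gal (k := k) (F := F) (P := P) σ).1 h0
  by_cases hfix : ∀ σ : Ω ≃ₐ[L] Ω, σ P₀.x = P₀.x → σ P₀.y = P₀.y
  · -- the projection of the orbit is injective
    have hinj : ∀ Q ∈ O, ∀ Q' ∈ O, Q.x = Q'.x → Q = Q' := by
      intro Q hQ Q' hQ' h
      obtain ⟨σ, rfl⟩ := (hO Q).1 hQ
      obtain ⟨τ, rfl⟩ := (hO Q').1 hQ'
      have h1 : σ P₀.x = τ P₀.x := h
      have h2 : (τ⁻¹ * σ) P₀.x = P₀.x := by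
        show τ.symm (σ P₀.x) = P₀.x
        rw [h1, τ.symm_apply_apply]
      have h3 : τ.symm (σ P₀.y) = P₀.y := hfix _ h2
      refine Pt.ext h1 ?_
      show σ P₀.y = τ P₀.y
      rw [← h3, τ.apply_symm_apply, h3]
    have h1 : ∀ θ, ∏ Q ∈ O, (θ - Q.x) = ∏ x ∈ Y, (θ - x) := by
      intro θ
      rw [hYdef, Finset.prod_image hinj]
    obtain ⟨r, hr, hyr⟩ := kum_fixed (k := k) (F := F) (P := P) (θ₀ := P₀.x) H (x := P₀.y) hfix
    have hyL : P₀.y ∈ IntermediateField.adjoin L {P₀.x} := by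
      refine kum_mem _ hy₀ hr ?_ hyr
      rw [P₀.eq]
      rw [hcov]
      have h3 : (IntermediateField.adjoin L {P₀.x}).val ⟨P₀.x, IntermediateField.mem_adjoin_simple_self L P₀.x⟩ = P₀.x := rfl
      rw [← h3, aeval_algHom_apply]
      exact Subtype.property _
    obtain ⟨b, hb⟩ : ∃ b : L[X], P₀.y = aeval P₀.x b := by
      have h2 : P₀.y ∈ (IntermediateField.adjoin L {P₀.x}).toSubalgebra := hyL
      rw [IntermediateField.adjoin_simple_toSubalgebra_of_isAlgebraic hint.isAlgebraic,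
        Algebra.adjoin_singleton_eq_range_aeval] at h2
      obtain ⟨A, hA⟩ := h2
      exact ⟨A, hA.symm⟩
    have hdvd : minpoly L P₀.x ∣ b ^ ℓ - curveL k F L P := by
      apply minpoly.dvd
      rw [map_sub, map_pow, ← hb, P₀.eq, sub_eq_zero]
      exact hcov _
    refine QVE.of_pow hq ((QVE.aeval (Ω := Ω) (minpoly.monic hint) hdvd hne).congr fun θ _ => ?_)
    rw [h1, hprod]
  · -- the orbit is a union of full fibres
    push Not at hfix
    obtain ⟨σ₀, hσx, hσy⟩ := hfix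
    set ω : Ω := σ₀ P₀.y / P₀.y with hω
    have hω1 : ω ^ ℓ = 1 := by
      rw [hω, div_pow, ← map_pow, P₀.eq]
      have h3 : σ₀ ((cOver k F L Ω P).eval P₀.x) = (cOver k F L Ω P).eval P₀.x := by
        rw [hcov]
        have h4 := aeval_algHom_apply (σ₀ : Ω →ₐ[L] Ω) P₀.x (curveL k F L P)
        have h5 : (σ₀ : Ω →ₐ[L] Ω) P₀.x = P₀.x := hσx
        rw [h5] at h4
        exact h4.symm
      rw [h3, div_self hx₀]
    have hω2 : ω ≠ 1 := by
      rw [hω, Ne, div_eq_one_iff_eq hy₀]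
      exact hσy
    have hωp : IsPrimitiveRoot ω ℓ := by
      have h2 : orderOf ω = ℓ := orderOf_eq_prime hω1 hω2
      rw [← h2]
      exact IsPrimitiveRoot.orderOf ω
    obtain ⟨j, -, hj⟩ := hζ'.eq_pow_of_pow_eq_one hω1
    have hωσ : ∀ σ : Ω ≃ₐ[L] Ω, σ ω = ω := by
      intro σ
      rw [← hj, map_pow, kum_zA]
    have hpow : ∀ i : ℕ, (σ₀ ^ i) P₀.x = P₀.x ∧ (σ₀ ^ i) P₀.y = ω ^ i * P₀.y := by
      intro i
      induction i with
      | zero => exact ⟨rfl, by rw [pow_zero, pow_zero, one_mul]; rfl⟩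
      | succ i ih =>
        constructor
        · rw [pow_succ']
          show σ₀ ((σ₀ ^ i) P₀.x) = P₀.x
          rw [ih.1, hσx]
        · rw [pow_succ']
          show σ₀ ((σ₀ ^ i) P₀.y) = ω ^ (i + 1) * P₀.y
          rw [ih.2, map_mul, map_pow, hωσ, pow_succ, mul_assoc, hω, div_mul_cancel₀ _ hy₀]
    -- the fibres
    have hfib : ∀ x ∈ Y, (O.filter fun Q => Q.x = x).card = ℓ := by
      intro x hx
      obtain ⟨τ, rfl⟩ := (hY x).1 hx
      set R : ℕ → Pt ℓ (cOver k F L Ω P) := fun i => P₀.sym (toSym P (galA k F (τ * σ₀ ^ i))) with hR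
      have hRx : ∀ i, (R i).x = τ P₀.x := by
        intro i
        show τ ((σ₀ ^ i) P₀.x) = τ P₀.x
        rw [(hpow i).1]
      have hRy : ∀ i, (R i).y = ω ^ i * τ P₀.y := by
        intro i
        show τ ((σ₀ ^ i) P₀.y) = ω ^ i * τ P₀.y
        rw [(hpow i).2, map_mul, map_pow, hωσ]
      have hτy : τ P₀.y ≠ 0 := (map_ne_zero_iff τ τ.injective).2 hy₀
      have h1 : (O.filter fun Q => Q.x = τ P₀.x) = (Finset.range ℓ).image R := by
        ext Q
        rw [Finset.mem_filter, Finset.mem_image]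
        constructor
        · rintro ⟨-, hQx⟩
          have h2 : (Q.y / τ P₀.y) ^ ℓ = 1 := by
            have h3 : (τ P₀.y) ^ ℓ = (cOver k F L Ω P).eval (τ P₀.x) :=
              (P₀.sym (toSym P (galA k F τ))).eq
            rw [div_pow, Q.eq, h3, hQx, div_self]
            rw [← h3]
            exact pow_ne_zero _ hτy
          obtain ⟨i, hi, hi2⟩ := hωp.eq_pow_of_pow_eq_one h2
          refine ⟨i, Finset.mem_range.2 hi, ?_⟩
          refine Pt.ext ?_ ?_
          · rw [hRx, hQx]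
          · rw [hRy, hi2, div_mul_cancel₀ _ hτy]
        · rintro ⟨i, -, rfl⟩
          exact ⟨(hO _).2 ⟨_, rfl⟩, hRx i⟩
      rw [h1, Finset.card_image_of_injOn, Finset.card_range]
      intro i hi i' hi' h
      have h2 : ω ^ i = ω ^ i' := by
        have h3 := congrArg Pt.y h
        rw [hRy, hRy] at h3
        exact mul_right_cancel₀ hτy h3
      exact hωp.pow_inj (Finset.mem_range.1 (Finset.mem_coe.1 hi)) (Finset.mem_range.1 (Finset.mem_coe.1 hi')) h2
    have h1 : ∀ θ, ∏ Q ∈ O, (θ - Q.x) = (∏ x ∈ Y, (θ - x)) ^ ℓ := by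
      intro θ
      have h2 := Finset.prod_comp (s := O) (fun x : Ω => θ - x) Pt.x
      rw [h2, ← Finset.prod_pow]
      refine Finset.prod_congr rfl fun x hx => ?_
      rw [hfib x hx]
    refine QVE.of_pow hq ((QVE.powl (Ω := Ω) hne).congr fun θ _ => ?_)
    rw [h1, hprod, ← pow_mul, ← pow_mul, mul_comm]

/-- The values of `uval`. -/
theorem qve_uval (H : LHyp ℓ k F L P ζ)
    (D : Pt ℓ (cOver k F L Ω P) →₀ ℤ) (hD : IsStable D)
    (hat : ∀ θ, (cOver k F L Ω P).eval θ = 0 → atR D θ = 0) :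
    QVE ℓ (curveL k F L P) (uval D) := by
  have hcov : ∀ a : Ω, (cOver k F L Ω P).eval a = aeval a (curveL k F L P) := fun a =>
    eval_map_algebraMap _ _
  induction hn : D.support.card using Nat.strong_induction_on generalizing D with
  | _ n ih =>
    by_cases hD0 : D = 0
    · refine QVE.one.congr fun θ _ => ?_
      rw [hD0]
      unfold uval
      rw [Finsupp.prod_zero_index]
    · obtain ⟨P₀, hP₀⟩ := Finsupp.support_nonempty_iff.2 hD0
      have hD₀ : D P₀ ≠ 0 := Finsupp.mem_support_iff.1 hP₀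
      set p : Pt ℓ (cOver k F L Ω P) → Prop := fun Q => ∃ σ : Ω ≃ₐ[L] Ω, Q = P₀.sym (toSym P (galA k F σ)) with hp
      have hpσ : ∀ (σ : Ω ≃ₐ[L] Ω) (Q : Pt ℓ (cOver k F L Ω P)), p (Q.sym (toSym P (galA k F σ))) ↔ p Q := by
        intro σ Q
        constructor
        · rintro ⟨τ, hτ⟩
          refine ⟨σ⁻¹ * τ, ?_⟩
          rw [sym_mul_apply, ← hτ, ← sym_mul_apply, inv_mul_cancel, sym_one_apply]
        · rintro ⟨τ, rfl⟩
          exact ⟨σ * τ, (sym_mul_apply σ τ P₀).symm⟩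
      have hsplit : D.filter p + D.filter (fun Q => ¬ p Q) = D := Finsupp.filter_add_filter_not D p
      have hat' : ∀ (r : Pt ℓ (cOver k F L Ω P) → Prop) (hr : DecidablePred r) (θ : Ω),
          (cOver k F L Ω P).eval θ = 0 → atR (D.filter r) θ = 0 := by
        intro r hr' θ hθ
        have h1 := hat θ hθ
        unfold atR at h1 ⊢
        rw [dif_pos hθ] at h1 ⊢
        by_cases hr : r ⟨θ, 0, by rw [zero_pow hG.ne, hθ]⟩
        · rw [Finsupp.filter_apply_pos r D hr, h1]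
        · rw [Finsupp.filter_apply_neg r D hr]
      have hst : IsStable (D.filter fun Q => ¬ p Q) := by
        refine IsStable.of_apply fun σ Q => ?_
        by_cases hQ : p Q
        · rw [Finsupp.filter_apply_neg _ D (not_not.2 ((hpσ σ Q).2 hQ)),
            Finsupp.filter_apply_neg _ D (not_not.2 hQ)]
        · rw [Finsupp.filter_apply_pos _ D (mt (hpσ σ Q).1 hQ), Finsupp.filter_apply_pos _ D hQ, hD.apply]
      have hlt : (D.filter fun Q => ¬ p Q).support.card < n := by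
        rw [← hn]
        apply Finset.card_lt_card
        rw [Finset.ssubset_iff_of_subset (by
          intro Q hQ
          rw [Finsupp.support_filter, Finset.mem_filter] at hQ
          exact hQ.1)]
        refine ⟨P₀, hP₀, ?_⟩
        rw [Finsupp.support_filter, Finset.mem_filter]
        rintro ⟨-, h⟩
        exact h ⟨1, rfl⟩
      have h2 := ih _ hlt (D.filter fun Q => ¬ p Q) hst (hat' _ _) rfl
      have hval : ∀ Q ∈ (D.filter p).support, (D.filter p) Q = D P₀ := by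
        intro Q hQ
        rw [Finsupp.support_filter, Finset.mem_filter] at hQ
        rw [Finsupp.filter_apply_pos p D hQ.2]
        obtain ⟨σ, hσ⟩ := hQ.2
        rw [hσ, hD.apply]
      have h4 := (QVE.zpow (pt_orbitE H (D.filter p).support P₀ (fun Q => by
        rw [Finsupp.support_filter, Finset.mem_filter]
        constructor
        · exact fun h => h.2
        · rintro ⟨σ, rfl⟩
          refine ⟨?_, ⟨σ, rfl⟩⟩
          rw [Finsupp.mem_support_iff, hD.apply]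
          exact hD₀) (pt_unram D hat hP₀)) (D P₀)).mul h2
      refine h4.congr fun θ h0 => ?_
      rw [← hcov] at h0
      conv_rhs => rw [← hsplit]
      rw [uval_add, pt_uval _ (hat' p _) h0, ← Finset.prod_zpow]
      congr 1
      unfold Finsupp.prod
      exact Finset.prod_congr rfl fun Q hQ => by rw [hval Q hQ]

/-- The element attached to a Tate cocycle which is a coboundary in the Jacobian is in the group of the points. -/
theorem mem_points (H : LHyp ℓ k F L P ζ) (hζ : (zA F L Ω ζ) ^ ℓ = 1) (hsep : (curveL k F L P).Separable)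
    (hmon : (curveL k F L P).Monic) {c : Coch ℓ k F L Ω P} (hc : TrJ c) {A : L[X]}
    (hk : IsKumE ζ (fun σ => vJ (zA F L Ω ζ) hζ (c 1 σ)) A) {u : (AdjoinRoot (curveL k F L P))ˣ}
    (hu : (u : AdjoinRoot (curveL k F L P)) = AdjoinRoot.mk (curveL k F L P) A) :
    u ∈ points ℓ (curveL k F L P) := by
  have hζ' : IsPrimitiveRoot (zA F L Ω ζ) ℓ := zA_prim H
  obtain ⟨B, hB⟩ := hc.2 1
  have hR : ∀ σ : Ω ≃ₐ[L] Ω, symJ (toSym P (galA k F σ)) (ℓ • B) = ℓ • B := by
    intro σ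
    have h1 := hc.1.smul 0 σ
    rw [hc.1.zero, zero_add, hB σ, smul_sub, sub_eq_zero, push_eq] at h1
    rw [map_nsmul, h1]
  obtain ⟨D, hD, hDs, hDa⟩ := exists_stable_unramE H hsep (ℓ • B) hR
  have h1 : vJ (zA F L Ω ζ) hζ B - zJ (zA F L Ω ζ) hζ (vJ (zA F L Ω ζ) hζ B) = cl D := by
    rw [hD]
    exact vJ_sub_zJ (zA F L Ω ζ) hζ' B
  have h2 := isKumF_cl H hζ hsep hmon _ D h1 hDs hDa
  have h3 : IsKumF ζ (fun σ => vJ (zA F L Ω ζ) hζ (c 1 σ)) (uval D) := by
    refine Eq.mp (congrArg (fun a => IsKumF ζ a _) ?_) h2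
    funext σ
    rw [hB σ, vJ_sub, push_eq, vJ_symJ _ _ _ (zA_fixed ζ (galA k F σ))]
  have h4 : IsKumF ζ (fun σ => vJ (zA F L Ω ζ) hζ (c 1 σ)) (fun θ => aeval θ A) := hk
  obtain ⟨q, hq, W, hW⟩ := isKumF_unique H hsep h4 h3
  refine QVE.mem (Ω := Ω) hsep hu (QVE.of_pow hq ?_)
  refine ((QVE.powl (Ω := Ω) (W := W) fun θ hθ => (hW θ hθ).1).mul ((qve_uval H D hDs hDa).pow q)).congr
    fun θ hθ => ?_
  exact (hW θ hθ).2.symm

end

end Pool.Agent.Lib.MP_89bcae_ag.Ze
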