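import Mathlib
import Pool.Agent.Lib.MP_89bcae_ag.Zq.Pt2
import Pool.Agent.Lib.MP_89bcae_ag.Ze.Kum
import Pool.Agent.Lib.MP_89bcae_ag.Ze.DefsR

/-!
# The cocycles attached to the divisors `h(x) = 0`, `y = b(x)`, for reducible curves
-/

attribute [local instance 100000] Pool.Agent.Lib.MP_89bcae_ag.Brt.tffFields
attribute [local instance 100000] Pool.Agent.Lib.MP_89bcae_ag.Wt.ifrNF Pool.Agent.Lib.MP_89bcae_ag.Wt.iddNF

open Polynomial IsDedekindDomain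

open scoped Classical

namespace Pool.Agent.Lib.MP_89bcae_ag.Ze

open Pool.Agent.Lib.MP_89bcae_ag.Wt Pool.Agent.Lib.MP_89bcae_ag.Wt.Lns

open Pool.Agent.Lib.MP_89bcae_ag.Zs (kum_eval_gal kum_zA)

open Pool.Agent.Lib.MP_89bcae_ag.Zq (TrJ ptDiv mapDomain_ptDiv uval_ptDiv atR_ptDiv trJ_cob exists_exponent prod_zpow
  prod_sub prod_roots gal_roots)

section

variable {k F L Ω : Type} [Field k] [Field F] [Algebra k F] [Field L] [Algebra F[X] L]
  [Field Ω] [Algebra L Ω] [IsAlgClosure k F] [IsFractionRing F[X] L] [IsAlgClosure L Ω]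
  {ℓ : ℕ} {P : k[X][X]} {ζ : k} [hG : IsGood ℓ (cOver k F L Ω P)]

/-- Let `h` be a monic polynomial over `L` which divides `b ^ ℓ - f`. There is a Tate cocycle which is a coboundary in the
Jacobian such that the polynomial attached to it is `h`. -/
theorem exists_trJE (H : LHyp ℓ k F L P ζ) (hsep : (curveL k F L P).Separable) (hmon : (curveL k F L P).Monic)
    (hζ : (zA F L Ω ζ) ^ ℓ = 1) {h b : L[X]} (hm : h.Monic) (hd : h ∣ b ^ ℓ - curveL k F L P)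
    (hneθ : ∀ θ : Ω, (cOver k F L Ω P).eval θ = 0 → aeval θ h ≠ 0) :
    ∃ c : Coch ℓ k F L Ω P, TrJ c ∧ IsKumE ζ (fun σ => vJ (zA F L Ω ζ) hζ (c 1 σ)) h := by
  have hΩ : IsAlgClosed Ω := IsAlgClosure.isAlgClosed L
  have hF : IsAlgClosed F := IsAlgClosure.isAlgClosed k
  have hζ' : IsPrimitiveRoot (zA F L Ω ζ) ℓ := zA_prim H
  have hζ0 : zA F L Ω ζ ≠ 0 := hζ'.ne_zero H.prime.ne_zero
  -- the points
  have hsym : ∀ σ : Ω ≃ₐ[L] Ω, ((toSym P (galA k F σ) : Sym (cOver k F L Ω P)) : Ω ≃+* Ω) = (σ : Ω ≃+* Ω) :=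
    fun σ => rfl
  have hmapb : ∀ (g : L[X]) (σ : Ω ≃ₐ[L] Ω) (a : Ω), σ (aeval a g) = aeval (σ a) g := fun g σ a =>
    (aeval_algHom_apply (σ : Ω →ₐ[L] Ω) a g).symm
  have hcov : ∀ a : Ω, (cOver k F L Ω P).eval a = aeval a (curveL k F L P) := fun a =>
    eval_map_algebraMap _ _
  obtain ⟨y₀, hy₀⟩ := IsAlgClosed.exists_pow_nat_eq ((cOver k F L Ω P).eval 0) H.prime.pos
  let pt : Ω → Pt ℓ (cOver k F L Ω P) := fun a =>
    if h : (aeval a b) ^ ℓ = (cOver k F L Ω P).eval a then ⟨a, aeval a b, h⟩ else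
      ⟨0, y₀, hy₀⟩
  set s : Multiset Ω := (h.map (algebraMap L Ω)).roots with hs
  have hh0 : h.map (algebraMap L Ω) ≠ 0 := (hm.map _).ne_zero
  have hroot : ∀ a ∈ s, aeval a h = 0 := by
    intro a ha
    rw [hs, mem_roots hh0, IsRoot.def, eval_map_algebraMap] at ha
    exact ha
  have hbf : ∀ a ∈ s, (aeval a b) ^ ℓ = (cOver k F L Ω P).eval a := by
    intro a ha
    obtain ⟨q, hq⟩ := hd
    have h1 := congrArg (aeval a) hq
    rw [map_sub, map_pow, map_mul, hroot a ha, zero_mul, sub_eq_zero] at h1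
    rw [hcov]
    exact h1
  have hpt : ∀ a, ∀ h : (aeval a b) ^ ℓ = (cOver k F L Ω P).eval a, pt a = ⟨a, aeval a b, h⟩ :=
    fun a h => dif_pos h
  have hsx : ∀ θ, (cOver k F L Ω P).eval θ = 0 → ∀ a ∈ s, (pt a).x = a ∧ a ≠ θ := by
    intro θ hθ a ha
    refine ⟨by rw [hpt a (hbf a ha)], ?_⟩
    rintro rfl
    exact hneθ a hθ (hroot a ha)
  set D : Pt ℓ (cOver k F L Ω P) →₀ ℤ := ptDiv pt s with hD
  have hDσ : ∀ σ : Ω ≃ₐ[L] Ω, D.mapDomain (Pt.sym (toSym P (galA k F σ))) = D := by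
    intro σ
    refine mapDomain_ptDiv _ pt s (gal_roots σ h) fun a ha => ?_
    have h1 : (aeval (σ a) b) ^ ℓ = (cOver k F L Ω P).eval (σ a) := by
      rw [hcov, ← hmapb, ← hmapb, ← map_pow, ← hcov, hbf a ha]
    rw [hpt a (hbf a ha)]
    show _ = pt (σ a)
    rw [hpt _ h1]
    ext
    · rfl
    · exact hmapb b σ a
  have hval : ∀ θ, (cOver k F L Ω P).eval θ = 0 → uval D θ = aeval θ h := by
    intro θ hθ
    rw [hD, uval_ptDiv pt s θ (hsx θ hθ), ← eval_map_algebraMap,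
      (IsAlgClosed.splits (h.map (algebraMap L Ω))).eval_eq_prod_roots_of_monic (hm.map _)]
  -- the points `A n`
  choose dv hdv using fun Q : JacOver ℓ (curveL k F L P) Ω =>
    exists_smul_eq H.prime (zA F L Ω ζ) hζ' Q
  let A : ℕ → JacOver ℓ (curveL k F L P) Ω := fun n => dv^[n] (cl D)
  have hA : ∀ n, ℓ • A (n + 1) = A n := by
    intro n
    show ℓ • dv^[n + 1] (cl D) = dv^[n] (cl D)
    rw [Function.iterate_succ_apply']
    exact hdv _
  have hA0 : ∀ σ : Ω ≃ₐ[L] Ω, symJ (toSym P (galA k F σ)) (A 0) = A 0 := by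
    intro σ
    show symJ (toSym P (galA k F σ)) (cl D) = cl D
    rw [symJ_cl, hDσ]
  refine ⟨_, trJ_cob A hA hA0, ?_⟩
  obtain ⟨z, hz, hkum⟩ := kummer_rm (zA F L Ω ζ) hζ' (vJ (zA F L Ω ζ) hζ (A 1)) D (by
    rw [vJ_sub_zJ (zA F L Ω ζ) hζ' (A 1)]
    exact hA 0)
  have hz1 : ∀ θ, (cOver k F L Ω P).eval θ = 0 → z θ ≠ 0 := fun θ hθ => (hz θ hθ).1
  have hz2 : ∀ θ, (cOver k F L Ω P).eval θ = 0 → z θ ^ ℓ = aeval θ h := by
    intro θ hθ
    rw [(hz θ hθ).2, hval θ hθ, hD, atR_ptDiv pt s θ (hsx θ hθ), zpow_zero, one_mul]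
  refine ⟨z, fun θ hθ => ⟨hz1 θ hθ, hz2 θ hθ⟩, fun σ => ?_⟩
  obtain ⟨n, hn⟩ := exists_exponent H σ hz1 (fun θ hθ => by
    rw [← map_pow, hz2 θ hθ, hz2 _ ((kum_eval_gal σ).2 hθ), hmapb])
  refine ⟨n, hn, ?_, ?_⟩
  · show vJ (zA F L Ω ζ) hζ (symJ (toSym P (galA k F σ)) (A 1) - A 1) = _
    rw [vJ_sub, vJ_symJ (zA F L Ω ζ) hζ _ (zA_fixed ζ (galA k F σ))]
    exact hkum _ (zA_fixed ζ (galA k F σ)) (hDσ σ) n hn
  · set S : Finset Ω := (cOver k F L Ω P).roots.toFinset with hS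
    have hmem : ∀ θ, θ ∈ S ↔ (cOver k F L Ω P).eval θ = 0 := fun θ => rm14_mem hG
    have hmonΩ : (cOver k F L Ω P).Monic := hmon.map _
    -- the root of the sign
    obtain ⟨e₀, he₀⟩ := IsAlgClosed.exists_pow_nat_eq ((-1 : F) ^ (cOver k F L Ω P).natDegree) H.prime.pos
    set e : L := algebraMap F[X] L (C e₀) with he
    have heℓ : (algebraMap L Ω e) ^ ℓ = (-1) ^ (cOver k F L Ω P).natDegree := by
      rw [he, ← map_pow, ← map_pow, ← map_pow, he₀, map_pow, map_pow, map_pow]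
      simp
    set Y : Ω := (s.map fun a => algebraMap L Ω e * aeval a b).prod with hY
    set W : Ω := ∏ θ ∈ S, z θ with hW
    have hWY : W ^ ℓ = Y ^ ℓ := by
      rw [hW, ← Finset.prod_pow, Finset.prod_congr rfl fun θ hθ => hz2 θ ((hmem θ).1 hθ), hY,
        ← Multiset.prod_map_pow]
      have h1 : ∀ θ, aeval θ h = (s.map fun a => θ - a).prod := by
        intro θ
        rw [← eval_map_algebraMap,
          (IsAlgClosed.splits (h.map (algebraMap L Ω))).eval_eq_prod_roots_of_monic (hm.map _)]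
      rw [Finset.prod_congr rfl fun θ _ => h1 θ, prod_sub]
      congr 1
      refine Multiset.map_congr rfl fun a ha => ?_
      rw [hS, prod_roots hmonΩ hsep.map, _root_.mul_pow, heℓ, hbf a ha]
    have hW0 : W ≠ 0 := Finset.prod_ne_zero_iff.mpr fun θ hθ => hz1 θ ((hmem θ).1 hθ)
    have hY0 : Y ≠ 0 := by
      intro h1
      rw [h1, zero_pow H.prime.ne_zero] at hWY
      exact hW0 (pow_eq_zero_iff H.prime.ne_zero |>.1 hWY)
    obtain ⟨i, hi⟩ := Sup.G13_exists_zpow H.prime.ne_zero hζ' hY0 hWY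
    have hYσ : σ Y = Y := by
      rw [hY, map_multiset_prod, Multiset.map_map]
      conv_rhs => rw [hs, ← gal_roots σ h, Multiset.map_map]
      congr 1
      refine Multiset.map_congr rfl fun a _ => ?_
      show σ (algebraMap L Ω e * aeval a b) = algebraMap L Ω e * aeval (σ a) b
      rw [map_mul, σ.commutes, hmapb]
    have hWσ : σ W = W := by
      rw [hi, map_mul, map_zpow₀, kum_zA, hYσ]
    have hWσ' : σ W = zA F L Ω ζ ^ (∑ θ ∈ S, n θ) * W := by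
      have hperm : ∀ φ : Ω → Ω, ∏ θ ∈ S, φ (σ θ) = ∏ θ ∈ S, φ θ := by
        intro φ
        refine Finset.prod_equiv (σ : Ω ≃ Ω) (fun θ => ?_) fun _ _ => rfl
        rw [hmem, hmem]
        exact (kum_eval_gal σ).symm
      rw [hW, map_prod, Finset.prod_congr rfl fun θ hθ => hn θ ((hmem θ).1 hθ),
        Finset.prod_mul_distrib, hperm (fun θ => zA F L Ω ζ ^ n θ), hperm z]
      congr 1
      exact prod_zpow hζ0 n S
    rw [hWσ'] at hWσ
    have h1 : zA F L Ω ζ ^ (∑ θ ∈ S, n θ) = 1 := by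
      have h2 := mul_right_cancel₀ hW0 (hWσ.trans (one_mul W).symm)
      exact h2
    exact (hζ'.zpow_eq_one_iff_dvd _).1 h1

lemma trJ_add' {c c' : Coch ℓ k F L Ω P} (hc : TrJ c) (hc' : TrJ c') : TrJ (c + c') := by
  refine ⟨tc_add hc.1 hc'.1, fun n => ?_⟩
  obtain ⟨A, hA⟩ := hc.2 n
  obtain ⟨A', hA'⟩ := hc'.2 n
  refine ⟨A + A', fun g => ?_⟩
  rw [Pi.add_apply, Pi.add_apply, hA, hA', map_add]
  abel

lemma trJ_neg' {c : Coch ℓ k F L Ω P} (hc : TrJ c) : TrJ (-c) := by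
  refine ⟨tc_neg hc.1, fun n => ?_⟩
  obtain ⟨A, hA⟩ := hc.2 n
  refine ⟨-A, fun g => ?_⟩
  rw [Pi.neg_apply, Pi.neg_apply, hA, map_neg]
  abel

lemma trJ_zero' : TrJ (0 : Coch ℓ k F L Ω P) := by
  refine ⟨tc_zero, fun n => ⟨0, fun g => ?_⟩⟩
  rw [map_zero, sub_zero]
  rfl

/-- A unit of the algebra does not vanish at the roots. -/
lemma aeval_ne_zero_of_unit {A : L[X]} {u : (AdjoinRoot (curveL k F L P))ˣ}
    (hu : (u : AdjoinRoot (curveL k F L P)) = AdjoinRoot.mk (curveL k F L P) A) {θ : Ω}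
    (hθ : (cOver k F L Ω P).eval θ = 0) : aeval θ A ≠ 0 := by
  have h1 : aeval θ (curveL k F L P) = 0 := kumE_root.1 hθ
  have h2 : (AdjoinRoot.lift (algebraMap L Ω) θ h1 : AdjoinRoot (curveL k F L P) →+* Ω)
      (AdjoinRoot.mk (curveL k F L P) A) = aeval θ A := AdjoinRoot.lift_mk _ _
  rw [← h2, ← hu]
  exact (u.isUnit.map _).ne_zero

/-- The classes of the points are attached to Tate cocycles which are coboundaries in the Jacobian. -/
theorem kumE_of_mem_points (H : LHyp ℓ k F L P ζ) (hζ : (zA F L Ω ζ) ^ ℓ = 1) (hsep : (curveL k F L P).Separable)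
    (hmon : (curveL k F L P).Monic) {u : (AdjoinRoot (curveL k F L P))ˣ} (hu : u ∈ points ℓ (curveL k F L P)) :
    ∃ (c' : Coch ℓ k F L Ω P) (A : L[X]), TrJ c' ∧
      (u : AdjoinRoot (curveL k F L P)) = AdjoinRoot.mk (curveL k F L P) A ∧
      IsKumE ζ (fun σ => vJ (zA F L Ω ζ) hζ (c' 1 σ)) A := by
  have hζ' : IsPrimitiveRoot (zA F L Ω ζ) ℓ := zA_prim H
  have hζ0 : zA F L Ω ζ ≠ 0 := hζ'.ne_zero H.prime.ne_zero
  have hv0 : vJ (zA F L Ω ζ) hζ (0 : JacOver ℓ (curveL k F L P) Ω) = 0 := by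
    have h6 := vJ_smul (zA F L Ω ζ) hζ 0 (0 : JacOver ℓ (curveL k F L P) Ω)
    rwa [zero_smul, zero_smul] at h6
  have hvn : ∀ Q : JacOver ℓ (curveL k F L P) Ω, vJ (zA F L Ω ζ) hζ (-Q) = -vJ (zA F L Ω ζ) hζ Q := by
    intro Q
    rw [← zero_sub Q, vJ_sub, hv0, zero_sub]
  have hone : IsKumE ζ (fun σ => vJ (zA F L Ω ζ) hζ ((0 : Coch ℓ k F L Ω P) 1 σ)) 1 := by
    refine Eq.mp (congrArg (fun φ => IsKumE ζ φ _) ?_) (isKumE_zero (ℓ := ℓ) (P := P) (F := F) (L := L) (Ω := Ω) (ζ := ζ))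
    funext σ
    exact hv0.symm
  refine Subgroup.closure_induction (p := fun (u : (AdjoinRoot (curveL k F L P))ˣ) _ =>
    ∃ (c' : Coch ℓ k F L Ω P) (A : L[X]), TrJ c' ∧
      (u : AdjoinRoot (curveL k F L P)) = AdjoinRoot.mk (curveL k F L P) A ∧
      IsKumE ζ (fun σ => vJ (zA F L Ω ζ) hζ (c' 1 σ)) A) ?_ ?_ ?_ ?_ hu
  · rintro u (⟨w, rfl⟩ | ⟨h, b, hm, hd, hhu⟩)
    · obtain ⟨W, hW⟩ := AdjoinRoot.mk_surjective (w : AdjoinRoot (curveL k F L P))
      refine ⟨0, 1 * W ^ ℓ, trJ_zero', ?_, hone.mul_pow fun θ hθ => aeval_ne_zero_of_unit hW.symm hθ⟩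
      rw [one_mul, map_pow, hW, Units.val_pow_eq_pow_val]
    · obtain ⟨c, hc, hk⟩ := exists_trJE H hsep hmon hζ hm hd fun θ hθ => aeval_ne_zero_of_unit hhu hθ
      exact ⟨c, h, hc, hhu, hk⟩
  · exact ⟨0, 1, trJ_zero', by rw [Units.val_one, map_one], hone⟩
  · rintro u v _ _ ⟨c, A, hc, huA, hcu⟩ ⟨c', A', hc', hvA, hcv⟩
    refine ⟨c + c', A * A', trJ_add' hc hc', by rw [Units.val_mul, map_mul, huA, hvA], ?_⟩
    have h1 := hcu.add hζ0 hcv
    refine Eq.mp (congrArg (fun φ => IsKumE ζ φ _) ?_) h1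
    funext σ
    exact (vJ_add (zA F L Ω ζ) hζ _ _).symm
  · rintro u _ ⟨c, A, hc, huA, hcu⟩
    obtain ⟨A', hA'⟩ := AdjoinRoot.mk_surjective ((u⁻¹ : (AdjoinRoot (curveL k F L P))ˣ) : AdjoinRoot (curveL k F L P))
    refine ⟨-c, A', trJ_neg' hc, hA'.symm, ?_⟩
    have h1 := hcu.neg (A' := A') fun θ hθ => by
      have h2 : AdjoinRoot.mk (curveL k F L P) (A * A' - 1) = 0 := by
        rw [map_sub, map_mul, map_one, ← huA, hA', Units.mul_inv, sub_self]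
      have h3 := kumE_of_dvd (AdjoinRoot.mk_eq_zero.1 h2) hθ
      rw [map_sub, map_mul, map_one, sub_eq_zero] at h3
      exact h3
    refine Eq.mp (congrArg (fun φ => IsKumE ζ φ _) ?_) h1
    funext σ
    exact (hvn _).symm

end

end Pool.Agent.Lib.MP_89bcae_ag.Ze
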