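import Mathlib
import Pool.Agent.Lib.MP_89bcae_ag.Ze.Gal
import Pool.Agent.Lib.MP_89bcae_ag.Ze.PtT
import Pool.Agent.Lib.MP_89bcae_ag.Ze.Kum
import Pool.Agent.Lib.MP_89bcae_ag.Ze.H1
import Pool.Agent.Lib.MP_89bcae_ag.Ze.Rig
import Pool.Agent.Lib.MP_89bcae_ag.Ze.PtM

/-!
# The theorem relative to the classes of the points, for reducible curves
-/

attribute [local instance 100000] Pool.Agent.Lib.MP_89bcae_ag.Brt.tffFields
attribute [local instance 100000] Pool.Agent.Lib.MP_89bcae_ag.Wt.ifrNF Pool.Agent.Lib.MP_89bcae_ag.Wt.iddNF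

open Polynomial IsDedekindDomain

open scoped Classical

namespace Pool.Agent.Lib.MP_89bcae_ag.Ze

open Pool.Agent.Lib.MP_89bcae_ag.Wt Pool.Agent.Lib.MP_89bcae_ag.Wt.Lns Pool.Agent.Lib.MP_89bcae_ag.Bra
  Pool.Agent.Lib.MP_89bcae_ag.Brt Pool.Agent.Lib.MP_89bcae_ag.Zc

open Pool.Agent.Lib.MP_89bcae_ag.Zq (TrJ IsTrivialJ IsFixedByJ NTJ)

open Pool.Agent.Lib.MP_89bcae_ag.Zs (LTprop Co1)

section

variable {L : Type} [Field L] {p : L[X]}

/-- The class of a polynomial prime to `p` is invertible. -/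
theorem exists_unit {A : L[X]} (h : IsCoprime A p) : ∃ u : (AdjoinRoot p)ˣ, (u : AdjoinRoot p) = AdjoinRoot.mk p A := by
  obtain ⟨a, b, hab⟩ := h
  have h1 : AdjoinRoot.mk p a * AdjoinRoot.mk p A = 1 := by
    rw [← map_mul, ← map_one (AdjoinRoot.mk p), ← hab, map_add, map_mul (AdjoinRoot.mk p) b, AdjoinRoot.mk_self, mul_zero,
      add_zero]
  exact ⟨⟨AdjoinRoot.mk p A, AdjoinRoot.mk p a, by rw [mul_comm, h1], h1⟩, rfl⟩

end

section

variable {k F L Ω : Type} [Field k] [Field F] [Algebra k F] [IsAlgClosure k F] [Field L] [Algebra F[X] L]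
  [IsFractionRing F[X] L] [Field Ω] [Algebra L Ω] [IsAlgClosure L Ω] {ℓ : ℕ} {f : k[X][X]} {ζ : k}

lemma aeval_root_iff {p : L[X]} (hp : curveL k F L f = p) {θ : Ω} :
    (cOver k F L Ω f).eval θ = 0 ↔ aeval θ p = 0 := by
  rw [← hp, ← eval_map_algebraMap]

lemma aeval_eq_of_mk {p : L[X]} (hp : curveL k F L f = p) {A B : L[X]} (h : AdjoinRoot.mk p A = AdjoinRoot.mk p B)
    {θ : Ω} (hθ : (cOver k F L Ω f).eval θ = 0) : aeval θ A = aeval θ B := by
  rw [AdjoinRoot.mk_eq_mk] at h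
  obtain ⟨C, hC⟩ := h
  rw [← sub_eq_zero, ← map_sub, hC, map_mul, (aeval_root_iff hp).1 hθ, zero_mul]

/-- The invariant classes come from points. -/
theorem ntj_gen [hl : Fact ℓ.Prime] (H : LHyp ℓ k F L f ζ)
    (hsep : (curveL k F L f).Separable) (hmon : (curveL k F L f).Monic)
    [hG : IsGood ℓ (cOver k F L Ω f)] {LT : Co1 ℓ k F L Ω f → Prop} (hLT : LTprop ζ LT)
    (p : L[X]) (hp : curveL k F L f = p) {G : Subgroup (AdjoinRoot p ≃+* AdjoinRoot p)}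
    (ρ : AutO k F L Ω →* (AdjoinRoot p ≃+* AdjoinRoot p))
    (hρ1 : ∀ γ A, ρ γ (AdjoinRoot.mk p A) = AdjoinRoot.mk p (A.map (coefR L (resF γ))))
    (hρ2 : ∀ γ, ρ γ ∈ G) (hρ3 : ∀ γ' ∈ G, ∃ γ, ρ γ = γ')
    (hst : ∀ γ ∈ G, ∀ u ∈ points ℓ p, Units.map ((γ : AdjoinRoot p ≃+* AdjoinRoot p) : AdjoinRoot p →* AdjoinRoot p) u ∈
      points ℓ p)
    {U : Subgroup (AdjoinRoot p)ˣ} (hU : Contains ζ LT p U)
    (hC : IsRigid ℓ G U (points ℓ p)) (k' : IntermediateField k F) [FiniteDimensional k k'] :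
    NTJ ℓ (curveL k F L f) LT (AutK k F L Ω k') := by
  subst hp
  have hℓ : ℓ.Prime := hl.out
  have hz : IsPrimitiveRoot (zA F L Ω ζ) ℓ := zA_prim H
  have hζ0 : zA F L Ω ζ ≠ 0 := hz.ne_zero hℓ.ne_zero
  have hVst : ∀ (g : AutO k F L Ω), ∀ u ∈ points ℓ (curveL k F L f),
      Units.map ((ρ g : AdjoinRoot (curveL k F L f) ≃+* AdjoinRoot (curveL k F L f)) :
        AdjoinRoot (curveL k F L f) →* AdjoinRoot (curveL k F L f)) u ∈ points ℓ (curveL k F L f) :=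
    fun g u hu => hst _ (hρ2 g) u hu
  have hVU : points ℓ (curveL k F L f) ≤ U := by
    intro u hu
    obtain ⟨c', A, hc', huA, hk⟩ := kumE_of_mem_points (Ω := Ω) H hz.pow_eq_one hsep hmon hu
    exact hU hz.pow_eq_one c' hc'.1 (fun n => hc'.lt hLT n) A u huA hk
  let _ : DistribMulAction (AutO k F L Ω) (Additive ((AdjoinRoot (curveL k F L f))ˣ ⧸ points ℓ (curveL k F L f))) :=
    actQ ρ hVst
  have hsm : ∀ (g : AutO k F L Ω) (u : (AdjoinRoot (curveL k F L f))ˣ),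
      g • (Additive.ofMul (QuotientGroup.mk u : (AdjoinRoot (curveL k F L f))ˣ ⧸ points ℓ (curveL k F L f))) =
      Additive.ofMul (QuotientGroup.mk (Units.map ((ρ g : AdjoinRoot (curveL k F L f) ≃+* AdjoinRoot (curveL k F L f)) :
        AdjoinRoot (curveL k F L f) →* AdjoinRoot (curveL k F L f)) u)) := fun g u => actQ_mk ρ hVst g u
  have hzero : ∀ u : (AdjoinRoot (curveL k F L f))ˣ,
      (Additive.ofMul (QuotientGroup.mk u : (AdjoinRoot (curveL k F L f))ˣ ⧸ points ℓ (curveL k F L f))) = 0 ↔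
        u ∈ points ℓ (curveL k F L f) := by
    intro u
    have h4 : (Additive.ofMul (QuotientGroup.mk u : (AdjoinRoot (curveL k F L f))ˣ ⧸ points ℓ (curveL k F L f))) = 0 ↔
        (QuotientGroup.mk u : (AdjoinRoot (curveL k F L f))ˣ ⧸ points ℓ (curveL k F L f)) = 1 := Iff.rfl
    rw [h4, QuotientGroup.eq_one_iff]
  refine ntj_of_liftE (LT := LT) H hLT hz.pow_eq_one
    (M := Additive ((AdjoinRoot (curveL k F L f))ˣ ⧸ points ℓ (curveL k F L f)))
    (fun c m => ∃ (u : (AdjoinRoot (curveL k F L f))ˣ) (A : L[X]),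
      (u : AdjoinRoot (curveL k F L f)) = AdjoinRoot.mk (curveL k F L f) A ∧
      m = Additive.ofMul (QuotientGroup.mk u : (AdjoinRoot (curveL k F L f))ˣ ⧸ points ℓ (curveL k F L f)) ∧
      IsKumE ζ (fun σ => vJ (zA F L Ω ζ) hz.pow_eq_one (c 1 σ)) A)
    ?_ ?_ ?_ ?_ ?_ ?_ ?_ k'
  · -- existence
    intro c hc
    obtain ⟨A, hA⟩ := exists_isKumE H hz.pow_eq_one hsep hc.1
    obtain ⟨u, hu⟩ := exists_unit (hA.isCoprime hsep)
    exact ⟨_, u, A, hu, rfl, hA⟩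
  · -- sums
    rintro c c' - - m m' ⟨u, A, huA, rfl, hu⟩ ⟨u', A', huA', rfl, hu'⟩
    refine ⟨u * u', A * A', by rw [Units.val_mul, huA, huA', map_mul], rfl, ?_⟩
    have h4 := hu.add hζ0 hu'
    refine Eq.mp (congrArg (fun a => IsKumE ζ a _) ?_) h4
    funext σ
    exact (vJ_add _ _ _ _).symm
  · -- trivial classes
    rintro c hc m ⟨u, A, huA, rfl, hu⟩
    rw [hzero]
    exact mem_points H hz.pow_eq_one hsep hmon hc hu huA
  · -- `Z`
    rintro c hc m ⟨u, A, huA, rfl, hu⟩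
    exact ⟨u, A, huA, rfl, isKumE_zC H hz.pow_eq_one hc.1 hu⟩
  · -- kernel
    rintro c hc ⟨u, A, huA, hu0, hu⟩
    obtain ⟨c', A', hc', huA', hk⟩ := kumE_of_mem_points (Ω := Ω) H hz.pow_eq_one hsep hmon ((hzero u).1 hu0.symm)
    refine ⟨c', hc', ?_⟩
    obtain ⟨B, hB⟩ := AdjoinRoot.mk_surjective ((u⁻¹ : (AdjoinRoot (curveL k F L f))ˣ) : AdjoinRoot (curveL k F L f))
    have hAA : ∀ θ : Ω, (cOver k F L Ω f).eval θ = 0 → aeval θ A = aeval θ A' := fun θ hθ =>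
      aeval_eq_of_mk rfl (huA.symm.trans huA') hθ
    have hAB : ∀ θ : Ω, (cOver k F L Ω f).eval θ = 0 → aeval θ A' * aeval θ B = 1 := by
      intro θ hθ
      rw [← map_mul, ← map_one (aeval (R := L) θ)]
      refine aeval_eq_of_mk (k := k) (f := f) rfl ?_ hθ
      rw [map_mul, ← huA', hB, Units.mul_inv, map_one]
    have h4 := hu.add hζ0 (hk.neg hAB)
    have h5 : IsKumE ζ (fun σ => vJ (zA F L Ω ζ) hz.pow_eq_one ((c - c') 1 σ)) (A * B) := by
      refine Eq.mp (congrArg (fun a => IsKumE ζ a _) ?_) h4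
      funext σ
      rw [← sub_eq_add_neg]
      exact (vJ_sub _ _ _ _).symm
    refine h5.exists_cob (W := 1) H hsep ?_
    have h6 : AdjoinRoot.mk (curveL k F L f) (A * B) = AdjoinRoot.mk (curveL k F L f) (1 ^ ℓ) := by
      rw [map_mul, ← huA, hB, Units.mul_inv, one_pow, map_one]
    exact AdjoinRoot.mk_eq_mk.1 h6
  · -- equivariance
    rintro g c hc m ⟨u, A, huA, rfl, hu⟩
    refine ⟨_, A.map (coefR L (resF g)), ?_, hsm g u, ?_⟩
    · show ρ g (u : AdjoinRoot (curveL k F L f)) = _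
      rw [huA, hρ1]
    have h4 := hu.act g
    refine Eq.mp (congrArg (fun a => IsKumE ζ a _) ?_) h4
    funext σ
    exact (vJ_symJ (zA F L Ω ζ) hz.pow_eq_one (toSym f (g : AutO k F L Ω)) (zA_fixed ζ (g : AutO k F L Ω)) _).symm
  · -- the criterion
    intro N hN hNE hNst r hr n σ ρ' th hL
    refine rigid_contra hVU hC ρ hρ2 hρ3 hsm N hN ?_ hr hL
    intro m hm
    obtain ⟨c, hc, u, A, huA, hmu, hu⟩ := hNE m hm
    exact ⟨u, hU hz.pow_eq_one c hc.1 hc.2.1 A u huA hu, hmu⟩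

end

end Pool.Agent.Lib.MP_89bcae_ag.Ze
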