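import Mathlib
import Pool.Agent.Lib.MP_89bcae_ag.Ze.MainJ
import Pool.Agent.Lib.MP_89bcae_ag.Ze.Cont
import Pool.Agent.Lib.MP_89bcae_ag.Ze.Crit
import Pool.Agent.Lib.MP_89bcae_ag.Ze.Br
import Pool.Agent.Lib.MP_89bcae_ag.Zm.Fin

/-!
# The final theorem for reducible curves
-/

attribute [local instance 100000] Pool.Agent.Lib.MP_89bcae_ag.Brt.tffFields
attribute [local instance 100000] Pool.Agent.Lib.MP_89bcae_ag.Wt.ifrNF Pool.Agent.Lib.MP_89bcae_ag.Wt.iddNF

open Polynomial IsDedekindDomain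

open scoped Classical

namespace Pool.Agent.Lib.MP_89bcae_ag.Ze

open Pool.Agent.Lib.MP_89bcae_ag.Wt Pool.Agent.Lib.MP_89bcae_ag.Wt.Lns Pool.Agent.Lib.MP_89bcae_ag.Bra
  Pool.Agent.Lib.MP_89bcae_ag.Brt Pool.Agent.Lib.MP_89bcae_ag.Zc

open Pool.Agent.Lib.MP_89bcae_ag.Zq (TrJ IsTrivialJ IsFixedByJ NTJ ntj_mono ntj_congr exists_red)

open Pool.Agent.Lib.MP_89bcae_ag.Zs (LTprop Co1 red ext_red exists_autK map_base_red IsCoverField)

open Pool.Agent.Lib.MP_89bcae_ag.Zp (ltprop_ub)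

section

variable {ℓ : ℕ} {k F : Type} [Field k] [Field F] [Algebra k F] {L : Type} [Field L] [Algebra F[X] L] {f : k[X][X]}

lemma poly_red (k₁ : IntermediateField k F) : poly F L (red k₁ f) = poly F L f := by
  unfold poly
  rw [ext_red]

lemma isBranch_red (k₁ : IntermediateField k F) (hB : IsBranch ℓ F L f) : IsBranch ℓ F L (red k₁ f) := by
  have hd : (red k₁ f).natDegree = f.natDegree := hB.monic.natDegree_map _
  refine ⟨hB.monic.map _, ?_, ?_⟩
  · rw [hd]
    exact hB.coprime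
  · rw [poly_red]
    exact hB.separable

lemma IsBranch.degree_ne_zero (hℓ : ℓ.Prime) (hB : IsBranch ℓ F L f) : (poly F L f).degree ≠ 0 := by
  have hmon : (poly F L f).Monic := (hB.monic.map _).map _
  have h7 : (poly F L f).natDegree = f.natDegree := by
    unfold poly Zs.ext
    rw [(hB.monic.map _).natDegree_map, hB.monic.natDegree_map]
  intro h8
  rw [Polynomial.degree_eq_natDegree hmon.ne_zero, h7] at h8
  have h9 : f.natDegree = 0 := by exact_mod_cast h8
  have h10 := hB.coprime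
  rw [h9, Nat.coprime_zero_left] at h10
  exact hℓ.one_lt.ne' h10

lemma powers_le_points (p : L[X]) : powers ℓ (AdjoinRoot p) ≤ points ℓ p := by
  rintro _ ⟨v, rfl⟩
  exact Subgroup.subset_closure (Or.inl ⟨v, rfl⟩)

end

/-- The theorem with the criterion relative to the classes of the points. -/
theorem brauer_of_rigid {ℓ : ℕ} [hl : Fact ℓ.Prime] {k F : Type} [Field k] [Field F] [Algebra k F]
    [IsAlgClosure k F] (hk : (ℓ : k) ≠ 0) {f : k[X][X]} (hB : IsBranch ℓ F (RatFunc F) f)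
    {p : (RatFunc F)[X]} (hp : poly F (RatFunc F) f = p)
    (hC : IsAdmissible ℓ (galois ℓ k F p) (unramified ℓ F p) (points ℓ p)) :
    ∀ (K S : Type) [Field K] [Algebra F K] [Field S] [Algebra K S] [IsAlgClosure K S] (t x y : K),
      IsCoverField ℓ F f t x y → ∀ k' : IntermediateField k F, FiniteDimensional k k' →
        BrauerInvariantsTrivial ℓ S k' t x y := by
  have hℓ : ℓ.Prime := hl.out
  have hd : p.degree ≠ 0 := by
    rw [← hp]
    exact hB.degree_ne_zero hℓ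
  have hfix : IsFixed k F p := by
    rw [← hp]
    exact fun σ => poly_map f σ
  have hC0 : IsRigid ℓ (galois ℓ k F p) (unramified ℓ F p) (points ℓ p) :=
    hC.isRigid (fun γ hγ u hu => points_stable hfix hd hγ hu) (powers_le_points p)
  obtain ⟨ζ, k₁, hζk, hζ, hk₁, hfin, hcl, hζ₁, hk₁0⟩ := exists_red hℓ (k := k) (F := F) hk
  refine brauer_of_ntj hℓ hk hB fun k' hk' _ => ?_
  obtain ⟨k'', h1, h2⟩ := exists_autK (L := RatFunc F) (Ω := AlgebraicClosure (RatFunc F)) k₁ k' hfin hk'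
  have hgood : IsGood ℓ (((red k₁ f).map (base k₁ F (RatFunc F) (RatFunc F))).map
      (algebraMap (RatFunc F) (AlgebraicClosure (RatFunc F)))) := by
    rw [map_base_red]
    infer_instance
  have hgood' : IsGood ℓ (cOver k₁ F (RatFunc F) (AlgebraicClosure (RatFunc F)) (red k₁ f)) := hgood
  have hB₁ : IsBranch ℓ F (RatFunc F) (red k₁ f) := isBranch_red k₁ hB
  have hp₁ : curveL k₁ F (RatFunc F) (red k₁ f) = p := by
    rw [curveL_eq_poly, poly_red, hp]
  have hfix₁ : IsFixed k₁ F p := by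
    rw [← hp₁, curveL_eq_poly]
    exact fun σ => poly_map _ σ
  have H : LHyp ℓ k₁ F (RatFunc F) (red k₁ f) (⟨ζ, hζk⟩ : k₁) := lhyp_of hℓ hk₁0 hζ₁ hB₁
  have hsep : (curveL k₁ F (RatFunc F) (red k₁ f)).Separable :=
    (good_of (Ω := AlgebraicClosure (RatFunc F)) hℓ hk₁0 hB₁).1
  have hmon : (curveL k₁ F (RatFunc F) (red k₁ f)).Monic := hB₁.monic.map _
  obtain ⟨ρ, hρ1, hρ2, hρ3⟩ := exists_resG (Ω := AlgebraicClosure (RatFunc F)) hfix₁ hℓ hζ₁ hd
  rw [galois_red hd k₁ hζ.pow_eq_one hk₁] at hρ2 hρ3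
  have hU : Contains (Ω := AlgebraicClosure (RatFunc F)) (P := red k₁ f) (⟨ζ, hζk⟩ : k₁)
      (Zp.UB F ℓ (curveL k₁ F (RatFunc F) (red k₁ f))) p (unramified ℓ F p) := by
    have h3 := contains_unramified (Ω := AlgebraicClosure (RatFunc F)) hℓ hk₁0 hζ₁ hB₁
    have key : ∀ q : (RatFunc F)[X], curveL k₁ F (RatFunc F) (red k₁ f) = q →
        Contains (Ω := AlgebraicClosure (RatFunc F)) (P := red k₁ f) (⟨ζ, hζk⟩ : k₁)
          (Zp.UB F ℓ (curveL k₁ F (RatFunc F) (red k₁ f))) q (unramified ℓ F q) := by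
      rintro q rfl
      exact h3
    exact key p hp₁
  have h3 := ntj_gen (Ω := AlgebraicClosure (RatFunc F)) (LT := Zp.UB F ℓ (curveL k₁ F (RatFunc F) (red k₁ f))) H hsep hmon
    ltprop_ub p hp₁ ρ hρ1 hρ2 hρ3 (fun γ hγ u hu => points_stable hfix hd hγ hu) hU hC0 k''
  exact ntj_mono h2 (ntj_congr (map_base_red (L := RatFunc F) k₁ (f := f)) h3)

end Pool.Agent.Lib.MP_89bcae_ag.Ze
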