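import Mathlib
import Pool.Agent.Lib.MP_89bcae_ag.Ze.DefsR

/-!
# Large images of a group of automorphisms
-/

namespace Pool.Agent.Lib.MP_89bcae_ag.Ze

section

variable {R : Type} [CommRing R]

/-- The function `e` induces a nondegenerate pairing on `W / V` with values in `ℤ/ℓ`. -/
structure IsPairing (ℓ : ℕ) (V W : Subgroup Rˣ) (e : Rˣ → Rˣ → ZMod ℓ) : Prop where
  mul_left : ∀ u ∈ W, ∀ v ∈ W, ∀ w ∈ W, e (u * v) w = e u w + e v w
  mul_right : ∀ u ∈ W, ∀ v ∈ W, ∀ w ∈ W, e u (v * w) = e u v + e u w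
  left : ∀ u ∈ W, (∀ v ∈ W, e u v = 0) ↔ u ∈ V
  right : ∀ v ∈ W, (∀ u ∈ W, e u v = 0) ↔ v ∈ V

/-- The function `φ` induces an injective endomorphism of `W / V`. -/
structure IsEndomorphism (V W : Subgroup Rˣ) (φ : Rˣ → Rˣ) : Prop where
  mem : ∀ u ∈ W, φ u ∈ W
  mul : ∀ u ∈ W, ∀ v ∈ W, φ (u * v) / (φ u * φ v) ∈ V
  injective : ∀ u ∈ W, φ u ∈ V ↔ u ∈ V

variable (ℓ : ℕ) (G : Subgroup (R ≃+* R)) (V W : Subgroup Rˣ)

/-- The endomorphism of `W / V` induced by `φ` is the one of an element `γ` of `G`. -/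
def IsInducedBy (φ : Rˣ → Rˣ) : Prop :=
  ∃ γ ∈ G, ∀ u ∈ W, Units.map (γ : R →* R) u / φ u ∈ V

/-- There is a nondegenerate alternating pairing on `W / V`, with values in `ℤ/ℓ`, such that all the automorphisms of
`W / V` which preserve the pairing are induced by elements of `G`. -/
def IsSymplectic : Prop :=
  ∃ e : Rˣ → Rˣ → ZMod ℓ, IsPairing ℓ V W e ∧ (∀ u ∈ W, e u u = 0) ∧
    ∀ φ : Rˣ → Rˣ, IsEndomorphism V W φ →
      (∀ u ∈ W, ∀ v ∈ W, e (φ u) (φ v) = e u v) → IsInducedBy G V W φ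

/-- The prime `ℓ` is `2`, and there is a function `q` on `W / V` with values in `ℤ/2`, such that `q(u v) - q(u) - q(v)` is
a nondegenerate pairing (in other words, `q` is a nondegenerate quadratic form) and that all the automorphisms of `W / V`
which preserve `q` are induced by elements of `G`. -/
def IsOrthogonal : Prop :=
  ℓ = 2 ∧ ∃ q : Rˣ → ZMod ℓ, (∀ u ∈ V, q u = 0) ∧
    IsPairing ℓ V W (fun u v => q (u * v) - q u - q v) ∧
    ∀ φ : Rˣ → Rˣ, IsEndomorphism V W φ → (∀ u ∈ W, q (φ u) = q u) → IsInducedBy G V W φ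

/-- The group `W / V` has order `ℓ ^ (2 g)`, and the image of `G` in the group of its automorphisms contains a symplectic or an
orthogonal group which is large: `ℓ ^ r r!` is not divisible by `ℓ ^ (g ^ 2)` (respectively by `2 ^ (g (g - 1))`), or
`ℓ > (13 r) ^ r`. -/
def HasLargeImage (r : ℕ) : Prop :=
  ∃ g : ℕ, V.relIndex W = ℓ ^ (2 * g) ∧
    (IsSymplectic ℓ G V W ∧ (r + padicValNat ℓ r.factorial < g ^ 2 ∨ (13 * r) ^ r < ℓ) ∨
      IsOrthogonal ℓ G V W ∧ r + padicValNat ℓ r.factorial < g * (g - 1))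

/-- Each subgroup `N` with `V < N ≤ U`, stable under `G` and such that `N / V` is finite of order `ℓ ^ r`, satisfies one of
the three criteria (of Minkowski and Schur, of Jordan, or that of a large image for a subgroup `W / V` of `N / V`), or does
not lift. -/
def IsAdmissible [Fact ℓ.Prime] (U V : Subgroup Rˣ) : Prop :=
  ∀ N : Subgroup Rˣ, V < N → N ≤ U → (∀ γ ∈ G, ∀ u ∈ N, Units.map (γ : R →* R) u ∈ N) →
    ∀ r : ℕ, V.relIndex N = ℓ ^ r →
      IsLarge ℓ G V N r ∨ IsTwisted ℓ G V N r ∨ (∃ W : Subgroup Rˣ, V < W ∧ W ≤ N ∧ HasLargeImage ℓ G V W r) ∨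
        ¬ ∃ (n : ℕ) (σ : Module.End ℤ_[ℓ] (Fin n → ℤ_[ℓ]))
          (Γ : Subgroup ((Fin n → ℤ_[ℓ]) ≃ₗ[ℤ_[ℓ]] (Fin n → ℤ_[ℓ]))) (π : (Fin n → ℤ_[ℓ]) → Rˣ),
          IsLift ℓ G V N σ Γ π

end

end Pool.Agent.Lib.MP_89bcae_ag.Ze
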