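import Mathlib
import Pool.Agent.Lib.MP_89bcae_ag.Ze.MainJ

/-!
# The theorem with the criterion for all classes
-/

attribute [local instance 100000] Pool.Agent.Lib.MP_89bcae_ag.Brt.tffFields
attribute [local instance 100000] Pool.Agent.Lib.MP_89bcae_ag.Wt.ifrNF Pool.Agent.Lib.MP_89bcae_ag.Wt.iddNF

open Polynomial IsDedekindDomain

open scoped Classical

namespace Pool.Agent.Lib.MP_89bcae_ag.Ze

open Pool.Agent.Lib.MP_89bcae_ag.Wt Pool.Agent.Lib.MP_89bcae_ag.Wt.Lns Pool.Agent.Lib.MP_89bcae_ag.Bra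
  Pool.Agent.Lib.MP_89bcae_ag.Brt Pool.Agent.Lib.MP_89bcae_ag.Zc

open Pool.Agent.Lib.MP_89bcae_ag.Zq (TrJ IsTrivialJ IsFixedByJ NTJ)

open Pool.Agent.Lib.MP_89bcae_ag.Zs (LTprop Co1 Trc.exists_cob)

section

variable {k F L Ω : Type} [Field k] [Field F] [Algebra k F] [IsAlgClosure k F] [Field L] [Algebra F[X] L]
  [IsFractionRing F[X] L] [Field Ω] [Algebra L Ω] [IsAlgClosure L Ω] {ℓ : ℕ} {f : k[X][X]} {ζ : k}

/-- The invariant classes are trivial. -/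
theorem ntg_gen [hl : Fact ℓ.Prime] (H : LHyp ℓ k F L f ζ) (hirr : Irreducible (curveL k F L f))
    (hsep : (curveL k F L f).Separable)
    [hG : IsGood ℓ (cOver k F L Ω f)] {LT : Co1 ℓ k F L Ω f → Prop} (hLT : LTprop ζ LT)
    (p : L[X]) (hp : curveL k F L f = p) {G : Subgroup (AdjoinRoot p ≃+* AdjoinRoot p)}
    (ρ : AutO k F L Ω →* (AdjoinRoot p ≃+* AdjoinRoot p))
    (hρ1 : ∀ γ A, ρ γ (AdjoinRoot.mk p A) = AdjoinRoot.mk p (A.map (coefR L (resF γ))))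
    (hρ2 : ∀ γ, ρ γ ∈ G) (hρ3 : ∀ γ' ∈ G, ∃ γ, ρ γ = γ')
    {U : Subgroup (AdjoinRoot p)ˣ} (hPU : powers ℓ (AdjoinRoot p) ≤ U) (hU : Contains ζ LT p U)
    (hC : IsRigid ℓ G U (powers ℓ (AdjoinRoot p))) (k' : IntermediateField k F) [FiniteDimensional k k'] :
    NTg ℓ 1 (curveL k F L f) LT (AutK k F L Ω k') := by
  subst hp
  have hℓ : ℓ.Prime := hl.out
  have hz : IsPrimitiveRoot (zA F L Ω ζ) ℓ := zA_prim H
  have hζ0 : zA F L Ω ζ ≠ 0 := hz.ne_zero hℓ.ne_zero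
  have hVst : ∀ (g : AutO k F L Ω), ∀ u ∈ powers ℓ (AdjoinRoot (curveL k F L f)),
      Units.map ((ρ g : AdjoinRoot (curveL k F L f) ≃+* AdjoinRoot (curveL k F L f)) :
        AdjoinRoot (curveL k F L f) →* AdjoinRoot (curveL k F L f)) u ∈ powers ℓ (AdjoinRoot (curveL k F L f)) := by
    rintro g _ ⟨w, rfl⟩
    exact ⟨_, (map_pow _ w ℓ).symm⟩
  let _ : DistribMulAction (AutO k F L Ω)
      (Additive ((AdjoinRoot (curveL k F L f))ˣ ⧸ powers ℓ (AdjoinRoot (curveL k F L f)))) := actQ ρ hVst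
  have hsm : ∀ (g : AutO k F L Ω) (u : (AdjoinRoot (curveL k F L f))ˣ),
      g • (Additive.ofMul (QuotientGroup.mk u :
        (AdjoinRoot (curveL k F L f))ˣ ⧸ powers ℓ (AdjoinRoot (curveL k F L f)))) =
      Additive.ofMul (QuotientGroup.mk (Units.map ((ρ g : AdjoinRoot (curveL k F L f) ≃+* AdjoinRoot (curveL k F L f)) :
        AdjoinRoot (curveL k F L f) →* AdjoinRoot (curveL k F L f)) u)) := fun g u => actQ_mk ρ hVst g u
  have hpow : ∀ u : (AdjoinRoot (curveL k F L f))ˣ,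
      (Additive.ofMul (QuotientGroup.mk u :
        (AdjoinRoot (curveL k F L f))ˣ ⧸ powers ℓ (AdjoinRoot (curveL k F L f)))) = 0 ↔
        ∃ w : (AdjoinRoot (curveL k F L f))ˣ, w ^ ℓ = u := by
    intro u
    have h4 : (Additive.ofMul (QuotientGroup.mk u :
        (AdjoinRoot (curveL k F L f))ˣ ⧸ powers ℓ (AdjoinRoot (curveL k F L f)))) = 0 ↔
        (QuotientGroup.mk u : (AdjoinRoot (curveL k F L f))ˣ ⧸ powers ℓ (AdjoinRoot (curveL k F L f))) = 1 := Iff.rfl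
    rw [h4, QuotientGroup.eq_one_iff]
    exact Iff.rfl
  refine ntg_of_liftE (LT := LT) H hirr hLT hz.pow_eq_one
    (M := Additive ((AdjoinRoot (curveL k F L f))ˣ ⧸ powers ℓ (AdjoinRoot (curveL k F L f))))
    (fun c m => ∃ (u : (AdjoinRoot (curveL k F L f))ˣ) (A : L[X]),
      (u : AdjoinRoot (curveL k F L f)) = AdjoinRoot.mk (curveL k F L f) A ∧
      m = Additive.ofMul (QuotientGroup.mk u :
        (AdjoinRoot (curveL k F L f))ˣ ⧸ powers ℓ (AdjoinRoot (curveL k F L f))) ∧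
      IsKumE ζ (fun σ => vJ (zA F L Ω ζ) hz.pow_eq_one (c 1 σ)) A)
    ?_ ?_ ?_ ?_ ?_ ?_ ?_ k'
  · -- existence
    intro c hc
    obtain ⟨A, hA⟩ := exists_isKumE H hz.pow_eq_one hsep hc.1
    obtain ⟨u, hu⟩ := exists_unit (hA.isCoprime hsep)
    exact ⟨_, u, A, hu, rfl, hA⟩
  · -- sums
    rintro c c' - - m m' ⟨u, A, huA, rfl, hu⟩ ⟨u', A', huA', rfl, hu'⟩
    refine ⟨u * u', A * A', by rw [Units.val_mul, huA, huA', map_mul], rfl, ?_⟩
    have h4 := hu.add hζ0 hu'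
    refine Eq.mp (congrArg (fun a => IsKumE ζ a _) ?_) h4
    funext σ
    exact (vJ_add _ _ _ _).symm
  · -- trivial classes
    rintro c hc m ⟨u, A, huA, rfl, hu⟩
    obtain ⟨q, hq⟩ := Trc.exists_cob H hz.pow_eq_one hc
    obtain ⟨W, hW⟩ := hu.exists_pow H hsep hq
    have hW' : AdjoinRoot.mk (curveL k F L f) A = AdjoinRoot.mk (curveL k F L f) W ^ ℓ := by
      rw [← map_pow]
      exact AdjoinRoot.mk_eq_mk.2 hW
    rw [hpow]
    have hWu : IsUnit (AdjoinRoot.mk (curveL k F L f) W) := by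
      rw [← isUnit_pow_iff hℓ.ne_zero, ← hW', ← huA]
      exact u.isUnit
    obtain ⟨w, hw⟩ := hWu
    exact ⟨w, Units.ext (by rw [Units.val_pow_eq_pow_val, hw, huA, hW'])⟩
  · -- `Z`
    rintro c hc m ⟨u, A, huA, rfl, hu⟩
    exact ⟨u, A, huA, rfl, isKumE_zC H hz.pow_eq_one hc.1 hu⟩
  · -- kernel
    rintro c hc ⟨u, A, huA, hu0, hu⟩
    obtain ⟨w, hw⟩ := (hpow u).1 hu0.symm
    obtain ⟨W, hW⟩ := AdjoinRoot.mk_surjective (w : AdjoinRoot (curveL k F L f))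
    refine hu.exists_cob (W := W) H hsep (AdjoinRoot.mk_eq_mk.1 ?_)
    rw [← huA, ← hw, Units.val_pow_eq_pow_val, map_pow, hW]
  · -- equivariance
    rintro g c hc m ⟨u, A, huA, rfl, hu⟩
    refine ⟨_, A.map (coefR L (resF g)), ?_, hsm g u, ?_⟩
    · show ρ g (u : AdjoinRoot (curveL k F L f)) = _
      rw [huA, hρ1]
    have h4 := hu.act g
    refine Eq.mp (congrArg (fun a => IsKumE ζ a _) ?_) h4
    funext σ
    exact (vJ_symJ (zA F L Ω ζ) hz.pow_eq_one (toSym f (g : AutO k F L Ω)) (zA_fixed ζ (g : AutO k F L Ω)) _).symm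
  · -- the criterion
    intro N hN hNE hNst r hr n σ ρ' th hL
    refine rigid_contra hPU hC ρ hρ2 hρ3 hsm N hN ?_ hr hL
    intro m hm
    obtain ⟨c, hc, u, A, huA, hmu, hu⟩ := hNE m hm
    exact ⟨u, hU hz.pow_eq_one c hc.1 hc.2.1 A u huA hu, hmu⟩

end

end Pool.Agent.Lib.MP_89bcae_ag.Ze
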