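import Mathlib
import Pool.Agent.Lib.MP_89bcae_ag.Ze.PtT
import Pool.Agent.Lib.MP_89bcae_ag.Ze.Kum
import Pool.Agent.Lib.MP_89bcae_ag.Ze.DefsR
import Pool.Agent.Lib.MP_89bcae_ag.Zc.Mod

/-!
# If the invariant classes are trivial, the classes of the points are powers
-/

attribute [local instance 100000] Pool.Agent.Lib.MP_89bcae_ag.Brt.tffFields
attribute [local instance 100000] Pool.Agent.Lib.MP_89bcae_ag.Wt.ifrNF Pool.Agent.Lib.MP_89bcae_ag.Wt.iddNF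

open Polynomial IsDedekindDomain

open scoped Classical

namespace Pool.Agent.Lib.MP_89bcae_ag.Ze

open Pool.Agent.Lib.MP_89bcae_ag.Wt Pool.Agent.Lib.MP_89bcae_ag.Wt.Lns Pool.Agent.Lib.MP_89bcae_ag.Bra
  Pool.Agent.Lib.MP_89bcae_ag.Brt Pool.Agent.Lib.MP_89bcae_ag.Zc

open Pool.Agent.Lib.MP_89bcae_ag.Zq (TrJ)

open Pool.Agent.Lib.MP_89bcae_ag.Zs (LTprop Co1)

section

variable {k F L Ω : Type} [Field k] [Field F] [Algebra k F] [Field L] [Algebra F[X] L]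
  [Field Ω] [Algebra L Ω] [IsAlgClosure k F] [IsFractionRing F[X] L] [IsAlgClosure L Ω]
  {ℓ : ℕ} {P : k[X][X]} [hG : IsGood ℓ (cOver k F L Ω P)] {ζ : k}

/-- The points over `L` are divisible by `ℓ` if the invariant classes are trivial. -/
theorem exists_smul_of_ntg (H : LHyp ℓ k F L P ζ) {LT : Co1 ℓ k F L Ω P → Prop} (hLT : LTprop ζ LT)
    (hN : ∀ k' : IntermediateField k F, FiniteDimensional k k' → NTg ℓ 1 (curveL k F L P) LT (Bra.AutK k F L Ω k'))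
    (R : JacOver ℓ (curveL k F L P) Ω) (hR : ∀ σ : Ω ≃ₐ[L] Ω, symJ (toSym P (galA k F σ)) R = R) :
    ∃ R' : JacOver ℓ (curveL k F L P) Ω, (∀ σ : Ω ≃ₐ[L] Ω, symJ (toSym P (galA k F σ)) R' = R') ∧ R = ℓ • R' := by
  have hG' : IsGood ℓ ((curveL k F L P).map (algebraMap L Ω)) := hG
  obtain ⟨R', h1, h2⟩ := mordell_weil (k := k) (F := F) (L := L) (Ω := Ω) (f := curveL k F L P)
    (Γ := AutK k F L Ω) (LT := LT) (m := 1) H.prime fixFamK hLT.cob hN R hR 1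
  refine ⟨R', h1, ?_⟩
  rw [one_smul, pow_one] at h2
  exact h2

/-- If the invariant classes are trivial, the classes of the points are powers. -/
theorem mem_powers_of_ntg (H : LHyp ℓ k F L P ζ) (hζ : (zA F L Ω ζ) ^ ℓ = 1) (hsep : (curveL k F L P).Separable)
    (hmon : (curveL k F L P).Monic) {LT : Co1 ℓ k F L Ω P → Prop} (hLT : LTprop ζ LT)
    (hN : ∀ k' : IntermediateField k F, FiniteDimensional k k' → NTg ℓ 1 (curveL k F L P) LT (Bra.AutK k F L Ω k'))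
    {u : (AdjoinRoot (curveL k F L P))ˣ} (hu : u ∈ points ℓ (curveL k F L P)) :
    u ∈ powers ℓ (AdjoinRoot (curveL k F L P)) := by
  have hζ' : IsPrimitiveRoot (zA F L Ω ζ) ℓ := zA_prim H
  obtain ⟨c, A, hc, huA, hk⟩ := kumE_of_mem_points (Ω := Ω) H hζ hsep hmon hu
  obtain ⟨A₁, hA₁⟩ := hc.2 1
  have hA₁' : ∀ σ : Ω ≃ₐ[L] Ω, c 1 σ = symJ (toSym P (galA k F σ)) A₁ - A₁ := fun σ => by
    rw [hA₁ σ, push_eq]
  obtain ⟨R, hR, hlR⟩ := exists_smul_of_ntg H hLT hN (ℓ • A₁) (fun σ => by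
    have h1 : ℓ • c 1 σ = 0 := by rw [hc.1.smul 0 σ, hc.1.zero]
    rw [hA₁' σ, smul_sub, ← map_nsmul, sub_eq_zero] at h1
    exact h1)
  have hT : ℓ • (A₁ - R) = 0 := by rw [smul_sub, hlR, sub_self]
  have h1 := vJ_sub_zJ (zA F L Ω ζ) hζ' (A₁ - R)
  rw [hT, sub_eq_zero] at h1
  obtain ⟨q, hq⟩ := exists_rm_of_zJ_eq (zA F L Ω ζ) hζ' _ h1.symm
  have hcq : ∀ σ : Ω ≃ₐ[L] Ω, vJ (zA F L Ω ζ) hζ (c 1 σ) =
      symJ (toSym P (galA k F σ)) (rm q : Jac ℓ (cOver k F L Ω P)) - rm q := by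
    intro σ
    have h2 : c 1 σ = symJ (toSym P (galA k F σ)) (A₁ - R) - (A₁ - R) := by
      rw [hA₁' σ, map_sub, hR σ]
      abel
    rw [h2, vJ_sub, vJ_symJ (zA F L Ω ζ) hζ _ (zA_fixed ζ (galA k F σ)), ← hq]
  obtain ⟨W, hW⟩ := hk.exists_pow H hsep hcq
  have hW' : AdjoinRoot.mk (curveL k F L P) A = AdjoinRoot.mk (curveL k F L P) W ^ ℓ := by
    rw [← map_pow]
    exact AdjoinRoot.mk_eq_mk.2 hW
  have hWu : IsUnit (AdjoinRoot.mk (curveL k F L P) W) := by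
    rw [← isUnit_pow_iff H.prime.ne_zero, ← hW', ← huA]
    exact u.isUnit
  obtain ⟨w, hw⟩ := hWu
  exact ⟨w, Units.ext (by
    show (w ^ ℓ : (AdjoinRoot (curveL k F L P))ˣ).val = _
    rw [Units.val_pow_eq_pow_val, hw, huA, hW'])⟩

end

end Pool.Agent.Lib.MP_89bcae_ag.Ze
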