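import Mathlib
import Pool.Agent.Lib.MP_89bcae_ag.Ze.Fin
import Pool.Agent.Lib.MP_89bcae_ag.Ze.MainG
import Pool.Agent.Lib.MP_89bcae_ag.Ze.Ntp

/-!
# The criterion for all classes, for irreducible curves: the classes of the points are powers
-/

attribute [local instance 100000] Pool.Agent.Lib.MP_89bcae_ag.Brt.tffFields
attribute [local instance 100000] Pool.Agent.Lib.MP_89bcae_ag.Wt.ifrNF Pool.Agent.Lib.MP_89bcae_ag.Wt.iddNF

open Polynomial IsDedekindDomain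

open scoped Classical

namespace Pool.Agent.Lib.MP_89bcae_ag.Ze

open Pool.Agent.Lib.MP_89bcae_ag.Wt Pool.Agent.Lib.MP_89bcae_ag.Wt.Lns Pool.Agent.Lib.MP_89bcae_ag.Bra
  Pool.Agent.Lib.MP_89bcae_ag.Brt Pool.Agent.Lib.MP_89bcae_ag.Zc

open Pool.Agent.Lib.MP_89bcae_ag.Zq (TrJ IsTrivialJ IsFixedByJ NTJ ntj_mono ntj_congr exists_red)

open Pool.Agent.Lib.MP_89bcae_ag.Zs (LTprop Co1 red ext_red exists_autK map_base_red)

open Pool.Agent.Lib.MP_89bcae_ag.Zp (ltprop_ub UB)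

lemma powers_le_unramified {ℓ : ℕ} {F : Type} [Field F] {L : Type} [Field L] [Algebra F[X] L] (p : L[X]) :
    powers ℓ (AdjoinRoot p) ≤ unramified ℓ F p := by
  rintro _ ⟨w, rfl⟩
  refine ⟨⟨Algebra.norm L (w : AdjoinRoot p), ?_⟩, fun φ τ ρ w' _ => ⟨0, fun _ => rfl,
    fun M _ π _ O r _ => ⟨Units.map (π : AdjoinRoot p →* M) w, ?_⟩⟩⟩
  · show Algebra.norm L (((w ^ ℓ : (AdjoinRoot p)ˣ)) : AdjoinRoot p) = _
    rw [Units.val_pow_eq_pow_val, map_pow]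
  · show O.valuation (π (((w ^ ℓ : (AdjoinRoot p)ˣ)) : AdjoinRoot p)) = _
    rw [Units.val_pow_eq_pow_val, zpow_zero, one_mul, map_pow]
    rfl

/-- The classes of the points are `ℓ`-th powers. -/
theorem points_le_powers {ℓ : ℕ} [hl : Fact ℓ.Prime] {k F : Type} [Field k] [Field F] [Algebra k F]
    [IsAlgClosure k F] (hk : (ℓ : k) ≠ 0) {f : k[X][X]} (hB : IsBranch ℓ F (RatFunc F) f)
    {p : (RatFunc F)[X]} (hp : poly F (RatFunc F) f = p) (hirr : Irreducible p)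
    (hC : IsAdmissible ℓ (galois ℓ k F p) (unramified ℓ F p) (powers ℓ (AdjoinRoot p))) :
    points ℓ p ≤ powers ℓ (AdjoinRoot p) := by
  have hℓ : ℓ.Prime := hl.out
  have hd : p.degree ≠ 0 := by
    rw [← hp]
    exact hB.degree_ne_zero hℓ
  have hC0 : IsRigid ℓ (galois ℓ k F p) (unramified ℓ F p) (powers ℓ (AdjoinRoot p)) := by
    refine hC.isRigid (fun γ hγ u hu => ?_) le_rfl
    obtain ⟨w, rfl⟩ := hu
    exact ⟨Units.map (γ : AdjoinRoot p →* AdjoinRoot p) w, (map_pow _ w ℓ).symm⟩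
  obtain ⟨ζ, k₁, hζk, hζ, hk₁, hfin, hcl, hζ₁, hk₁0⟩ := exists_red hℓ (k := k) (F := F) hk
  have hB₁ : IsBranch ℓ F (RatFunc F) (red k₁ f) := isBranch_red k₁ hB
  have hp₁ : curveL k₁ F (RatFunc F) (red k₁ f) = p := by
    rw [curveL_eq_poly, poly_red, hp]
  have hfix₁ : IsFixed k₁ F p := by
    rw [← hp₁, curveL_eq_poly]
    exact fun σ => poly_map _ σ
  have hgood : IsGood ℓ (cOver k₁ F (RatFunc F) (AlgebraicClosure (RatFunc F)) (red k₁ f)) :=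
    (good_of (Ω := AlgebraicClosure (RatFunc F)) hℓ hk₁0 hB₁).2
  have H : LHyp ℓ k₁ F (RatFunc F) (red k₁ f) (⟨ζ, hζk⟩ : k₁) := lhyp_of hℓ hk₁0 hζ₁ hB₁
  have hsep : (curveL k₁ F (RatFunc F) (red k₁ f)).Separable :=
    (good_of (Ω := AlgebraicClosure (RatFunc F)) hℓ hk₁0 hB₁).1
  have hmon : (curveL k₁ F (RatFunc F) (red k₁ f)).Monic := hB₁.monic.map _
  have hirr₁ : Irreducible (curveL k₁ F (RatFunc F) (red k₁ f)) := by
    rw [hp₁]
    exact hirr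
  obtain ⟨ρ, hρ1, hρ2, hρ3⟩ := exists_resG (Ω := AlgebraicClosure (RatFunc F)) hfix₁ hℓ hζ₁ hd
  rw [galois_red hd k₁ hζ.pow_eq_one hk₁] at hρ2 hρ3
  have hU : Contains (Ω := AlgebraicClosure (RatFunc F)) (P := red k₁ f) (⟨ζ, hζk⟩ : k₁)
      (UB F ℓ (curveL k₁ F (RatFunc F) (red k₁ f))) p (unramified ℓ F p) := by
    have h3 := contains_unramified (Ω := AlgebraicClosure (RatFunc F)) hℓ hk₁0 hζ₁ hB₁
    have key : ∀ q : (RatFunc F)[X], curveL k₁ F (RatFunc F) (red k₁ f) = q →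
        Contains (Ω := AlgebraicClosure (RatFunc F)) (P := red k₁ f) (⟨ζ, hζk⟩ : k₁)
          (UB F ℓ (curveL k₁ F (RatFunc F) (red k₁ f))) q (unramified ℓ F q) := by
      rintro q rfl
      exact h3
    exact key p hp₁
  have h3 : ∀ k' : IntermediateField k₁ F, FiniteDimensional k₁ k' →
      NTg ℓ 1 (curveL k₁ F (RatFunc F) (red k₁ f)) (UB F ℓ (curveL k₁ F (RatFunc F) (red k₁ f)))
        (AutK k₁ F (RatFunc F) (AlgebraicClosure (RatFunc F)) k') := fun k' hk' =>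
    ntg_gen (Ω := AlgebraicClosure (RatFunc F)) (LT := UB F ℓ (curveL k₁ F (RatFunc F) (red k₁ f))) H hirr₁
      hsep ltprop_ub p hp₁ ρ hρ1 hρ2 hρ3 (powers_le_unramified p) hU hC0 k'
  have h4 : ∀ u ∈ points ℓ (curveL k₁ F (RatFunc F) (red k₁ f)),
      u ∈ powers ℓ (AdjoinRoot (curveL k₁ F (RatFunc F) (red k₁ f))) := fun u hu =>
    mem_powers_of_ntg (Ω := AlgebraicClosure (RatFunc F)) H
      (zA_prim H).pow_eq_one hsep hmon ltprop_ub h3 hu
  rw [hp₁] at h4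
  exact h4

end Pool.Agent.Lib.MP_89bcae_ag.Ze
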